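import Pool.Agent.SzSP.Defs

/-!
Discriminants of monic polynomials: multiplicativity, vanishing, quadratic character of the
discriminant of an irreducible polynomial over a prime field.
-/

open Polynomial

namespace SzSP

theorem res_deg {R : Type*} [CommRing R] {f : R[X]} (hf : f.Monic) (h : R[X]) (k : ℕ)
    (hk : h.natDegree ≤ k) : resultant f h f.natDegree k = resultant f h := by
  obtain ⟨c, rfl⟩ := Nat.exists_eq_add_of_le hk
  have h1 : f.coeff f.natDegree = 1 := hf.coeff_natDegree
  rw [resultant_add_right_deg _ _ _ _ _ le_rfl, h1, one_pow, one_mul]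

theorem discr_eq {R : Type*} [CommRing R] {f : R[X]} (hf : f.Monic) (h0 : 0 < f.natDegree) :
    f.discr = (-1) ^ (f.natDegree * (f.natDegree - 1) / 2) *
      resultant f f.derivative := by
  have h1 := resultant_deriv (f := f) (natDegree_pos_iff_degree_pos.mp h0)
  rw [res_deg hf _ _ (natDegree_derivative_le f), hf.leadingCoeff, mul_one] at h1
  rw [h1, ← mul_assoc, ← pow_add, ← two_mul, pow_mul]
  simp

theorem sgn_add (a b : ℕ) (ha : 0 < a) (hb : 0 < b) :
    (a + b) * (a + b - 1) / 2 = a * (a - 1) / 2 + b * (b - 1) / 2 + a * b := by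
  obtain ⟨a, rfl⟩ := Nat.exists_eq_add_of_le' ha
  obtain ⟨b, rfl⟩ := Nat.exists_eq_add_of_le' hb
  have h1 : (a + 1 + (b + 1)) * (a + 1 + (b + 1) - 1) =
      (a + 1) * a + (b + 1) * b + 2 * ((a + 1) * (b + 1)) := by
    have : a + 1 + (b + 1) - 1 = a + b + 1 := by omega
    rw [this]; ring
  obtain ⟨x, hx⟩ := Nat.even_mul_succ_self a
  obtain ⟨y, hy⟩ := Nat.even_mul_succ_self b
  have hx' : (a + 1) * a = 2 * x := by
    rw [mul_comm, ← two_mul] at *; linarith [hx]
  have hy' : (b + 1) * b = 2 * y := by
    rw [mul_comm, ← two_mul] at *; linarith [hy]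
  rw [h1]
  simp only [Nat.add_sub_cancel]
  rw [hx', hy']
  generalize (a + 1) * (b + 1) = c
  omega

theorem discr_mul {R : Type*} [CommRing R] {f g : R[X]} (hf : f.Monic) (hg : g.Monic)
    (hf1 : 0 < f.natDegree) (hg1 : 0 < g.natDegree) :
    (f * g).discr = f.discr * g.discr * (resultant f g) ^ 2 := by
  nontriviality R
  have hfg : (f * g).Monic := hf.mul hg
  have hd : (f * g).natDegree = f.natDegree + g.natDegree := hf.natDegree_mul hg
  have hder : (f * g).derivative.natDegree ≤ f.natDegree + g.natDegree - 1 := by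
    rw [← hd]; exact natDegree_derivative_le _
  have hf' := natDegree_derivative_le f
  have hg' := natDegree_derivative_le g
  have hmf : (f.derivative * g).natDegree ≤ f.natDegree + g.natDegree - 1 :=
    natDegree_mul_le.trans (by omega)
  have hmg : (g.derivative * f).natDegree ≤ f.natDegree + g.natDegree - 1 :=
    natDegree_mul_le.trans (by omega)
  have e1 : resultant f (f * g).derivative f.natDegree (f.natDegree + g.natDegree - 1) =
      resultant f f.derivative * resultant f g := by
    rw [derivative_mul, resultant_add_mul_right _ _ _ _ _ (by omega) le_rfl,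
      res_deg hf _ _ hmf, ← res_deg hf (f.derivative * g) (f.derivative.natDegree + g.natDegree)
        natDegree_mul_le, resultant_mul_right _ _ _ _ le_rfl]
  have e2 : resultant g (f * g).derivative g.natDegree (f.natDegree + g.natDegree - 1) =
      resultant g g.derivative * resultant g f := by
    rw [mul_comm f g, derivative_mul, resultant_add_mul_right _ _ _ _ _ (by omega) le_rfl,
      res_deg hg _ _ hmg, ← res_deg hg (g.derivative * f) (g.derivative.natDegree + f.natDegree)
        natDegree_mul_le, resultant_mul_right _ _ _ _ le_rfl]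
  have e3 : resultant (f * g) (f * g).derivative =
      resultant f f.derivative * resultant f g * (resultant g g.derivative * resultant g f) := by
    rw [← res_deg hfg _ _ (show (f * g).derivative.natDegree ≤ f.natDegree + g.natDegree - 1
      from hder), hd, resultant_mul_left _ _ _ _ hder, e1, e2]
  have e4 : resultant g f = (-1) ^ (f.natDegree * g.natDegree) * resultant f g := by
    rw [resultant_comm, mul_comm g.natDegree]
  rw [discr_eq hfg (by omega), discr_eq hf hf1, discr_eq hg hg1, e3, e4, hd,
    sgn_add _ _ hf1 hg1, pow_add, pow_add]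
  have e5 : ((-1 : R) ^ (f.natDegree * g.natDegree)) * (-1) ^ (f.natDegree * g.natDegree) = 1 := by
    rw [← pow_add, ← two_mul, pow_mul]; simp
  linear_combination (-1) ^ (f.natDegree * (f.natDegree - 1) / 2) *
    (-1) ^ (g.natDegree * (g.natDegree - 1) / 2) * f.resultant f.derivative * f.resultant g ^ 2 *
    g.resultant g.derivative * e5

theorem discr_map {R S : Type*} [CommRing R] [CommRing S] (φ : R →+* S) {f : R[X]}
    (hf : f.Monic) : (f.map φ).discr = φ f.discr := by
  nontriviality S
  by_cases h0 : f.natDegree = 0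
  · rw [eq_one_of_monic_natDegree_zero hf h0]
    rw [Polynomial.map_one, ← C_1, discr_C, ← C_1, discr_C, map_one]
  · have hd : (f.map φ).natDegree = f.natDegree := hf.natDegree_map φ
    have e1 : resultant (f.map φ) (f.map φ).derivative = φ (resultant f f.derivative) := by
      rw [← res_deg hf _ _ (natDegree_derivative_le f), ← res_deg (hf.map φ) _ _
        (natDegree_derivative_le (f.map φ)), hd, derivative_map, resultant_map_map]
    rw [discr_eq hf (by omega), discr_eq (hf.map φ) (by omega), e1, hd, map_mul, map_pow, map_neg,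
      map_one]

theorem discr_ne_zero_iff {K : Type*} [Field K] {f : K[X]} (hf : f.Monic) :
    f.discr ≠ 0 ↔ f.Separable := by
  by_cases h0 : f.natDegree = 0
  · rw [eq_one_of_monic_natDegree_zero hf h0]
    have : (1 : K[X]).discr = 1 := by rw [← C_1, discr_C]
    simp [this, separable_one]
  · rw [discr_eq hf (by omega)]
    rw [mul_ne_zero_iff]
    have h1 : ((-1 : K)) ^ (f.natDegree * (f.natDegree - 1) / 2) ≠ 0 :=
      pow_ne_zero _ (by simp)
    simp only [ne_eq, h1, not_false_eq_true, true_and]
    rw [resultant_eq_zero_iff]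
    simp [hf.ne_zero, Polynomial.Separable]

/-- translation invariance -/
theorem discr_taylor {R : Type*} [CommRing R] {f : R[X]} (hf : f.Monic) (r : R) :
    (taylor r f).discr = f.discr := by
  have hm : (taylor r f).Monic := by
    rw [Monic, leadingCoeff_taylor, hf.leadingCoeff]
  have hd : (taylor r f).natDegree = f.natDegree := natDegree_taylor f r
  have hder : (taylor r f).derivative = taylor r f.derivative := by
    simp [taylor_apply, derivative_comp]
  by_cases h0 : f.natDegree = 0
  · rw [eq_one_of_monic_natDegree_zero hf h0]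
    simp
  · rw [discr_eq hf (by omega), discr_eq hm (by omega), hder, resultant_taylor, hd]

/-- over a field where `f` splits -/
theorem discr_eq_prod {K : Type*} [Field K] (n : ℕ) (α : Fin n → K) :
    (∏ i, (X - C (α i))).discr = (Matrix.vandermonde α).det ^ 2 := by
  rw [Matrix.det_vandermonde]
  induction n with
  | zero =>
    have : (1 : K[X]).discr = 1 := by rw [← C_1, discr_C]
    simp [this]
  | succ n ih =>
    rw [Fin.prod_univ_succ]
    have hlin : (X - C (α 0)).discr = 1 := discr_of_degree_eq_one (degree_X_sub_C _)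
    rcases Nat.eq_zero_or_pos n with rfl | hn
    · simp [hlin]
    · have hm : (∏ i : Fin n, (X - C (α i.succ))).Monic :=
        monic_prod_of_monic _ _ fun i _ => monic_X_sub_C _
      have hd : (∏ i : Fin n, (X - C (α i.succ))).natDegree = n := by
        rw [natDegree_prod_of_monic _ _ fun i _ => monic_X_sub_C _]
        simp
      rw [discr_mul (monic_X_sub_C _) hm (by simp) (by omega), hlin, one_mul,
        ih (fun i => α i.succ)]
      have hres : resultant (X - C (α 0)) (∏ i : Fin n, (X - C (α i.succ))) =
          ∏ i : Fin n, (α 0 - α i.succ) := by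
        rw [natDegree_X_sub_C, resultant_X_sub_C_left _ _ _ le_rfl, eval_prod]
        simp
      rw [hres, Fin.prod_univ_succ]
      rw [show (∏ j ∈ Finset.Ioi (0 : Fin (n + 1)), (α j - α 0)) =
          ∏ i : Fin n, (α i.succ - α 0) from by
        rw [Fin.prod_Ioi_zero]]
      have h2 : ∀ i : Fin n, ∏ j ∈ Finset.Ioi i.succ, (α j - α i.succ) =
          ∏ j ∈ Finset.Ioi i, (α j.succ - α i.succ) := by
        intro i
        rw [Fin.prod_Ioi_succ]
      simp only [h2]
      rw [mul_pow, mul_comm]
      congr 1
      rw [← Finset.prod_pow, ← Finset.prod_pow]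
      exact Finset.prod_congr rfl fun i _ => by ring

/-- Stickelberger, irreducible case -/
theorem chi_irred (p : ℕ) [Fact p.Prime] (hp : p ≠ 2) {P : (ZMod p)[X]} (hP : Irreducible P)
    (hm : P.Monic) : quadraticChar (ZMod p) P.discr = (-1) ^ (P.natDegree + 1) := by
  have hd0 : 0 < P.natDegree := hP.natDegree_pos
  set d := P.natDegree with hd
  have : Fact (Irreducible P) := ⟨hP⟩
  let L := AdjoinRoot P
  let pb := AdjoinRoot.powerBasis hP.ne_zero
  have hfin : Module.finrank (ZMod p) L = d := by
    rw [pb.finrank, AdjoinRoot.powerBasis_dim]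
  have : Module.Finite (ZMod p) L := pb.finite
  have : Finite L := Module.finite_of_finite (ZMod p)
  have : CharP L p := charP_of_injective_algebraMap (algebraMap (ZMod p) L).injective p
  let α : L := AdjoinRoot.root P
  have hroot : ∀ i : ℕ, (P.map (algebraMap (ZMod p) L)).eval (α ^ p ^ i) = 0 := by
    intro i
    induction i with
    | zero =>
      rw [pow_zero, pow_one, eval_map_algebraMap]
      exact AdjoinRoot.aeval_eq P ▸ AdjoinRoot.mk_self
    | succ i ih =>
      rw [pow_succ, pow_mul]
      rw [eval_map_algebraMap] at ih ⊢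
      have h1 := ZMod.expand_card P
      have h2 : aeval (α ^ p ^ i) (expand (ZMod p) p P) = 0 := by
        rw [h1, map_pow, ih, zero_pow (Fact.out : p.Prime).ne_zero]
      rwa [expand_aeval] at h2
  have hcard : Fintype.card (ZMod p) = p := ZMod.card p
  have hiter : ∀ (k : ℕ) (x : L), (FiniteField.frobeniusAlgHom (ZMod p) L ^ k) x = x ^ p ^ k := by
    intro k x
    rw [AlgHom.coe_pow, FiniteField.coe_frobeniusAlgHom, pow_iterate, hcard]
  have hord : orderOf (FiniteField.frobeniusAlgHom (ZMod p) L) = d := by
    rw [FiniteField.orderOf_frobeniusAlgHom, hfin]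
  have hpowd : α ^ p ^ d = α := by
    have h1 : FiniteField.frobeniusAlgHom (ZMod p) L ^ d = 1 := by
      rw [← hord]; exact pow_orderOf_eq_one _
    have h2 := hiter d α
    rw [h1] at h2
    exact h2.symm
  have hinjp : ∀ i : ℕ, Function.Injective fun x : L => x ^ p ^ i := fun i =>
    iterateFrobenius_inj L p i
  have hlt : ∀ i j : ℕ, i < j → j < d → α ^ p ^ i ≠ α ^ p ^ j := by
    intro i j hij hj h
    have h1 : α = α ^ p ^ (j - i) := by
      apply hinjp i
      simp only
      rw [← pow_mul, ← pow_add, Nat.sub_add_cancel hij.le]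
      exact h
    have h2 : FiniteField.frobeniusAlgHom (ZMod p) L ^ (j - i) = 1 := by
      apply AdjoinRoot.algHom_ext
      rw [hiter]
      exact h1.symm
    have h3 := orderOf_dvd_of_pow_eq_one h2
    rw [hord] at h3
    have := Nat.le_of_dvd (by omega) h3
    omega
  let β : Fin d → L := fun i => α ^ p ^ (i : ℕ)
  have hβinj : Function.Injective β := by
    intro i j hij
    by_contra hne
    rcases lt_or_gt_of_ne (fun h => hne (Fin.ext h)) with h | h
    · exact hlt i j h j.2 hij
    · exact hlt j i h i.2 hij.symm
  have hprod : P.map (algebraMap (ZMod p) L) = ∏ i, (X - C (β i)) := by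
    symm
    have hdv : (∏ i, (X - C (β i))) ∣ P.map (algebraMap (ZMod p) L) := by
      apply Finset.prod_dvd_of_coprime
      · intro i _ j _ hij
        exact pairwise_coprime_X_sub_C hβinj hij
      · intro i _
        rw [dvd_iff_isRoot]
        exact hroot i
    refine eq_of_monic_of_dvd_of_natDegree_le
      (monic_prod_of_monic _ _ fun i _ => monic_X_sub_C _) (hm.map _) hdv ?_ |>.symm
    rw [natDegree_prod_of_monic _ _ fun i _ => monic_X_sub_C _, hm.natDegree_map]
    simp [hd]
  have hD : algebraMap (ZMod p) L P.discr = (Matrix.vandermonde β).det ^ 2 := by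
    rw [← discr_map _ hm, hprod, discr_eq_prod]
  set δ := (Matrix.vandermonde β).det with hδ
  have hδ0 : δ ≠ 0 := Matrix.det_vandermonde_ne_zero_iff.mpr hβinj
  have hδp : δ ^ p = ((Equiv.Perm.sign (finRotate d) : ℤ) : L) * δ := by
    have h1 : δ ^ p = (frobenius L p) δ := rfl
    rw [h1, hδ, RingHom.map_det]
    rw [← Matrix.det_permute]
    congr 1
    ext i k
    simp only [RingHom.mapMatrix_apply, Matrix.map_apply, Matrix.vandermonde_apply, map_pow,
      Matrix.submatrix_apply, id]
    congr 1
    change (α ^ p ^ (i : ℕ)) ^ p = α ^ p ^ ((finRotate d i : Fin d) : ℕ)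
    rw [← pow_mul, ← pow_succ]
    obtain ⟨d', hd'⟩ : ∃ d', d = d' + 1 := ⟨d - 1, by omega⟩
    clear_value d
    subst hd'
    rcases Nat.lt_or_ge (i : ℕ) d' with h | h
    · rw [coe_finRotate_of_ne_last]
      intro h'
      rw [h'] at h
      simp at h
    · have hi : i = Fin.last d' := by
        apply Fin.ext
        have := i.2
        simp only [Fin.val_last]
        omega
      rw [hi, finRotate_last]
      simp only [Fin.val_last, Fin.val_zero, pow_zero, pow_one]
      exact hpowd
  have hodd : Odd p := (Fact.out : p.Prime).odd_of_ne_two hp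
  obtain ⟨r, hr⟩ := hodd
  have hringL : ringChar (ZMod p) ≠ 2 := by rw [ZMod.ringChar_zmod_n]; exact hp
  have h1 := quadraticChar_eq_pow_of_char_ne_two' hringL P.discr
  have hp2 : Fintype.card (ZMod p) / 2 = r := by rw [hcard]; omega
  rw [hp2] at h1
  have h2 : algebraMap (ZMod p) L ((quadraticChar (ZMod p) P.discr : ℤ) : ZMod p) =
      ((Equiv.Perm.sign (finRotate d) : ℤ) : L) := by
    rw [h1, map_pow, hD, ← pow_mul]
    have h3 : δ ^ (2 * r) * δ = ((Equiv.Perm.sign (finRotate d) : ℤ) : L) * δ := by
      rw [← pow_succ, ← hr, hδp]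
    exact mul_right_cancel₀ hδ0 h3
  have h3 : ((quadraticChar (ZMod p) P.discr : ℤ) : ZMod p) =
      ((Equiv.Perm.sign (finRotate d) : ℤ) : ZMod p) := by
    apply (algebraMap (ZMod p) L).injective
    rw [h2, map_intCast]
  have hsg : (Equiv.Perm.sign (finRotate d) : ℤ) = (-1) ^ (d + 1) := by
    rw [sign_finRotate]
    have : d + 1 = d - 1 + 2 := by omega
    rw [this, pow_add]
    simp
  rw [hsg] at h3
  have hDne : P.discr ≠ 0 := by
    intro h
    rw [h, map_zero] at hD
    exact hδ0 (pow_eq_zero_iff two_ne_zero |>.mp hD.symm)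
  apply Int.cast_injOn_of_ringChar_ne_two hringL _ _ h3
  · rcases quadraticChar_dichotomy hDne with h | h <;> simp [h]
  · rcases neg_one_pow_eq_or ℤ (d + 1) with h | h <;> simp [h]

end SzSP
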