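import Pool.Agent.SzSP.Disc

/-!
The quadratic character of the discriminant has mean value zero over the monic polynomials of
degree n over a prime field (n at least 2), also over those with zero second coefficient.
-/

open Polynomial

namespace SzSP

/-- monic polynomial of degree `n` with given lower coefficients -/
noncomputable def mp {R : Type*} [CommRing R] (n : ℕ) (a : Fin n → R) : R[X] :=
  X ^ n + ∑ i : Fin n, C (a i) * X ^ (i : ℕ)

section basic

variable {R : Type*} [CommRing R] [Nontrivial R]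

omit [Nontrivial R] in
theorem mp_low_degree (n : ℕ) (a : Fin n → R) :
    (∑ i : Fin n, C (a i) * X ^ (i : ℕ)).degree < (n : WithBot ℕ) :=
  degree_sum_fin_lt a

omit [Nontrivial R] in
theorem mp_monic (n : ℕ) (a : Fin n → R) : (mp n a).Monic :=
  monic_X_pow_add (mp_low_degree n a)

theorem mp_natDegree (n : ℕ) (a : Fin n → R) : (mp n a).natDegree = n := by
  unfold mp
  apply natDegree_eq_of_degree_eq_some
  rw [degree_add_eq_left_of_degree_lt, degree_X_pow]
  rw [degree_X_pow]
  exact mp_low_degree n a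

omit [Nontrivial R] in
theorem mp_coeff (n : ℕ) (a : Fin n → R) (i : Fin n) : (mp n a).coeff i = a i := by
  unfold mp
  rw [coeff_add, coeff_X_pow, if_neg (by have := i.2; omega), zero_add, finsetSum_coeff]
  simp only [coeff_C_mul, coeff_X_pow]
  rw [Finset.sum_eq_single i]
  · simp
  · intro j _ hj
    rw [if_neg (fun h => hj (Fin.ext h.symm)), mul_zero]
  · intro h; exact absurd (Finset.mem_univ _) h

omit [Nontrivial R] in
theorem mp_inj (n : ℕ) : Function.Injective (mp (R := R) n) := by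
  intro a b h
  ext i
  rw [← mp_coeff n a i, ← mp_coeff n b i, h]

omit [Nontrivial R] in
theorem mp_of_monic {f : R[X]} (hf : f.Monic) :
    mp f.natDegree (fun i : Fin f.natDegree => f.coeff i) = f := by
  conv_rhs => rw [hf.as_sum]
  unfold mp
  rw [Finset.sum_range]

end basic

variable (p : ℕ) [Fact p.Prime]

/-- the monic polynomials of degree `n` -/
noncomputable def MM (n : ℕ) : Finset (ZMod p)[X] :=
  Finset.univ.map ⟨mp (R := ZMod p) n, mp_inj n⟩

theorem mem_MM {n : ℕ} {f : (ZMod p)[X]} : f ∈ MM p n ↔ f.Monic ∧ f.natDegree = n := by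
  unfold MM
  rw [Finset.mem_map]
  constructor
  · rintro ⟨a, _, rfl⟩
    exact ⟨mp_monic n a, mp_natDegree n a⟩
  · rintro ⟨h1, rfl⟩
    exact ⟨fun i => f.coeff i, Finset.mem_univ _, mp_of_monic h1⟩

theorem card_MM (n : ℕ) : (MM p n).card = p ^ n := by
  unfold MM
  rw [Finset.card_map, Finset.card_univ, Fintype.card_fun, ZMod.card, Fintype.card_fin]

/-- signed quadratic character of the discriminant -/
noncomputable def lam (f : (ZMod p)[X]) : ℤ :=
  (-1) ^ f.natDegree * quadraticChar (ZMod p) f.discr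

theorem lam_one : lam p 1 = 1 := by
  unfold lam
  have : (1 : (ZMod p)[X]).discr = 1 := by rw [← C_1, discr_C]
  rw [this]
  simp

variable {p} in
theorem lam_mul {f g : (ZMod p)[X]} (hf : f.Monic) (hg : g.Monic) (h : IsCoprime f g) :
    lam p (f * g) = lam p f * lam p g := by
  by_cases h1 : f.natDegree = 0
  · rw [eq_one_of_monic_natDegree_zero hf h1, one_mul, lam_one, one_mul]
  by_cases h2 : g.natDegree = 0
  · rw [eq_one_of_monic_natDegree_zero hg h2, mul_one, lam_one, mul_one]
  unfold lam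
  have hres : resultant f g ≠ 0 := by
    intro h0
    rw [resultant_eq_zero_iff] at h0
    exact h0.2 h
  rw [discr_mul hf hg (by omega) (by omega), hf.natDegree_mul hg, map_mul, map_mul, pow_add,
    quadraticChar_sq_one' hres]
  ring

variable {p} in
theorem lam_irred (hp : p ≠ 2) {P : (ZMod p)[X]} (hP : Irreducible P) (hm : P.Monic) :
    lam p P = -1 := by
  unfold lam
  rw [chi_irred p hp hP hm, ← pow_add]
  have : P.natDegree + (P.natDegree + 1) = 2 * P.natDegree + 1 := by ring
  rw [this, pow_add, pow_mul]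
  simp

variable {p} in
theorem lam_zero {f : (ZMod p)[X]} (hf : f.Monic) (h : ¬ Squarefree f) : lam p f = 0 := by
  unfold lam
  have : f.discr = 0 := by
    by_contra h0
    exact h ((discr_ne_zero_iff hf).mp h0).squarefree
  rw [this]
  simp

open scoped Classical in
/-- sum over the monic divisors -/
theorem sum_div (hp : p ≠ 2) (n : ℕ) (hn : 1 ≤ n) (f : (ZMod p)[X]) (hf : f ∈ MM p n) :
    ∑ k ∈ Finset.range (n + 1), ∑ d ∈ (MM p k).filter (fun d => d ∣ f), lam p d = 0 := by
  rw [mem_MM] at hf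
  obtain ⟨hfm, hfd⟩ := hf
  set D : Finset (ZMod p)[X] :=
    (Finset.range (n + 1)).biUnion (fun k => (MM p k).filter (fun d => d ∣ f)) with hD
  have hdisj : ∀ i ∈ Finset.range (n + 1), ∀ j ∈ Finset.range (n + 1), i ≠ j →
      Disjoint ((MM p i).filter (fun d => d ∣ f)) ((MM p j).filter (fun d => d ∣ f)) := by
    intro i _ j _ hij
    rw [Finset.disjoint_left]
    intro d hd hd'
    rw [Finset.mem_filter, mem_MM] at hd hd'
    exact hij (hd.1.2.symm.trans hd'.1.2)
  have hmem : ∀ d, d ∈ D ↔ d.Monic ∧ d ∣ f := by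
    intro d
    rw [hD, Finset.mem_biUnion]
    constructor
    · rintro ⟨k, _, hk⟩
      rw [Finset.mem_filter, mem_MM] at hk
      exact ⟨hk.1.1, hk.2⟩
    · rintro ⟨h1, h2⟩
      refine ⟨d.natDegree, ?_, ?_⟩
      · rw [Finset.mem_range]
        have := natDegree_le_of_dvd h2 hfm.ne_zero
        omega
      · rw [Finset.mem_filter, mem_MM]
        exact ⟨⟨h1, rfl⟩, h2⟩
  rw [← Finset.sum_biUnion (fun i hi j hj hij => hdisj i hi j hj hij)]
  -- a monic irreducible divisor
  obtain ⟨P, hPm, hPi, hPf⟩ : ∃ P : (ZMod p)[X], P.Monic ∧ Irreducible P ∧ P ∣ f := by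
    have hnu : ¬ IsUnit f := by
      intro hu
      have := natDegree_eq_zero_of_isUnit hu
      omega
    obtain ⟨P, h1, h2, h3⟩ := exists_monic_irreducible_factor f hnu
    exact ⟨P, h1, h2, h3⟩
  have hPp : Prime P := hPi.prime
  set E := D.filter (fun d => Squarefree d) with hE
  have hsum : ∑ d ∈ D, lam p d = ∑ d ∈ E, lam p d := by
    rw [hE, Finset.sum_filter]
    refine Finset.sum_congr rfl fun d hd => ?_
    split_ifs with h
    · rfl
    · exact lam_zero ((hmem d).mp hd).1 h
  rw [hsum]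
  have hmemE : ∀ d, d ∈ E ↔ d.Monic ∧ d ∣ f ∧ Squarefree d := by
    intro d
    rw [hE, Finset.mem_filter, hmem]
    tauto
  have hquot : ∀ d, d.Monic → P ∣ d → P * (d / P) = d := by
    intro d _ h
    exact EuclideanDomain.mul_div_cancel' hPm.ne_zero h
  have hquotm : ∀ d, d.Monic → P ∣ d → (d / P).Monic := by
    intro d hd h
    have h1 := hquot d hd h
    have h2 : (P * (d / P)).Monic := by rw [h1]; exact hd
    exact Monic.of_mul_monic_left hPm h2
  have hcop : ∀ d, Squarefree d → P ∣ d → ¬ P ∣ (d / P) := by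
    intro d hd h h'
    by_cases h0 : d = 0
    · subst h0
      exact hPi.not_isUnit (isUnit_of_dvd_one (by
        have := hd 0 (by simp)
        exact absurd this not_isUnit_zero))
    have h1 : P * (d / P) = d := EuclideanDomain.mul_div_cancel' hPm.ne_zero h
    have h2 : P * P ∣ d := by
      rw [← h1]; exact mul_dvd_mul_left P h'
    exact hPi.not_isUnit (hd P h2)
  have hcoprime : ∀ d, ¬ P ∣ d → IsCoprime P d := by
    intro d h
    exact (hPi.coprime_iff_not_dvd).mpr h
  refine Finset.sum_involution (fun d _ => if P ∣ d then d / P else P * d) ?_ ?_ ?_ ?_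
  · intro d hd
    rw [hmemE] at hd
    obtain ⟨h1, h2, h3⟩ := hd
    split_ifs with h
    · have h4 := hquot d h1 h
      have h5 := lam_mul hPm (hquotm d h1 h) (hcoprime _ (hcop d h3 h))
      rw [h4, lam_irred hp hPi hPm] at h5
      rw [h5]; ring
    · rw [lam_mul hPm h1 (hcoprime _ h), lam_irred hp hPi hPm]; ring
  · intro d hd hne
    rw [hmemE] at hd
    obtain ⟨h1, h2, h3⟩ := hd
    split_ifs with h
    · intro h'
      have := hcop d h3 h
      rw [h'] at this
      exact this h
    · intro h'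
      exact h (h' ▸ Dvd.intro d rfl)
  · intro d hd
    rw [hmemE] at hd ⊢
    obtain ⟨h1, h2, h3⟩ := hd
    split_ifs with h
    · have h4 := hquot d h1 h
      have h5 : d / P ∣ d := Dvd.intro_left P h4
      exact ⟨hquotm d h1 h, h5.trans h2, h3.squarefree_of_dvd h5⟩
    · have hc := hcoprime d h
      refine ⟨hPm.mul h1, hc.mul_dvd hPf h2, ?_⟩
      rw [squarefree_mul_iff]
      exact ⟨hc.isRelPrime, hPi.squarefree, h3⟩
  · intro d hd
    rw [hmemE] at hd
    obtain ⟨h1, h2, h3⟩ := hd
    by_cases h : P ∣ d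
    · rw [if_pos h, if_neg (hcop d h3 h)]
      exact hquot d h1 h
    · rw [if_neg h, if_pos (Dvd.intro d rfl)]
      exact mul_div_cancel_left₀ d hPm.ne_zero

/-- the sum of `lam` over the monic polynomials of degree `n` -/
noncomputable def SS (n : ℕ) : ℤ := ∑ f ∈ MM p n, lam p f

open scoped Classical in
theorem count_mul (k n : ℕ) (hk : k ≤ n) (d : (ZMod p)[X]) (hd : d ∈ MM p k) :
    ((MM p n).filter (fun f => d ∣ f)).card = p ^ (n - k) := by
  rw [← card_MM p (n - k)]
  symm
  rw [mem_MM] at hd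
  refine Finset.card_bij (fun e _ => d * e) ?_ ?_ ?_
  · intro e he
    rw [mem_MM] at he
    rw [Finset.mem_filter, mem_MM]
    refine ⟨⟨hd.1.mul he.1, ?_⟩, Dvd.intro e rfl⟩
    rw [hd.1.natDegree_mul he.1, hd.2, he.2]; omega
  · intro e _ e' _ h
    exact mul_left_cancel₀ hd.1.ne_zero h
  · intro f hf
    rw [Finset.mem_filter, mem_MM] at hf
    obtain ⟨⟨h1, h2⟩, e, rfl⟩ := hf
    have he : e.Monic := Monic.of_mul_monic_left hd.1 h1
    refine ⟨e, ?_, rfl⟩
    rw [mem_MM]
    refine ⟨he, ?_⟩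
    rw [hd.1.natDegree_mul he] at h2
    omega

theorem conv_zero (hp : p ≠ 2) (n : ℕ) (hn : 1 ≤ n) :
    ∑ k ∈ Finset.range (n + 1), SS p k * (p : ℤ) ^ (n - k) = 0 := by
  classical
  have h1 : ∑ f ∈ MM p n, ∑ k ∈ Finset.range (n + 1),
      ∑ d ∈ (MM p k).filter (fun d => d ∣ f), lam p d = 0 :=
    Finset.sum_eq_zero fun f hf => sum_div p hp n hn f hf
  rw [← h1, Finset.sum_comm]
  refine Finset.sum_congr rfl fun k hk => ?_
  rw [Finset.mem_range] at hk
  simp only [Finset.sum_filter]
  rw [Finset.sum_comm]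
  unfold SS
  rw [Finset.sum_mul]
  refine Finset.sum_congr rfl fun d hd => ?_
  rw [← Finset.sum_filter, Finset.sum_const, count_mul p k n (by omega) d hd]
  rw [nsmul_eq_mul]
  push_cast
  ring

theorem SS_zero (hp : p ≠ 2) (n : ℕ) (hn : 2 ≤ n) : SS p n = 0 := by
  have h1 := conv_zero p hp n (by omega)
  have h2 := conv_zero p hp (n - 1) (by omega)
  rw [Finset.sum_range_succ, Nat.sub_self, pow_zero, mul_one] at h1
  have h3 : ∑ k ∈ Finset.range n, SS p k * (p : ℤ) ^ (n - k) =
      p * ∑ k ∈ Finset.range (n - 1 + 1), SS p k * (p : ℤ) ^ (n - 1 - k) := by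
    rw [Finset.mul_sum, Nat.sub_add_cancel (by omega : 1 ≤ n)]
    refine Finset.sum_congr rfl fun k hk => ?_
    rw [Finset.mem_range] at hk
    have : n - k = n - 1 - k + 1 := by omega
    rw [this, pow_succ]
    ring
  rw [h3, h2] at h1
  simpa using h1

/-- `λ(f) = (-1)^deg f * χ(disc f)` sums to zero over the monic divisors of a monic polynomial of
positive degree; hence the sum over all monic polynomials of degree `n ≥ 2` is zero. -/
theorem sum_monic (p : ℕ) [Fact p.Prime] (hp : p ≠ 2) (n : ℕ) (hn : 2 ≤ n) :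
    ∑ a : Fin n → ZMod p,
      quadraticChar (ZMod p) (X ^ n + ∑ i : Fin n, C (a i) * X ^ (i : ℕ)).discr = 0 := by
  have h := SS_zero p hp n hn
  unfold SS MM at h
  rw [Finset.sum_map] at h
  have h2 : ∀ a : Fin n → ZMod p, lam p ((⟨mp (R := ZMod p) n, mp_inj n⟩ :
      (Fin n → ZMod p) ↪ (ZMod p)[X]) a) = (-1) ^ n *
        quadraticChar (ZMod p) (X ^ n + ∑ i : Fin n, C (a i) * X ^ (i : ℕ)).discr := by
    intro a
    unfold lam
    change (-1) ^ (mp n a).natDegree * quadraticChar (ZMod p) (mp n a).discr = _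
    rw [mp_natDegree]
    rfl
  simp only [h2] at h
  rw [← Finset.mul_sum] at h
  rcases mul_eq_zero.mp h with h | h
  · exact absurd h (pow_ne_zero _ (by simp))
  · exact h

theorem poly_low_degree {R : Type*} [CommRing R] (n : ℕ) (hn : 1 ≤ n) (a : Fin (n - 1) → R) :
    (∑ i : Fin (n - 1), C (a i) * X ^ (i : ℕ)).degree < (n : WithBot ℕ) :=
  (degree_sum_fin_lt a).trans (by exact_mod_cast Nat.sub_lt hn Nat.one_pos)

theorem poly_mon {R : Type*} [CommRing R] (n : ℕ) (hn : 1 ≤ n) (a : Fin (n - 1) → R) :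
    (poly n a).Monic :=
  monic_X_pow_add (poly_low_degree n hn a)

theorem poly_natDegree {R : Type*} [CommRing R] [Nontrivial R] (n : ℕ) (hn : 1 ≤ n)
    (a : Fin (n - 1) → R) : (poly n a).natDegree = n := by
  unfold poly
  apply natDegree_eq_of_degree_eq_some
  rw [degree_add_eq_left_of_degree_lt, degree_X_pow]
  rw [degree_X_pow]
  exact poly_low_degree n hn a

theorem poly_coeff {R : Type*} [CommRing R] (n : ℕ) (a : Fin (n - 1) → R) (i : Fin (n - 1)) :
    (poly n a).coeff i = a i := by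
  unfold poly
  rw [coeff_add, coeff_X_pow, if_neg (by have := i.2; omega), zero_add, finsetSum_coeff]
  simp only [coeff_C_mul, coeff_X_pow]
  rw [Finset.sum_eq_single i]
  · simp
  · intro j _ hj
    rw [if_neg (fun h => hj (Fin.ext h.symm)), mul_zero]
  · intro h; exact absurd (Finset.mem_univ _) h

theorem poly_coeff_pred {R : Type*} [CommRing R] (n : ℕ) (hn : 1 ≤ n) (a : Fin (n - 1) → R) :
    (poly n a).coeff (n - 1) = 0 := by
  unfold poly
  rw [coeff_add, coeff_X_pow, if_neg (by omega), zero_add, finsetSum_coeff]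
  simp only [coeff_C_mul, coeff_X_pow]
  refine Finset.sum_eq_zero fun i _ => ?_
  rw [if_neg (by have := i.2; omega), mul_zero]

theorem eq_poly {R : Type*} [CommRing R] {f : R[X]} (n : ℕ) (hn : 1 ≤ n) (hf : f.Monic)
    (hd : f.natDegree = n) (h0 : f.coeff (n - 1) = 0) :
    poly n (fun i : Fin (n - 1) => f.coeff i) = f := by
  obtain ⟨n, rfl⟩ := Nat.exists_eq_add_of_le' hn
  conv_rhs => rw [hf.as_sum, hd, Finset.sum_range_succ]
  simp only [Nat.add_sub_cancel] at h0 ⊢
  rw [h0]
  unfold poly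
  simp only [map_zero, zero_mul, add_zero]
  rw [Finset.sum_range]
  rfl

theorem taylor_coeff_pred {R : Type*} [CommRing R] {f : R[X]} (n : ℕ) (hn : 1 ≤ n)
    (hf : f.Monic) (hd : f.natDegree = n) (r : R) :
    (taylor r f).coeff (n - 1) = f.coeff (n - 1) + n * r := by
  obtain ⟨n, rfl⟩ := Nat.exists_eq_add_of_le' hn
  rw [taylor_apply, comp_eq_sum_left, sum_over_range _ (by simp), hd, finsetSum_coeff]
  simp only [Nat.add_sub_cancel]
  rw [Finset.sum_range_succ, Finset.sum_range_succ]
  have h1 : ∀ i ∈ Finset.range n, (C (f.coeff i) * (X + C r) ^ i).coeff n = 0 := by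
    intro i hi
    rw [Finset.mem_range] at hi
    rw [coeff_C_mul, coeff_X_add_C_pow, Nat.choose_eq_zero_of_lt hi]
    simp
  rw [Finset.sum_eq_zero h1, zero_add]
  rw [coeff_C_mul, coeff_X_add_C_pow, coeff_C_mul, coeff_X_add_C_pow]
  have h2 : f.coeff (n + 1) = 1 := by rw [← hd]; exact hf.coeff_natDegree
  rw [h2]
  simp
  ring

theorem sum_poly (p : ℕ) [Fact p.Prime] (hp : p ≠ 2) (n : ℕ) (hn : 2 ≤ n) (hpn : ¬ p ∣ n) :
    ∑ a : Fin (n - 1) → ZMod p, quadraticChar (ZMod p) (poly n a).discr = 0 := by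
  classical
  have h := sum_monic p hp n hn
  have hM : ∑ f ∈ MM p n, quadraticChar (ZMod p) f.discr = 0 := by
    unfold MM
    rw [Finset.sum_map]
    exact h
  rw [← Finset.sum_fiberwise (MM p n) (fun f => f.coeff (n - 1))] at hM
  have hn0 : (n : ZMod p) ≠ 0 := by
    rw [Ne, ZMod.natCast_eq_zero_iff]; exact hpn
  have hc : ∀ c : ZMod p, ∑ f ∈ (MM p n).filter (fun f => f.coeff (n - 1) = c),
      quadraticChar (ZMod p) f.discr =
      ∑ f ∈ (MM p n).filter (fun f => f.coeff (n - 1) = 0), quadraticChar (ZMod p) f.discr := by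
    intro c
    symm
    refine Finset.sum_bij (fun f _ => taylor (c / n) f) ?_ ?_ ?_ ?_
    · intro f hf
      rw [Finset.mem_filter, mem_MM] at hf ⊢
      obtain ⟨⟨h1, h2⟩, h3⟩ := hf
      refine ⟨⟨?_, ?_⟩, ?_⟩
      · rw [Monic, leadingCoeff_taylor, h1.leadingCoeff]
      · rw [natDegree_taylor, h2]
      · rw [taylor_coeff_pred n (by omega) h1 h2, h3, zero_add, mul_div_cancel₀ _ hn0]
    · intro f _ g _ hfg
      exact taylor_injective _ hfg
    · intro f hf
      rw [Finset.mem_filter, mem_MM] at hf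
      obtain ⟨⟨h1, h2⟩, h3⟩ := hf
      refine ⟨taylor (-(c / n)) f, ?_, ?_⟩
      · rw [Finset.mem_filter, mem_MM]
        refine ⟨⟨?_, ?_⟩, ?_⟩
        · rw [Monic, leadingCoeff_taylor, h1.leadingCoeff]
        · rw [natDegree_taylor, h2]
        · rw [taylor_coeff_pred n (by omega) h1 h2, h3, mul_neg, mul_div_cancel₀ _ hn0]
          ring
      · rw [taylor_taylor]
        simp
    · intro f hf
      rw [Finset.mem_filter, mem_MM] at hf
      rw [discr_taylor hf.1.1]
  simp only [hc] at hM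
  rw [Finset.sum_const, nsmul_eq_mul] at hM
  have hcard : ((Finset.univ : Finset (ZMod p)).card : ℤ) ≠ 0 := by
    rw [Finset.card_univ, ZMod.card]
    exact_mod_cast (Fact.out : p.Prime).ne_zero
  have h0 := (mul_eq_zero.mp hM).resolve_left hcard
  rw [← h0]
  refine Finset.sum_bij (fun a _ => poly n a) ?_ ?_ ?_ ?_
  · intro a _
    rw [Finset.mem_filter, mem_MM]
    exact ⟨⟨poly_mon n (by omega) a, poly_natDegree n (by omega) a⟩,
      poly_coeff_pred n (by omega) a⟩
  · intro a _ b _ hab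
    ext i
    rw [← poly_coeff n a i, ← poly_coeff n b i, hab]
  · intro f hf
    rw [Finset.mem_filter, mem_MM] at hf
    exact ⟨_, Finset.mem_univ _, eq_poly n (by omega) hf.1.1 hf.1.2 hf.2⟩
  · intro a _
    rfl

end SzSP
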