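import Mathlib

/-!
Sums of periodic functions over boxes.
-/

namespace SzSP

private lemma per_diff_le {α : Type*} [DecidableEq α] (B B' : Finset α) (G : α → ℝ)
    (hG : ∀ a, |G a| ≤ 1) :
    |∑ a ∈ B, G a - ∑ a ∈ B', G a| ≤ ((B \ B').card : ℝ) + ((B' \ B).card : ℝ) := by
  rw [← Finset.sum_sdiff_sub_sum_sdiff]
  have h : ∀ S : Finset α, |∑ a ∈ S, G a| ≤ (S.card : ℝ) := by
    intro S
    calc |∑ a ∈ S, G a| ≤ ∑ a ∈ S, |G a| := Finset.abs_sum_le_sum_abs _ _
      _ ≤ ∑ _a ∈ S, (1 : ℝ) := Finset.sum_le_sum fun a _ => hG a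
      _ = S.card := by simp
  exact (abs_sub _ _).trans (by linarith [h (B \ B'), h (B' \ B)])

private lemma per_prod_one_sub {ι : Type*} (s : Finset ι) (t : ι → ℝ)
    (h0 : ∀ i ∈ s, 0 ≤ t i) (h1 : ∀ i ∈ s, t i ≤ 1) :
    1 - ∑ i ∈ s, t i ≤ ∏ i ∈ s, (1 - t i) := by
  classical
  induction s using Finset.induction_on with
  | empty => simp
  | insert a s ha ih =>
    have ih' := ih (fun i hi => h0 i (Finset.mem_insert_of_mem hi))
      (fun i hi => h1 i (Finset.mem_insert_of_mem hi))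
    have ht0 := h0 a (Finset.mem_insert_self a s)
    have ht1 := h1 a (Finset.mem_insert_self a s)
    have hp : ∏ i ∈ s, (1 - t i) ≤ 1 :=
      Finset.prod_le_one (fun i hi => by linarith [h1 i (Finset.mem_insert_of_mem hi)])
        (fun i hi => by linarith [h0 i (Finset.mem_insert_of_mem hi)])
    rw [Finset.sum_insert ha, Finset.prod_insert ha]
    nlinarith [mul_nonneg ht0 (sub_nonneg.2 hp)]

private lemma per_prod_le {ι : Type*} [Fintype ι] (A c b : ι → ℝ) (hA : ∀ i, 0 < A i)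
    (hc : ∀ i, 0 ≤ c i) (hcA : ∀ i, c i ≤ A i) (hb : ∀ i, A i - c i ≤ b i) :
    ∏ i, A i - ∏ i, c i ≤ (∑ i, b i / A i) * ∏ i, A i := by
  have h1 : ∏ i, c i = (∏ i, A i) * ∏ i, (1 - (A i - c i) / A i) := by
    rw [← Finset.prod_mul_distrib]
    refine Finset.prod_congr rfl fun i _ => ?_
    have := (hA i).ne'
    field_simp
    ring
  have h2 := per_prod_one_sub Finset.univ (fun i => (A i - c i) / A i)
    (fun i _ => div_nonneg (by linarith [hcA i]) (hA i).le)
    (fun i _ => (div_le_one (hA i)).2 (by linarith [hc i]))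
  have h3 : ∑ i, (A i - c i) / A i ≤ ∑ i, b i / A i :=
    Finset.sum_le_sum fun i _ => div_le_div_of_nonneg_right (hb i) (hA i).le
  have h4 : 0 ≤ ∏ i, A i := Finset.prod_nonneg fun i _ => (hA i).le
  rw [h1]
  nlinarith [mul_le_mul_of_nonneg_left h2 h4, mul_le_mul_of_nonneg_left h3 h4]

private lemma per_card {ι : Type*} [Fintype ι] [DecidableEq ι] (s s' : ι → Finset ℤ)
    (A b : ι → ℝ) (hA : ∀ i, ((s i).card : ℝ) = A i) (hA0 : ∀ i, 0 < A i)
    (hb : ∀ i, A i - ((s i ∩ s' i).card : ℝ) ≤ b i) :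
    ((Fintype.piFinset s \ Fintype.piFinset s').card : ℝ) ≤ (∑ i, b i / A i) * ∏ i, A i := by
  have h1 : (Fintype.piFinset s \ Fintype.piFinset s').card
      + (Fintype.piFinset s ∩ Fintype.piFinset s').card = (Fintype.piFinset s).card :=
    Finset.card_sdiff_add_card_inter _ _
  rw [← Fintype.piFinset_inter, Fintype.card_piFinset, Fintype.card_piFinset] at h1
  have h2 : ((Fintype.piFinset s \ Fintype.piFinset s').card : ℝ)
      = ∏ i, A i - ∏ i, ((s i ∩ s' i).card : ℝ) := by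
    have h3 : (((Fintype.piFinset s \ Fintype.piFinset s').card
      + ∏ i, (s i ∩ s' i).card : ℕ) : ℝ) = ((∏ i, (s i).card : ℕ) : ℝ) := by
      exact_mod_cast h1
    push_cast at h3
    simp only [hA] at h3
    linarith
  rw [h2]
  refine per_prod_le A _ b hA0 (fun i => by positivity) (fun i => ?_) hb
  rw [← hA i]
  exact_mod_cast Finset.card_le_card Finset.inter_subset_left

theorem per_sum {ι : Type*} [Fintype ι] [DecidableEq ι] (L : ι → ℕ) (M : ℕ) (hM : 0 < M)
    (G : (ι → ℤ) → ℝ) (hG : ∀ a, |G a| ≤ 1)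
    (hper : ∀ a b : ι → ℤ, (∀ i, (M : ℤ) ∣ a i - b i) → G a = G b)
    (hzero : ∑ a ∈ Fintype.piFinset (fun _ : ι => Finset.Ico (0 : ℤ) M), G a = 0) :
    |∑ a ∈ Fintype.piFinset (fun i => Finset.Icc (-(L i : ℤ)) (L i)), G a|
      ≤ (∑ i, 2 * (M : ℝ) / (2 * L i + 1)) * ∏ i, (2 * (L i : ℝ) + 1) := by
  classical
  set B := Fintype.piFinset (fun i => Finset.Icc (-(L i : ℤ)) (L i)) with hB
  set R := Fintype.piFinset (fun _ : ι => Finset.Ico (0 : ℤ) M) with hR
  have hM' : (0 : ℤ) < M := by exact_mod_cast hM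
  -- complete residue systems
  have hres : ∀ a : ι → ℤ, ∑ b ∈ R, G (fun i => a i + b i) = 0 := by
    intro a
    rw [← hzero]
    refine Finset.sum_nbij' (fun b i => (a i + b i) % M) (fun c i => (c i - a i) % M) ?_ ?_ ?_ ?_ ?_
    · intro b _
      simp only [hR, Fintype.mem_piFinset, Finset.mem_Ico]
      exact fun i => ⟨Int.emod_nonneg _ hM'.ne', Int.emod_lt_of_pos _ hM'⟩
    · intro b _
      simp only [hR, Fintype.mem_piFinset, Finset.mem_Ico]
      exact fun i => ⟨Int.emod_nonneg _ hM'.ne', Int.emod_lt_of_pos _ hM'⟩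
    · intro b hb
      simp only [hR, Fintype.mem_piFinset, Finset.mem_Ico] at hb
      funext i
      rw [Int.sub_emod, Int.emod_emod, ← Int.sub_emod, add_sub_cancel_left]
      exact Int.emod_eq_of_lt (hb i).1 (hb i).2
    · intro c hc
      simp only [hR, Fintype.mem_piFinset, Finset.mem_Ico] at hc
      funext i
      rw [Int.add_emod, Int.emod_emod, ← Int.add_emod, add_sub_cancel]
      exact Int.emod_eq_of_lt (hc i).1 (hc i).2
    · intro b _
      refine hper _ _ fun i => ?_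
      exact ⟨(a i + b i) / M, by rw [Int.emod_def]; ring⟩
  -- translates
  have htr : ∀ b ∈ R, |∑ a ∈ B, G a - ∑ a ∈ B, G (fun i => a i + b i)|
      ≤ (∑ i, 2 * (M : ℝ) / (2 * L i + 1)) * ∏ i, (2 * (L i : ℝ) + 1) := by
    intro b hb
    simp only [hR, Fintype.mem_piFinset, Finset.mem_Ico] at hb
    set B' := Fintype.piFinset (fun i => Finset.Icc (-(L i : ℤ) + b i) (L i + b i)) with hB'
    have h1 : ∑ a ∈ B, G (fun i => a i + b i) = ∑ a ∈ B', G a := by
      refine Finset.sum_nbij' (fun a i => a i + b i) (fun a i => a i - b i) ?_ ?_ ?_ ?_ ?_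
      · intro a ha
        simp only [hB, hB', Fintype.mem_piFinset, Finset.mem_Icc] at ha ⊢
        exact fun i => ⟨by linarith [(ha i).1], by linarith [(ha i).2]⟩
      · intro a ha
        simp only [hB, hB', Fintype.mem_piFinset, Finset.mem_Icc] at ha ⊢
        exact fun i => ⟨by linarith [(ha i).1], by linarith [(ha i).2]⟩
      · intro a _; funext i; ring
      · intro a _; funext i; ring
      · intro a _; rfl
    rw [h1]
    refine (per_diff_le B B' G hG).trans ?_
    have hA0 : ∀ i, (0 : ℝ) < 2 * (L i : ℝ) + 1 := fun i => by positivity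
    have hc1 : ∀ i, ((Finset.Icc (-(L i : ℤ)) (L i)).card : ℝ) = 2 * (L i : ℝ) + 1 := by
      intro i
      rw [Int.card_Icc]
      have : ((L i : ℤ) + 1 - -(L i : ℤ)).toNat = 2 * L i + 1 := by omega
      rw [this]; push_cast; ring
    have hc2 : ∀ i, ((Finset.Icc (-(L i : ℤ) + b i) (L i + b i)).card : ℝ)
        = 2 * (L i : ℝ) + 1 := by
      intro i
      rw [Int.card_Icc]
      have : ((L i : ℤ) + b i + 1 - (-(L i : ℤ) + b i)).toNat = 2 * L i + 1 := by omega
      rw [this]; push_cast; ring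
    have hint : ∀ i, 2 * (L i : ℝ) + 1 - M ≤
        ((Finset.Icc (-(L i : ℤ)) (L i) ∩ Finset.Icc (-(L i : ℤ) + b i) (L i + b i)).card : ℝ) := by
      intro i
      have hsub : Finset.Icc (-(L i : ℤ) + b i) (L i) ⊆
          Finset.Icc (-(L i : ℤ)) (L i) ∩ Finset.Icc (-(L i : ℤ) + b i) (L i + b i) := by
        intro z hz
        simp only [Finset.mem_inter, Finset.mem_Icc] at hz ⊢
        have := hb i
        omega
      have h2 := Finset.card_le_card hsub
      rw [Int.card_Icc] at h2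
      have h3 : (2 * (L i : ℤ) + 1 - M : ℤ) ≤ (((L i : ℤ) + 1 - (-(L i : ℤ) + b i)).toNat : ℤ) := by
        have := hb i
        omega
      have h4 : (2 * (L i : ℤ) + 1 - M : ℤ) ≤
        ((Finset.Icc (-(L i : ℤ)) (L i) ∩ Finset.Icc (-(L i : ℤ) + b i) (L i + b i)).card : ℤ) :=
        h3.trans (by exact_mod_cast h2)
      exact_mod_cast h4
    have k1 := per_card (fun i => Finset.Icc (-(L i : ℤ)) (L i))
      (fun i => Finset.Icc (-(L i : ℤ) + b i) (L i + b i)) (fun i => 2 * (L i : ℝ) + 1)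
      (fun _ => (M : ℝ)) hc1 hA0 (fun i => by linarith [hint i])
    have k2 := per_card (fun i => Finset.Icc (-(L i : ℤ) + b i) (L i + b i))
      (fun i => Finset.Icc (-(L i : ℤ)) (L i)) (fun i => 2 * (L i : ℝ) + 1)
      (fun _ => (M : ℝ)) hc2 hA0 (fun i => by
        rw [Finset.inter_comm]
        linarith [hint i])
    have k3 : (∑ i, 2 * (M : ℝ) / (2 * L i + 1)) = 2 * ∑ i, (M : ℝ) / (2 * L i + 1) := by
      rw [Finset.mul_sum]
      exact Finset.sum_congr rfl fun i _ => by ring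
    rw [k3]
    linarith
  -- averaging
  have hcardR : 0 < (R.card : ℝ) := by
    have : 0 < R.card := by
      rw [hR, Fintype.card_piFinset]
      exact Finset.prod_pos fun i _ => by rw [Int.card_Ico]; omega
    exact_mod_cast this
  have hsum : ∑ b ∈ R, (∑ a ∈ B, G a - ∑ a ∈ B, G (fun i => a i + b i))
      = R.card * ∑ a ∈ B, G a := by
    have hz : ∑ b ∈ R, ∑ a ∈ B, G (fun i => a i + b i) = 0 := by
      rw [Finset.sum_comm]
      exact Finset.sum_eq_zero (fun a _ => hres a)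
    rw [Finset.sum_sub_distrib, hz, Finset.sum_const, nsmul_eq_mul, sub_zero]
  have habs : (R.card : ℝ) * |∑ a ∈ B, G a| ≤
      R.card * ((∑ i, 2 * (M : ℝ) / (2 * L i + 1)) * ∏ i, (2 * (L i : ℝ) + 1)) := by
    rw [← abs_of_pos hcardR, ← abs_mul, abs_of_pos hcardR, ← hsum]
    refine (Finset.abs_sum_le_sum_abs _ _).trans ?_
    refine (Finset.sum_le_sum htr).trans ?_
    rw [Finset.sum_const, nsmul_eq_mul]
  exact le_of_mul_le_mul_left habs hcardR

end SzSP
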