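import Pool.Agent.SzSP.Defs

/-!
Decay of the density of the canonical measure outside the disc of the roots.
-/

open Polynomial MeasureTheory ComplexConjugate

namespace SzSP

lemma mom_int (R : ℝ) (i : ℕ) (hR : 0 < R) :
    ∫ z in Metric.closedBall (0 : ℂ) R, ‖z‖ ^ (2 * i) = Real.pi * R ^ (2 * i + 2) / (i + 1) := by
  have h1 : ∫ z in Metric.closedBall (0 : ℂ) R, ‖z‖ ^ (2 * i) =
      ∫ z : ℂ, (Set.indicator (Set.Iic R) (fun y : ℝ => y ^ (2 * i))) ‖z‖ := by
    rw [← integral_indicator measurableSet_closedBall]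
    congr 1
    ext z
    by_cases hz : ‖z‖ ≤ R
    · rw [Set.indicator_of_mem (by simpa using hz), Set.indicator_of_mem (by simpa using hz)]
    · rw [Set.indicator_of_notMem (by simpa using hz), Set.indicator_of_notMem (by simpa using hz)]
  rw [h1, integral_fun_norm_addHaar volume (Set.indicator (Set.Iic R) (fun y : ℝ => y ^ (2 * i)))]
  have h2 : (volume : Measure ℂ).real (Metric.ball 0 1) = Real.pi := by
    simp [Measure.real]
  have h3 : ∫ y in Set.Ioi (0 : ℝ), y ^ (Module.finrank ℝ ℂ - 1) •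
      (Set.indicator (Set.Iic R) (fun y : ℝ => y ^ (2 * i))) y = R ^ (2 * i + 2) / (2 * i + 2) := by
    have : ∀ y : ℝ, y ^ (Module.finrank ℝ ℂ - 1) •
      (Set.indicator (Set.Iic R) (fun y : ℝ => y ^ (2 * i))) y =
        Set.indicator (Set.Iic R) (fun y : ℝ => y ^ (2 * i + 1)) y := by
      intro y
      by_cases hy : y ∈ Set.Iic R
      · rw [Set.indicator_of_mem hy, Set.indicator_of_mem hy]
        simp only [Complex.finrank_real_complex, smul_eq_mul]
        ring
      · rw [Set.indicator_of_notMem hy, Set.indicator_of_notMem hy, smul_zero]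
    simp_rw [this]
    rw [setIntegral_indicator measurableSet_Iic, Set.Ioi_inter_Iic,
      ← intervalIntegral.integral_of_le hR.le, integral_pow]
    simp only [Nat.cast_add, Nat.cast_mul, Nat.cast_ofNat, Nat.cast_one]
    rw [zero_pow (by omega)]
    congr 1
    · ring
    · ring
  rw [h3, h2]
  simp only [Complex.finrank_real_complex, smul_eq_mul, nsmul_eq_mul]
  push_cast
  field_simp

lemma mom_zero (R : ℝ) (k i : ℕ) (h : k ≠ i) :
    ∫ z in Metric.closedBall (0 : ℂ) R, z ^ k * conj (z ^ i) = 0 := by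
  set θ : ℝ := Real.pi / ((k : ℝ) - i) with hθ
  set u : Circle := Circle.exp θ with hu
  have hki : ((k : ℝ) - i) ≠ 0 := by
    intro h0
    exact h (by exact_mod_cast sub_eq_zero.1 h0)
  have hpre : (rotation u) ⁻¹' (Metric.closedBall (0 : ℂ) R) = Metric.closedBall (0 : ℂ) R := by
    ext z
    rw [Set.mem_preimage, mem_closedBall_zero_iff, mem_closedBall_zero_iff,
      LinearIsometryEquiv.norm_map]
  have h1 := ((rotation u).measurePreserving).setIntegral_preimage_emb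
    (rotation u).toHomeomorph.measurableEmbedding (fun z : ℂ => z ^ k * conj (z ^ i))
    (Metric.closedBall (0 : ℂ) R)
  rw [hpre] at h1
  have hc : (u : ℂ) ^ k * conj ((u : ℂ) ^ i) = -1 := by
    have e1 : (u : ℂ) = Complex.exp (θ * Complex.I) := by simp [hu]
    rw [e1, ← Complex.exp_nat_mul, ← Complex.exp_nat_mul, ← Complex.exp_conj, ← Complex.exp_add]
    rw [← Complex.exp_pi_mul_I]
    congr 1
    simp only [map_mul, Complex.conj_ofReal, Complex.conj_I, map_natCast]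
    have : ((k : ℂ) - i) * θ = Real.pi := by
      rw [hθ]
      push_cast
      have : ((k : ℂ) - i) ≠ 0 := by exact_mod_cast hki
      field_simp
    linear_combination Complex.I * this
  have h2 : ∀ z : ℂ, (rotation u z) ^ k * conj ((rotation u z) ^ i) = - (z ^ k * conj (z ^ i)) := by
    intro z
    simp only [rotation_apply, mul_pow, map_mul]
    linear_combination (z ^ k * conj (z ^ i)) * hc
  simp_rw [h2] at h1
  rw [integral_neg] at h1
  have := h1
  linear_combination (-1/2 : ℂ) * this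

/-- coefficients and area integrals over a disc -/
theorem coeff_le (P : ℂ[X]) (i : ℕ) (R : ℝ) (hR : 0 < R) :
    ‖P.coeff i‖ ^ 2 * R ^ (2 * i) ≤
      ((i + 1) / (Real.pi * R ^ 2)) * ∫ z in Metric.closedBall (0 : ℂ) R, ‖P.eval z‖ ^ 2 := by
  have hcont : ∀ f : ℂ → ℂ, Continuous f → IntegrableOn f (Metric.closedBall (0 : ℂ) R) :=
    fun f hf => hf.continuousOn.integrableOn_compact (isCompact_closedBall 0 R)
  have hcont' : ∀ f : ℂ → ℝ, Continuous f → IntegrableOn f (Metric.closedBall (0 : ℂ) R) :=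
    fun f hf => hf.continuousOn.integrableOn_compact (isCompact_closedBall 0 R)
  set N : ℝ := Real.pi * R ^ (2 * i + 2) / (i + 1) with hN
  have hNN : ∫ z in Metric.closedBall (0 : ℂ) R, ‖z‖ ^ (2 * i) = N := mom_int R i hR
  -- the inner product with z^i
  have h1 : ∫ z in Metric.closedBall (0 : ℂ) R, P.eval z * conj (z ^ i) = P.coeff i * N := by
    have e1 : ∀ z : ℂ, P.eval z * conj (z ^ i) =
        ∑ k ∈ Finset.range (P.natDegree + 1), P.coeff k * (z ^ k * conj (z ^ i)) := by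
      intro z
      rw [eval_eq_sum_range, Finset.sum_mul]
      exact Finset.sum_congr rfl fun k _ => by ring
    simp_rw [e1]
    rw [integral_finsetSum _ (fun k _ => hcont _ (by fun_prop))]
    simp_rw [integral_const_mul]
    have e2 : ∫ z in Metric.closedBall (0 : ℂ) R, z ^ i * conj (z ^ i) = (N : ℂ) := by
      rw [← hNN, ← integral_complex_ofReal]
      congr 1
      ext z
      rw [Complex.mul_conj, Complex.normSq_eq_norm_sq]
      push_cast
      rw [norm_pow]
      push_cast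
      ring
    by_cases hi : i ∈ Finset.range (P.natDegree + 1)
    · rw [Finset.sum_eq_single_of_mem i hi, e2]
      intro k _ hk
      rw [mom_zero R k i hk, mul_zero]
    · rw [Finset.sum_eq_zero, coeff_eq_zero_of_natDegree_lt, zero_mul]
      · rw [Finset.mem_range] at hi
        omega
      · intro k hk
        rw [mom_zero R k i (fun h => hi (h ▸ hk)), mul_zero]
  have h2 : 0 ≤ ∫ z in Metric.closedBall (0 : ℂ) R, ‖P.eval z - P.coeff i * z ^ i‖ ^ 2 :=
    integral_nonneg fun z => by positivity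
  have h3 : ∫ z in Metric.closedBall (0 : ℂ) R, ‖P.eval z - P.coeff i * z ^ i‖ ^ 2 =
      (∫ z in Metric.closedBall (0 : ℂ) R, ‖P.eval z‖ ^ 2) - ‖P.coeff i‖ ^ 2 * N := by
    have e1 : ∀ z : ℂ, ‖P.eval z - P.coeff i * z ^ i‖ ^ 2 = ‖P.eval z‖ ^ 2 +
        ‖P.coeff i‖ ^ 2 * ‖z‖ ^ (2 * i) - 2 * (conj (P.coeff i) * (P.eval z * conj (z ^ i))).re := by
      intro z
      rw [← Complex.normSq_eq_norm_sq, Complex.normSq_sub, Complex.normSq_eq_norm_sq,
        Complex.normSq_eq_norm_sq]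
      congr 2
      · rw [norm_mul, norm_pow]
        ring
      · rw [map_mul]
        ring_nf
    simp_rw [e1]
    rw [integral_sub, integral_add, integral_const_mul, integral_const_mul, hNN]
    · have e3 : ∫ z in Metric.closedBall (0 : ℂ) R,
          (conj (P.coeff i) * (P.eval z * conj (z ^ i))).re = ‖P.coeff i‖ ^ 2 * N := by
        have := integral_re (μ := volume.restrict (Metric.closedBall (0 : ℂ) R))
          (f := fun z : ℂ => conj (P.coeff i) * (P.eval z * conj (z ^ i)))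
          (hcont _ (by fun_prop))
        simp only [RCLike.re_to_complex] at this
        rw [this, integral_const_mul, h1]
        rw [← mul_assoc, mul_comm (conj _), Complex.mul_conj, Complex.normSq_eq_norm_sq]
        rw [← Complex.ofReal_mul, Complex.ofReal_re]
      rw [e3]
      ring
    · exact hcont' _ (by fun_prop)
    · exact hcont' _ (by fun_prop)
    · exact hcont' _ (by fun_prop)
    · exact hcont' _ (by fun_prop)
  rw [h3] at h2
  have h4 : ‖P.coeff i‖ ^ 2 * N ≤ ∫ z in Metric.closedBall (0 : ℂ) R, ‖P.eval z‖ ^ 2 := by linarith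
  have hpos : 0 < ((i + 1) / (Real.pi * R ^ 2)) := by positivity
  calc ‖P.coeff i‖ ^ 2 * R ^ (2 * i) = ((i + 1) / (Real.pi * R ^ 2)) * (‖P.coeff i‖ ^ 2 * N) := by
        rw [hN]
        field_simp
        ring
    _ ≤ _ := mul_le_mul_of_nonneg_left h4 hpos.le


lemma prod_le_pow (z : ℂ) (B : ℝ) (hB : 0 ≤ B) (s : Multiset ℂ) (h : ∀ a ∈ s, ‖z - a‖ ≤ B) :
    ‖(s.map (z - ·)).prod‖ ≤ B ^ Multiset.card s := by
  induction s using Multiset.induction_on with
  | empty => simp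
  | cons a s ih =>
    rw [Multiset.map_cons, Multiset.prod_cons, norm_mul, Multiset.card_cons, pow_succ, mul_comm]
    exact mul_le_mul (ih fun b hb => h b (Multiset.mem_cons_of_mem hb))
      (h a (Multiset.mem_cons_self a s)) (norm_nonneg _) (by positivity)

lemma pow_le_prod (z : ℂ) (B : ℝ) (hB : 0 ≤ B) (s : Multiset ℂ) (h : ∀ a ∈ s, B ≤ ‖z - a‖) :
    B ^ Multiset.card s ≤ ‖(s.map (z - ·)).prod‖ := by
  induction s using Multiset.induction_on with
  | empty => simp
  | cons a s ih =>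
    rw [Multiset.map_cons, Multiset.prod_cons, norm_mul, Multiset.card_cons, pow_succ,
      mul_comm ‖z - a‖]
    exact mul_le_mul (ih fun b hb => h b (Multiset.mem_cons_of_mem hb))
      (h a (Multiset.mem_cons_self a s)) hB (norm_nonneg _)

lemma cpx_monic {f : ℤ[X]} (hf : f.Monic) : (cpx f).Monic := hf.map _

lemma cpx_natDegree {f : ℤ[X]} (hf : f.Monic) : (cpx f).natDegree = f.natDegree :=
  hf.natDegree_map _

lemma eval_cpx {f : ℤ[X]} (hf : f.Monic) (z : ℂ) :
    (cpx f).eval z = ((cpx f).roots.map (z - ·)).prod :=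
  (IsAlgClosed.splits (cpx f)).eval_eq_prod_roots_of_monic (cpx_monic hf) z

lemma card_roots_cpx {f : ℤ[X]} (hf : f.Monic) :
    Multiset.card (cpx f).roots = f.natDegree := by
  rw [← cpx_natDegree hf]
  exact ((IsAlgClosed.splits (cpx f)).natDegree_eq_card_roots).symm

lemma norm_eval_le {f : ℤ[X]} (hf : f.Monic) (R : ℝ) (hR : 0 < R)
    (hroots : ∀ α ∈ (cpx f).roots, ‖α‖ ≤ R) (z : ℂ) (hz : ‖z‖ ≤ R) :
    ‖(cpx f).eval z‖ ≤ (2 * R) ^ f.natDegree := by
  rw [eval_cpx hf, ← card_roots_cpx hf]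
  refine prod_le_pow z _ (by positivity) _ fun a ha => ?_
  calc ‖z - a‖ ≤ ‖z‖ + ‖a‖ := norm_sub_le _ _
    _ ≤ 2 * R := by linarith [hroots a ha]

lemma le_norm_eval {f : ℤ[X]} (hf : f.Monic) (R : ℝ) (hR : 0 < R)
    (hroots : ∀ α ∈ (cpx f).roots, ‖α‖ ≤ R) (z : ℂ) (hz : 2 * R ≤ ‖z‖) :
    (‖z‖ / 2) ^ f.natDegree ≤ ‖(cpx f).eval z‖ := by
  rw [eval_cpx hf, ← card_roots_cpx hf]
  refine pow_le_prod z _ (by positivity) _ fun a ha => ?_
  calc ‖z‖ / 2 ≤ ‖z‖ - ‖a‖ := by linarith [hroots a ha]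
    _ ≤ ‖z - a‖ := norm_sub_norm_le _ _

/-- The integral of the square over the disc of the roots. -/
lemma ball_int (m : ℕ) (hm : 2 ≤ m) (f : ℤ[X]) (hf : f.Monic) (R : ℝ) (hR : 0 < R)
    (hroots : ∀ α ∈ (cpx f).roots, ‖α‖ ≤ R) (j : ℕ) (P : ℂ[X])
    (hP : (m : ℂ) * ∫ z : ℂ, P.eval z * conj (P.eval z) * (wt m f j z : ℂ) = 1) :
    ∫ z in Metric.closedBall (0 : ℂ) R, ‖P.eval z‖ ^ 2 ≤
      (((2 * R) ^ f.natDegree) ^ (2 * (j : ℝ) / m)) / m := by
  have hm0 : (0 : ℝ) < m := by exact_mod_cast (by omega : 0 < m)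
  have e1 : ∀ z : ℂ, P.eval z * conj (P.eval z) * (wt m f j z : ℂ) =
      ((‖P.eval z‖ ^ 2 * wt m f j z : ℝ) : ℂ) := by
    intro z
    rw [Complex.mul_conj, Complex.normSq_eq_norm_sq]
    push_cast
    ring
  simp_rw [e1] at hP
  rw [integral_complex_ofReal] at hP
  have hP' : (m : ℝ) * ∫ z : ℂ, ‖P.eval z‖ ^ 2 * wt m f j z = 1 := by exact_mod_cast hP
  have hint : Integrable (fun z : ℂ => ‖P.eval z‖ ^ 2 * wt m f j z) := by
    by_contra h
    rw [integral_undef h] at hP'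
    simp at hP'
  have hwt : ∀ z, 0 ≤ wt m f j z := fun z => Real.rpow_nonneg (norm_nonneg _) _
  set c : ℝ := ((2 * R) ^ f.natDegree) ^ (2 * (j : ℝ) / m) with hc
  have hc0 : 0 < c := by positivity
  have hne : cpx f ≠ 0 := (cpx_monic hf).ne_zero
  have hae : ∀ᵐ z : ℂ, (cpx f).eval z ≠ 0 := by
    have hfin : {z : ℂ | ¬ (cpx f).eval z ≠ 0}.Finite := by
      refine ((cpx f).roots.toFinset.finite_toSet).subset fun z hz => ?_
      simp only [Finset.mem_coe, Multiset.mem_toFinset]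
      rw [mem_roots hne]
      simpa using hz
    exact hfin.measure_zero _
  calc ∫ z in Metric.closedBall (0 : ℂ) R, ‖P.eval z‖ ^ 2
      ≤ ∫ z in Metric.closedBall (0 : ℂ) R, c * (‖P.eval z‖ ^ 2 * wt m f j z) := by
        refine setIntegral_mono_on_ae ?_ ?_ measurableSet_closedBall ?_
        · exact (by fun_prop : Continuous fun z : ℂ => ‖P.eval z‖ ^ 2).continuousOn.integrableOn_compact
            (isCompact_closedBall 0 R)
        · exact (hint.const_mul c).integrableOn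
        · filter_upwards [hae] with z hz hzb
          have h1 : ‖(cpx f).eval z‖ ≤ (2 * R) ^ f.natDegree :=
            norm_eval_le hf R hR hroots z (by simpa using hzb)
          have h2 : c⁻¹ ≤ wt m f j z := by
            rw [hc, wt, ← Real.rpow_neg (by positivity)]
            exact Real.rpow_le_rpow_of_nonpos (norm_pos_iff.2 hz) h1 (by
              have : 0 ≤ 2 * (j : ℝ) / m := by positivity
              linarith)
          have h3 : 1 ≤ c * wt m f j z := by
            calc 1 = c * c⁻¹ := (mul_inv_cancel₀ hc0.ne').symm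
              _ ≤ _ := mul_le_mul_of_nonneg_left h2 hc0.le
          calc ‖P.eval z‖ ^ 2 = ‖P.eval z‖ ^ 2 * 1 := (mul_one _).symm
            _ ≤ ‖P.eval z‖ ^ 2 * (c * wt m f j z) := mul_le_mul_of_nonneg_left h3 (by positivity)
            _ = _ := by ring
    _ ≤ ∫ z : ℂ, c * (‖P.eval z‖ ^ 2 * wt m f j z) := by
        refine setIntegral_le_integral (hint.const_mul c) (Filter.Eventually.of_forall fun z => ?_)
        have := hwt z
        simp only [Pi.zero_apply]
        positivity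
    _ = c / m := by
        rw [integral_const_mul]
        field_simp
        linarith

lemma eval_sq_le (P : ℂ[X]) (d : ℕ) (hd : P.degree < d) (R : ℝ) (hR : 0 < R) (B : ℝ)
    (hB : ∫ z in Metric.closedBall (0 : ℂ) R, ‖P.eval z‖ ^ 2 ≤ B) (z : ℂ) (hz : R ≤ ‖z‖) :
    ‖P.eval z‖ ^ 2 ≤ (d : ℝ) ^ 3 * B / (Real.pi * R ^ 2) * (‖z‖ / R) ^ (2 * (d - 1)) := by
  have hB0 : 0 ≤ B := (integral_nonneg fun z => by positivity).trans hB
  have ht : 1 ≤ ‖z‖ / R := by rwa [le_div_iff₀ hR, one_mul]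
  have e1 : P.eval z = ∑ i ∈ Finset.range d, P.coeff i * z ^ i := by
    by_cases hP : P = 0
    · simp [hP]
    · exact eval_eq_sum_range' ((natDegree_lt_iff_degree_lt hP).2 hd) z
  have e2 : ‖P.eval z‖ ≤ ∑ i ∈ Finset.range d, ‖P.coeff i‖ * ‖z‖ ^ i := by
    rw [e1]
    refine (norm_sum_le _ _).trans (Finset.sum_le_sum fun i _ => ?_)
    rw [norm_mul, norm_pow]
  have e3 : ∀ i ∈ Finset.range d, (‖P.coeff i‖ * ‖z‖ ^ i) ^ 2 ≤
      (d / (Real.pi * R ^ 2) * B) * (‖z‖ / R) ^ (2 * (d - 1)) := by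
    intro i hi
    rw [Finset.mem_range] at hi
    have h1 := coeff_le P i R hR
    have h2 : ‖P.coeff i‖ ^ 2 * R ^ (2 * i) ≤ d / (Real.pi * R ^ 2) * B := by
      refine h1.trans ?_
      refine mul_le_mul ?_ hB (integral_nonneg fun z => by positivity) (by positivity)
      refine div_le_div_of_nonneg_right ?_ (by positivity)
      exact_mod_cast hi
    have h3 : (‖z‖ / R) ^ (2 * i) ≤ (‖z‖ / R) ^ (2 * (d - 1)) :=
      pow_le_pow_right₀ ht (by omega)
    calc (‖P.coeff i‖ * ‖z‖ ^ i) ^ 2 = (‖P.coeff i‖ ^ 2 * R ^ (2 * i)) * (‖z‖ / R) ^ (2 * i) := by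
          rw [div_pow]
          field_simp
          ring
      _ ≤ _ := mul_le_mul h2 h3 (by positivity) (by positivity)
  calc ‖P.eval z‖ ^ 2 ≤ (∑ i ∈ Finset.range d, ‖P.coeff i‖ * ‖z‖ ^ i) ^ 2 :=
        pow_le_pow_left₀ (norm_nonneg _) e2 2
    _ ≤ (Finset.range d).card * ∑ i ∈ Finset.range d, (‖P.coeff i‖ * ‖z‖ ^ i) ^ 2 :=
        sq_sum_le_card_mul_sum_sq
    _ ≤ d * ∑ i ∈ Finset.range d, (d / (Real.pi * R ^ 2) * B) * (‖z‖ / R) ^ (2 * (d - 1)) := by
        rw [Finset.card_range]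
        exact mul_le_mul_of_nonneg_left (Finset.sum_le_sum e3) (Nat.cast_nonneg d)
    _ = _ := by
        rw [Finset.sum_const, Finset.card_range, nsmul_eq_mul]
        ring

lemma term_le (m : ℕ) (hm : 2 ≤ m) (f : ℤ[X]) (hf : f.Monic)
    (hmn : m.Coprime f.natDegree) (j : ℕ) (hj1 : 1 ≤ j) (hjm : j < m) (P : ℂ[X])
    (hd : P.degree < (f.natDegree * j / m : ℕ))
    (hP : (m : ℂ) * ∫ z : ℂ, P.eval z * conj (P.eval z) * (wt m f j z : ℂ) = 1)
    (hd0 : 1 ≤ f.natDegree * j / m)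
    (R : ℝ) (hR : 0 < R)
    (hroots : ∀ α ∈ (cpx f).roots, ‖α‖ ≤ R) (z : ℂ) (hz : 2 * R ≤ ‖z‖) :
    ‖P.eval z‖ ^ 2 * wt m f j z ≤ ((f.natDegree * j / m : ℕ) : ℝ) ^ 3 * 16 ^ f.natDegree /
      (Real.pi * R ^ 2 * m) * (‖z‖ / R) ^ (-(2 + 2 / (m : ℝ))) := by
  set n := f.natDegree with hn
  set d := n * j / m with hdd
  have hm0 : (0 : ℝ) < m := by exact_mod_cast (by omega : 0 < m)
  have h1 := ball_int m hm f hf R hR hroots j P hP
  have h2 := eval_sq_le P d hd R hR _ h1 z (by linarith)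
  have hz0 : 0 < ‖z‖ := by linarith
  have h3 : wt m f j z ≤ ((‖z‖ / 2) ^ n) ^ (-(2 * (j : ℝ) / m)) := by
    rw [wt]
    exact Real.rpow_le_rpow_of_nonpos (by positivity) (le_norm_eval hf R hR hroots z hz) (by
      have : 0 ≤ 2 * (j : ℝ) / m := by positivity
      linarith)
  set s : ℝ := 2 * (j : ℝ) / m with hs
  have hs0 : 0 ≤ s := by positivity
  set t : ℝ := ‖z‖ / R with ht
  have ht2 : 2 ≤ t := by rw [ht, le_div_iff₀ hR]; exact hz
  have ht0 : 0 < t := by linarith
  have hzt : ‖z‖ = t * R := by rw [ht]; field_simp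
  have h4 : ((2 * R) ^ n) ^ s * ((‖z‖ / 2) ^ n) ^ (-s) = (4 : ℝ) ^ (n * s) * t ^ (-(n * s)) := by
    rw [hzt, Real.rpow_neg (by positivity), ← div_eq_mul_inv, ← Real.div_rpow (by positivity)
      (by positivity), ← div_pow]
    have : 2 * R / (t * R / 2) = 4 / t := by
      field_simp
      norm_num
    rw [this, ← Real.rpow_natCast, ← Real.rpow_mul (by positivity), Real.div_rpow (by norm_num)
      ht0.le, Real.rpow_neg ht0.le]
    rfl
  have h5 : (4 : ℝ) ^ (n * s) ≤ 16 ^ n := by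
    have : (16 : ℝ) ^ n = (4 : ℝ) ^ ((2 * n : ℕ) : ℝ) := by
      rw [Real.rpow_natCast, pow_mul]
      norm_num
    rw [this]
    refine Real.rpow_le_rpow_of_exponent_le (by norm_num) ?_
    push_cast
    have hs2 : s ≤ 2 := by
      rw [hs, div_le_iff₀ hm0]
      have : (j : ℝ) ≤ m := by exact_mod_cast hjm.le
      linarith
    calc (n : ℝ) * s ≤ n * 2 := mul_le_mul_of_nonneg_left hs2 (Nat.cast_nonneg n)
      _ = 2 * n := by ring
  -- the exponent
  have hdiv : m * d + 1 ≤ n * j := by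
    have h6 : m * d ≤ n * j := Nat.mul_div_le _ _
    have h7 : m * d ≠ n * j := by
      intro h
      have h8 : m ∣ n * j := ⟨d, h.symm⟩
      have h9 : m ∣ j := hmn.dvd_of_dvd_mul_left h8
      exact absurd (Nat.le_of_dvd (by omega) h9) (by omega)
    omega
  have hdiv' : (m : ℝ) * d + 1 ≤ n * j := by exact_mod_cast hdiv
  have h6 : t ^ (2 * (d - 1)) * t ^ (-(n * s)) ≤ t ^ (-(2 + 2 / (m : ℝ))) := by
    rw [← Real.rpow_natCast, ← Real.rpow_add ht0]
    refine Real.rpow_le_rpow_of_exponent_le (by linarith) ?_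
    have : ((2 * (d - 1) : ℕ) : ℝ) = 2 * (d : ℝ) - 2 := by
      rw [Nat.cast_mul, Nat.cast_sub hd0]
      push_cast
      ring
    rw [this, hs]
    have h7 : 2 * (d : ℝ) - n * (2 * j / m) ≤ - (2 / m) := by
      have : 2 * (d : ℝ) - n * (2 * j / m) = 2 * ((m * d : ℝ) - n * j) / m := by
        field_simp
      rw [this, ← neg_div, div_le_div_iff_of_pos_right hm0]
      linarith
    linarith
  have hwt0 : 0 ≤ wt m f j z := Real.rpow_nonneg (norm_nonneg _) _
  calc ‖P.eval z‖ ^ 2 * wt m f j z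
      ≤ ((d : ℝ) ^ 3 * (((2 * R) ^ n) ^ s / m) / (Real.pi * R ^ 2) * t ^ (2 * (d - 1))) *
          ((‖z‖ / 2) ^ n) ^ (-s) := mul_le_mul h2 h3 hwt0 (by positivity)
    _ = (d : ℝ) ^ 3 / (Real.pi * R ^ 2 * m) * (((2 * R) ^ n) ^ s * ((‖z‖ / 2) ^ n) ^ (-s)) *
          t ^ (2 * (d - 1)) := by
        field_simp
    _ = (d : ℝ) ^ 3 / (Real.pi * R ^ 2 * m) * (4 : ℝ) ^ (n * s) *
          (t ^ (2 * (d - 1)) * t ^ (-(n * s))) := by
        rw [h4]
        ring
    _ ≤ (d : ℝ) ^ 3 / (Real.pi * R ^ 2 * m) * 16 ^ n * t ^ (-(2 + 2 / (m : ℝ))) := by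
        refine mul_le_mul (mul_le_mul_of_nonneg_left h5 (by positivity)) h6 (by positivity)
          (by positivity)
    _ = _ := by ring

theorem rho_tail (m : ℕ) (hm : 2 ≤ m) (f : ℤ[X]) (hf : f.Monic) (hn : 1 ≤ f.natDegree)
    (hmn : m.Coprime f.natDegree)
    (e : (j : ℕ) → Fin (f.natDegree * j / m) → ℂ[X]) (he : IsONB m f e) (R : ℝ) (hR : 0 < R)
    (hroots : ∀ α ∈ (cpx f).roots, ‖α‖ ≤ R) (z : ℂ) (hz : 2 * R ≤ ‖z‖) :
    rho m f e z ≤ (m * (f.natDegree : ℝ) ^ 4 * 16 ^ f.natDegree /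
      (genus m f.natDegree * Real.pi * R ^ 2)) * (‖z‖ / R) ^ (-(2 + 2 / (m : ℝ))) := by
  have hm0 : (0 : ℝ) < m := by exact_mod_cast (by omega : 0 < m)
  set X : ℝ := (‖z‖ / R) ^ (-(2 + 2 / (m : ℝ))) with hX
  have hX0 : 0 ≤ X := Real.rpow_nonneg (by positivity) _
  have h1 : ∀ j ∈ Finset.Ico 1 m, ∑ k, ‖(e j k).eval z‖ ^ 2 * wt m f j z ≤
      (f.natDegree : ℝ) ^ 4 * 16 ^ f.natDegree / (Real.pi * R ^ 2 * m) * X := by
    intro j hj
    obtain ⟨hj1, hj2⟩ := Finset.mem_Ico.1 hj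
    obtain ⟨he1, he2⟩ := he j hj
    have hdn : f.natDegree * j / m ≤ f.natDegree := by
      refine Nat.div_le_of_le_mul ?_
      rw [mul_comm m f.natDegree]
      exact Nat.mul_le_mul_left f.natDegree hj2.le
    calc ∑ k, ‖(e j k).eval z‖ ^ 2 * wt m f j z
        ≤ ∑ _k : Fin (f.natDegree * j / m), ((f.natDegree * j / m : ℕ) : ℝ) ^ 3 * 16 ^ f.natDegree /
            (Real.pi * R ^ 2 * m) * X := by
          refine Finset.sum_le_sum fun k _ => ?_
          refine term_le m hm f hf hmn j hj1 hj2 (e j k) (he1 k) ?_ ?_ R hR hroots z hz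
          · have := he2 k k
            rwa [if_pos rfl] at this
          · exact Nat.one_le_iff_ne_zero.2 (Nat.pos_iff_ne_zero.1 (Fin.pos k))
      _ = ((f.natDegree * j / m : ℕ) : ℝ) ^ 4 * 16 ^ f.natDegree / (Real.pi * R ^ 2 * m) * X := by
          rw [Finset.sum_const, Finset.card_univ, Fintype.card_fin, nsmul_eq_mul]
          ring
      _ ≤ _ := by
          refine mul_le_mul_of_nonneg_right ?_ hX0
          refine div_le_div_of_nonneg_right ?_ (by positivity)
          refine mul_le_mul_of_nonneg_right ?_ (by positivity)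
          exact pow_le_pow_left₀ (Nat.cast_nonneg _) (by exact_mod_cast hdn) 4
  have h2 : ∑ j ∈ Finset.Ico 1 m, ∑ k, ‖(e j k).eval z‖ ^ 2 * wt m f j z ≤
      (f.natDegree : ℝ) ^ 4 * 16 ^ f.natDegree / (Real.pi * R ^ 2) * X := by
    refine (Finset.sum_le_sum h1).trans ?_
    rw [Finset.sum_const, Nat.card_Ico, nsmul_eq_mul]
    calc ((m - 1 : ℕ) : ℝ) * ((f.natDegree : ℝ) ^ 4 * 16 ^ f.natDegree / (Real.pi * R ^ 2 * m) * X)
        ≤ m * ((f.natDegree : ℝ) ^ 4 * 16 ^ f.natDegree / (Real.pi * R ^ 2 * m) * X) := by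
          refine mul_le_mul_of_nonneg_right ?_ (by positivity)
          exact_mod_cast Nat.sub_le m 1
      _ = _ := by field_simp
  rw [rho]
  calc ((m : ℝ) / genus m f.natDegree) * ∑ j ∈ Finset.Ico 1 m, ∑ k, ‖(e j k).eval z‖ ^ 2 * wt m f j z
      ≤ ((m : ℝ) / genus m f.natDegree) * ((f.natDegree : ℝ) ^ 4 * 16 ^ f.natDegree / (Real.pi * R ^ 2) * X) :=
        mul_le_mul_of_nonneg_left h2 (by positivity)
    _ = _ := by
        rw [← mul_assoc, div_mul_div_comm]
        congr 2 <;> ring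

end SzSP
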