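import Pool.Agent.SzSP.Defs
import Pool.Agent.SzSP.Disc

/-!
Integrability of the weights and existence of orthonormal bases.
-/

open Polynomial MeasureTheory

namespace SzSP

theorem onb_roots (f : ℤ[X]) (hf : f.Monic) (hd : f.discr ≠ 0) :
    ∃ S : Finset ℂ, S.card = f.natDegree ∧ ∀ z, (cpx f).eval z = ∏ α ∈ S, (z - α) := by
  classical
  have hm : (cpx f).Monic := hf.map _
  have hdc : (cpx f).discr ≠ 0 := by
    unfold cpx
    rw [discr_map _ hf]
    simpa using hd
  have hs : (cpx f).Separable := (discr_ne_zero_iff hm).1 hdc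
  have hsp : (cpx f).Splits := IsAlgClosed.splits _
  have hnd : (cpx f).roots.Nodup := nodup_roots hs
  refine ⟨(cpx f).roots.toFinset, ?_, fun z => ?_⟩
  · rw [Multiset.toFinset_card_of_nodup hnd]
    have h1 := hsp.natDegree_eq_card_roots
    rw [← h1]
    exact hf.natDegree_map _
  · have h1 := hsp.eq_prod_roots_of_monic hm
    conv_lhs => rw [h1]
    rw [eval_multiset_prod, Multiset.map_map]
    rw [Finset.prod_eq_multiset_prod, Multiset.toFinset_val, hnd.dedup]
    congr 1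
    refine Multiset.map_congr rfl fun α _ => ?_
    simp

theorem onb_delta (S : Finset ℂ) : ∃ δ : ℝ, 0 < δ ∧ ∀ α ∈ S, ∀ β ∈ S, α ≠ β → δ ≤ ‖α - β‖ := by
  classical
  rcases S.offDiag.eq_empty_or_nonempty with h | h
  · refine ⟨1, one_pos, fun α hα β hβ hne => ?_⟩
    have : (α, β) ∈ S.offDiag := Finset.mem_offDiag.2 ⟨hα, hβ, hne⟩
    rw [h] at this
    exact absurd this (Finset.notMem_empty _)
  · obtain ⟨x, hx, hmin⟩ := Finset.exists_min_image S.offDiag (fun y => ‖y.1 - y.2‖) h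
    obtain ⟨-, -, hne⟩ := Finset.mem_offDiag.1 hx
    refine ⟨‖x.1 - x.2‖, norm_pos_iff.2 (sub_ne_zero.2 hne), fun α hα β hβ hab => ?_⟩
    exact hmin (α, β) (Finset.mem_offDiag.2 ⟨hα, hβ, hab⟩)

theorem onb_near (S : Finset ℂ) (hS : S.Nonempty) (s : ℝ) (hs : 0 < s) :
    ∃ C : ℝ, 0 ≤ C ∧ ∀ z : ℂ, (∏ α ∈ S, ‖z - α‖) ^ (-s) ≤ C * ∑ α ∈ S, ‖z - α‖ ^ (-s) := by
  classical
  obtain ⟨δ, hδ, hδS⟩ := onb_delta S
  refine ⟨((δ / 2) ^ (S.card - 1)) ^ (-s), by positivity, fun z => ?_⟩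
  obtain ⟨α, hα, hmin⟩ := Finset.exists_min_image S (fun β => ‖z - β‖) hS
  have hnn : ∀ β ∈ S, 0 ≤ ‖z - β‖ ^ (-s) := fun β _ => by positivity
  rcases eq_or_ne (‖z - α‖) 0 with h0 | h0
  · have h1 : ∏ α ∈ S, ‖z - α‖ = 0 := Finset.prod_eq_zero hα h0
    rw [h1, Real.zero_rpow (by linarith)]
    exact mul_nonneg (by positivity) (Finset.sum_nonneg hnn)
  · have hpos : 0 < ‖z - α‖ := lt_of_le_of_ne (norm_nonneg _) (Ne.symm h0)
    have h1 : ‖z - α‖ * (δ / 2) ^ (S.card - 1) ≤ ∏ β ∈ S, ‖z - β‖ := by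
      rw [← Finset.mul_prod_erase S _ hα]
      refine mul_le_mul_of_nonneg_left ?_ hpos.le
      rw [← Finset.card_erase_of_mem hα, ← Finset.prod_const]
      refine Finset.prod_le_prod (fun _ _ => by positivity) fun β hβ => ?_
      obtain ⟨hne, hβS⟩ := Finset.mem_erase.1 hβ
      have h2 := hδS β hβS α hα hne
      have h3 : ‖β - α‖ ≤ ‖z - β‖ + ‖z - α‖ := by
        have : β - α = (z - α) - (z - β) := by ring
        rw [this]
        have := norm_sub_le (z - α) (z - β)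
        linarith
      have h4 := hmin β hβS
      linarith
    have h2 : (∏ β ∈ S, ‖z - β‖) ^ (-s) ≤ (‖z - α‖ * (δ / 2) ^ (S.card - 1)) ^ (-s) :=
      Real.rpow_le_rpow_of_nonpos (by positivity) h1 (by linarith)
    rw [Real.mul_rpow hpos.le (by positivity)] at h2
    refine h2.trans ?_
    rw [mul_comm]
    exact mul_le_mul_of_nonneg_left (Finset.single_le_sum hnn hα) (by positivity)

theorem onb_loc (s R : ℝ) (hs : s < 2) (α : ℂ) :
    Integrable (fun z : ℂ => if ‖z - α‖ ≤ R then ‖z - α‖ ^ (-s) else 0) := by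
  have h1 : Integrable (fun z : ℂ => (fun r : ℝ => if r ≤ R then r ^ (-s) else 0) ‖z‖) := by
    refine (integrable_fun_norm_addHaar volume (f := fun r : ℝ => if r ≤ R then r ^ (-s) else 0)).2 ?_
    rw [Complex.finrank_real_complex]
    have h2 : ∀ y ∈ Set.Ioi (0 : ℝ), y ^ (2 - 1) • (if y ≤ R then y ^ (-s) else 0) =
        (Set.Iic R).indicator (fun y : ℝ => y ^ (1 - s)) y := by
      intro y hy
      have hy' : 0 < y := hy
      by_cases h : y ≤ R
      · rw [if_pos h, Set.indicator_of_mem (show y ∈ Set.Iic R from h), smul_eq_mul]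
        have : (1 : ℝ) - s = 1 + -s := by ring
        rw [this, Real.rpow_add hy', Real.rpow_one]
        norm_num
      · rw [if_neg h, Set.indicator_of_notMem (show y ∉ Set.Iic R from h), smul_zero]
    refine (integrableOn_congr_fun h2 measurableSet_Ioi).2 ?_
    rw [integrableOn_indicator_iff measurableSet_Iic]
    have h3 : Set.Iic R ∩ Set.Ioi (0 : ℝ) = Set.Ioc 0 R := by
      ext y
      simp only [Set.mem_inter_iff, Set.mem_Iic, Set.mem_Ioi, Set.mem_Ioc]
      tauto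
    rw [h3]
    rcases le_total 0 R with hR | hR
    · exact (intervalIntegral.intervalIntegrable_rpow' (by linarith)).1
    · rw [Set.Ioc_eq_empty (by linarith)]
      exact integrableOn_empty
  exact h1.comp_sub_right α

theorem onb_far (R : ℝ) (hR : 1 ≤ R) (S : Finset ℂ) (hRS : ∀ α ∈ S, 2 * ‖α‖ ≤ R) (s : ℝ) (hs : 0 < s)
    (i : ℕ) (z : ℂ) (hz : R ≤ ‖z‖) (hr : 2 < S.card * s - 2 * i) :
    ‖z‖ ^ (2 * i) * (∏ α ∈ S, ‖z - α‖) ^ (-s) ≤
      (2 : ℝ) ^ (S.card * s) * 2 ^ (S.card * s - 2 * i) * (1 + ‖z‖) ^ (-(S.card * s - 2 * i)) := by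
  have hz1 : 1 ≤ ‖z‖ := hR.trans hz
  have hz0 : 0 < ‖z‖ := by linarith
  have h1 : (‖z‖ / 2) ^ S.card ≤ ∏ α ∈ S, ‖z - α‖ := by
    rw [← Finset.prod_const]
    refine Finset.prod_le_prod (fun _ _ => by positivity) fun α hα => ?_
    have h2 := hRS α hα
    have h3 : ‖z‖ ≤ ‖z - α‖ + ‖α‖ := by
      have := norm_add_le (z - α) α
      rwa [sub_add_cancel] at this
    linarith
  have h2 : (∏ α ∈ S, ‖z - α‖) ^ (-s) ≤ ((‖z‖ / 2) ^ S.card) ^ (-s) :=
    Real.rpow_le_rpow_of_nonpos (by positivity) h1 (by linarith)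
  have h3 : ((‖z‖ / 2) ^ S.card) ^ (-s) = 2 ^ (S.card * s) * ‖z‖ ^ (-(S.card * s)) := by
    rw [← Real.rpow_natCast, ← Real.rpow_mul (by positivity), Real.div_rpow hz0.le (by norm_num),
      mul_neg, Real.rpow_neg (show (0 : ℝ) ≤ 2 by norm_num), div_inv_eq_mul, mul_comm]
  have h4 : ‖z‖ ^ (2 * i) * ‖z‖ ^ (-(S.card * s)) = ‖z‖ ^ (-(S.card * s - 2 * i)) := by
    rw [← Real.rpow_natCast, ← Real.rpow_add hz0]
    congr 1
    push_cast
    ring
  have h5 : ‖z‖ ^ (-(S.card * s - 2 * i)) ≤ 2 ^ (S.card * s - 2 * i) * (1 + ‖z‖) ^ (-(S.card * s - 2 * i)) := by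
    have h6 : ‖z‖ ^ (-(S.card * s - 2 * i)) ≤ ((1 + ‖z‖) / 2) ^ (-(S.card * s - 2 * i)) :=
      Real.rpow_le_rpow_of_nonpos (by positivity) (by linarith) (by linarith)
    refine h6.trans (le_of_eq ?_)
    rw [Real.div_rpow (by positivity) (by norm_num), Real.rpow_neg (show (0 : ℝ) ≤ 2 by norm_num),
      div_inv_eq_mul, mul_comm]
  calc ‖z‖ ^ (2 * i) * (∏ α ∈ S, ‖z - α‖) ^ (-s)
      ≤ ‖z‖ ^ (2 * i) * (2 ^ (S.card * s) * ‖z‖ ^ (-(S.card * s))) := by
        rw [← h3]
        exact mul_le_mul_of_nonneg_left h2 (by positivity)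
    _ = 2 ^ (S.card * s) * (‖z‖ ^ (2 * i) * ‖z‖ ^ (-(S.card * s))) := by ring
    _ = 2 ^ (S.card * s) * ‖z‖ ^ (-(S.card * s - 2 * i)) := by rw [h4]
    _ ≤ 2 ^ (S.card * s) * (2 ^ (S.card * s - 2 * i) * (1 + ‖z‖) ^ (-(S.card * s - 2 * i))) :=
        mul_le_mul_of_nonneg_left h5 (by positivity)
    _ = _ := by ring

theorem onb_int (S : Finset ℂ) (hS : S.Nonempty) (s : ℝ) (hs : 0 < s) (hs2 : s < 2) (i : ℕ)
    (hr : 2 < S.card * s - 2 * i) :
    Integrable (fun z : ℂ => ‖z‖ ^ (2 * i) * (∏ α ∈ S, ‖z - α‖) ^ (-s)) := by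
  obtain ⟨C, hC0, hC⟩ := onb_near S hS s hs
  obtain ⟨R, hR1, hRS⟩ : ∃ R : ℝ, 1 ≤ R ∧ ∀ α ∈ S, 2 * ‖α‖ ≤ R := by
    refine ⟨1 + ∑ α ∈ S, 2 * ‖α‖, ?_, fun α hα => ?_⟩
    · have : 0 ≤ ∑ α ∈ S, 2 * ‖α‖ := Finset.sum_nonneg fun _ _ => by positivity
      linarith
    · have := Finset.single_le_sum (f := fun α : ℂ => 2 * ‖α‖) (fun _ _ => by positivity) hα
      linarith
  have hG : Integrable (fun z : ℂ => R ^ (2 * i) * C * (∑ α ∈ S, if ‖z - α‖ ≤ 2 * R then ‖z - α‖ ^ (-s) else 0) +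
      (2 : ℝ) ^ (S.card * s) * 2 ^ (S.card * s - 2 * i) * (1 + ‖z‖) ^ (-(S.card * s - 2 * i))) := by
    refine Integrable.add ?_ ?_
    · exact (integrable_finsetSum _ fun α _ => onb_loc s (2 * R) hs2 α).const_mul _
    · refine (integrable_one_add_norm ?_).const_mul _
      rw [Complex.finrank_real_complex]
      exact_mod_cast hr
  have hmeas : Measurable (fun z : ℂ => ‖z‖ ^ (2 * i) * (∏ α ∈ S, ‖z - α‖) ^ (-s)) := by
    have h1 : Measurable fun z : ℂ => ∏ α ∈ S, ‖z - α‖ :=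
      (continuous_finsetProd _ fun α _ => (continuous_id.sub continuous_const).norm).measurable
    exact (measurable_norm.pow_const _).mul (h1.pow_const _)
  refine hG.mono' hmeas.aestronglyMeasurable (Filter.Eventually.of_forall fun z => ?_)
  have hnn : 0 ≤ ‖z‖ ^ (2 * i) * (∏ α ∈ S, ‖z - α‖) ^ (-s) :=
    mul_nonneg (by positivity) (Real.rpow_nonneg (Finset.prod_nonneg fun _ _ => norm_nonneg _) _)
  rw [Real.norm_of_nonneg hnn]
  have hp1 : 0 ≤ R ^ (2 * i) * C * (∑ α ∈ S, if ‖z - α‖ ≤ 2 * R then ‖z - α‖ ^ (-s) else 0) := by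
    refine mul_nonneg (by positivity) (Finset.sum_nonneg fun α _ => ?_)
    split_ifs
    · positivity
    · exact le_rfl
  have hp2 : 0 ≤ (2 : ℝ) ^ (S.card * s) * 2 ^ (S.card * s - 2 * i) * (1 + ‖z‖) ^ (-(S.card * s - 2 * i)) := by
    positivity
  rcases le_total ‖z‖ R with hz | hz
  · have h1 : (∏ α ∈ S, ‖z - α‖) ^ (-s) ≤ C * ∑ α ∈ S, if ‖z - α‖ ≤ 2 * R then ‖z - α‖ ^ (-s) else 0 := by
      refine (hC z).trans (le_of_eq ?_)
      congr 1
      refine Finset.sum_congr rfl fun α hα => ?_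
      rw [if_pos]
      have := norm_sub_le z α
      have := hRS α hα
      have := norm_nonneg α
      linarith
    have h2 : ‖z‖ ^ (2 * i) ≤ R ^ (2 * i) := pow_le_pow_left₀ (norm_nonneg _) hz _
    have h3 : ‖z‖ ^ (2 * i) * (∏ α ∈ S, ‖z - α‖) ^ (-s) ≤
        R ^ (2 * i) * (C * ∑ α ∈ S, if ‖z - α‖ ≤ 2 * R then ‖z - α‖ ^ (-s) else 0) :=
      mul_le_mul h2 h1 (Real.rpow_nonneg (Finset.prod_nonneg fun _ _ => norm_nonneg _) _) (by positivity)
    rw [← mul_assoc] at h3
    linarith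
  · have h1 := onb_far R hR1 S hRS s hs i z hz hr
    linarith

/-- partial fractions: integrability of `|z|^(2i) |f(z)|^(-2j/m)` for `i < n j / m` -/
theorem integrable_wt (m : ℕ) (hm : 2 ≤ m) (f : ℤ[X]) (hf : f.Monic) (hd : f.discr ≠ 0)
    (hmn : m.Coprime f.natDegree) (j : ℕ) (hj : j ∈ Finset.Ico 1 m) (i : ℕ)
    (hi : i < f.natDegree * j / m) :
    Integrable (fun z : ℂ => ‖z‖ ^ (2 * i) * wt m f j z) := by
  obtain ⟨S, hS, hev⟩ := onb_roots f hf hd
  rw [Finset.mem_Ico] at hj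
  have hn0 : f.natDegree ≠ 0 := by
    intro h0
    rw [h0, zero_mul, Nat.zero_div] at hi
    omega
  have hSn : S.Nonempty := by
    rw [← Finset.card_pos, hS]
    omega
  have hmr : (0 : ℝ) < m := by exact_mod_cast (by omega : 0 < m)
  have hjr : (1 : ℝ) ≤ j := by exact_mod_cast hj.1
  have hs : 0 < 2 * (j : ℝ) / m := by positivity
  have hs2 : 2 * (j : ℝ) / m < 2 := by
    rw [div_lt_iff₀ hmr]
    have : (j : ℝ) < m := by exact_mod_cast hj.2
    linarith
  have hr : (2 : ℝ) < S.card * (2 * (j : ℝ) / m) - 2 * i := by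
    have h1 : (i + 1) * m ≤ f.natDegree * j := (Nat.le_div_iff_mul_le (by omega)).1 hi
    have h2 : (i + 1) * m ≠ f.natDegree * j := by
      intro h
      have h3 : m ∣ f.natDegree * j := ⟨i + 1, by rw [← h]; ring⟩
      have h4 : m ∣ j := hmn.dvd_of_dvd_mul_left h3
      have := Nat.le_of_dvd (by omega) h4
      omega
    have h3 : (i + 1) * m < f.natDegree * j := lt_of_le_of_ne h1 h2
    have h4 : ((i : ℝ) + 1) * m < f.natDegree * j := by exact_mod_cast h3
    rw [hS]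
    have h5 : (f.natDegree : ℝ) * (2 * (j : ℝ) / m) = 2 * ((f.natDegree * j) / m) := by ring
    rw [h5]
    have h6 : (i : ℝ) + 1 < (f.natDegree * j) / m := by
      rw [lt_div_iff₀ hmr]
      exact h4
    linarith
  have h := onb_int S hSn _ hs hs2 i hr
  refine h.congr (Filter.Eventually.of_forall fun z => ?_)
  simp only [wt]
  rw [hev z, norm_prod]

theorem onb_gram {d : ℕ} (H : Matrix (Fin d) (Fin d) ℂ) (hH : H.IsHermitian)
    (hpos : ∀ i, 0 < hH.eigenvalues i) :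
    ∃ C : Fin d → Fin d → ℂ, ∀ k l, ∑ b, ∑ a, (starRingEnd ℂ) (C l b) * H b a * C k a = if k = l then 1 else 0 := by
  refine ⟨fun k a => ((Real.sqrt (hH.eigenvalues k))⁻¹ : ℝ) * hH.eigenvectorBasis k a, fun k l => ?_⟩
  have h1 : ∀ b, ∑ a, H b a * hH.eigenvectorBasis k a = (hH.eigenvalues k : ℂ) * hH.eigenvectorBasis k b := by
    intro b
    have h2 := congrFun (hH.mulVec_eigenvectorBasis k) b
    simpa [Matrix.mulVec, dotProduct] using h2
  have h3 : ∑ b, hH.eigenvectorBasis k b * (starRingEnd ℂ) (hH.eigenvectorBasis l b) = if l = k then 1 else 0 := by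
    have h4 := orthonormal_iff_ite.1 hH.eigenvectorBasis.orthonormal l k
    rw [← h4, PiLp.inner_apply]
    simp only [RCLike.inner_apply]
  have hk := hpos k
  have hl := hpos l
  have h5 : ∑ b, ∑ a, (starRingEnd ℂ) (((Real.sqrt (hH.eigenvalues l))⁻¹ : ℝ) * hH.eigenvectorBasis l b) * H b a *
      (((Real.sqrt (hH.eigenvalues k))⁻¹ : ℝ) * hH.eigenvectorBasis k a) =
      (((Real.sqrt (hH.eigenvalues l))⁻¹ : ℝ) : ℂ) * (((Real.sqrt (hH.eigenvalues k))⁻¹ : ℝ) : ℂ) * (hH.eigenvalues k : ℂ) *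
        ∑ b, hH.eigenvectorBasis k b * (starRingEnd ℂ) (hH.eigenvectorBasis l b) := by
    rw [Finset.mul_sum]
    refine Finset.sum_congr rfl fun b _ => ?_
    have h6 : ∑ a, (starRingEnd ℂ) (((Real.sqrt (hH.eigenvalues l))⁻¹ : ℝ) * hH.eigenvectorBasis l b) * H b a *
        (((Real.sqrt (hH.eigenvalues k))⁻¹ : ℝ) * hH.eigenvectorBasis k a) =
        (starRingEnd ℂ) (((Real.sqrt (hH.eigenvalues l))⁻¹ : ℝ) * hH.eigenvectorBasis l b) *
        (((Real.sqrt (hH.eigenvalues k))⁻¹ : ℝ) : ℂ) * ∑ a, H b a * hH.eigenvectorBasis k a := by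
      rw [Finset.mul_sum]
      exact Finset.sum_congr rfl fun a _ => by ring
    rw [h6, h1 b, map_mul, Complex.conj_ofReal]
    ring
  simp only at h5 ⊢
  rw [h5, h3]
  by_cases hkl : k = l
  · subst hkl
    rw [if_pos rfl, mul_one]
    have h7 : (Real.sqrt (hH.eigenvalues k))⁻¹ * (Real.sqrt (hH.eigenvalues k))⁻¹ * hH.eigenvalues k = 1 := by
      rw [← mul_inv, Real.mul_self_sqrt hk.le]
      exact inv_mul_cancel₀ hk.ne'
    exact_mod_cast h7
  · rw [if_neg (Ne.symm hkl), if_neg hkl, mul_zero]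

open ComplexOrder in
theorem onb_one (d : ℕ) (c : ℝ) (hc : 0 < c) (w : ℂ → ℝ) (hw : ∀ z, 0 ≤ w z) (hwm : Measurable w)
    (T : Finset ℂ) (hwT : ∀ z ∉ T, 0 < w z)
    (hint : ∀ i < d, Integrable (fun z : ℂ => ‖z‖ ^ (2 * i) * w z)) :
    ∃ e : Fin d → ℂ[X], (∀ k, (e k).degree < (d : ℕ)) ∧
      ∀ k l, (c : ℂ) * ∫ z : ℂ, (e k).eval z * (starRingEnd ℂ) ((e l).eval z) * (w z : ℂ) =
        if k = l then 1 else 0 := by
  classical
  have hI : ∀ a b : Fin d, Integrable (fun z : ℂ => z ^ (a : ℕ) * (starRingEnd ℂ) (z ^ (b : ℕ)) * (w z : ℂ)) := by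
    intro a b
    have h1 := (hint a a.2).add (hint b b.2)
    refine h1.mono' ?_ (Filter.Eventually.of_forall fun z => ?_)
    · refine Measurable.aestronglyMeasurable ?_
      have h2 : Measurable fun z : ℂ => z ^ (a : ℕ) * (starRingEnd ℂ) (z ^ (b : ℕ)) :=
        ((continuous_id.pow _).mul (Complex.continuous_conj.comp (continuous_id.pow _))).measurable
      exact h2.mul (Complex.measurable_ofReal.comp hwm)
    · rw [norm_mul, norm_mul, RCLike.norm_conj, norm_pow, norm_pow, Complex.norm_real, Real.norm_of_nonneg (hw z)]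
      simp only [Pi.add_apply]
      rw [← add_mul]
      refine mul_le_mul_of_nonneg_right ?_ (hw z)
      have h3 := sq_nonneg (‖z‖ ^ (a : ℕ) - ‖z‖ ^ (b : ℕ))
      have h4 := sq_nonneg (‖z‖ ^ (a : ℕ) + ‖z‖ ^ (b : ℕ))
      have e1 : ‖z‖ ^ (2 * (a : ℕ)) = (‖z‖ ^ (a : ℕ)) ^ 2 := by rw [← pow_mul, mul_comm]
      have e2 : ‖z‖ ^ (2 * (b : ℕ)) = (‖z‖ ^ (b : ℕ)) ^ 2 := by rw [← pow_mul, mul_comm]
      rw [e1, e2]
      nlinarith
  obtain ⟨H, hHdef⟩ : ∃ H : Matrix (Fin d) (Fin d) ℂ,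
      ∀ b a, H b a = (c : ℂ) * ∫ z : ℂ, z ^ (a : ℕ) * (starRingEnd ℂ) (z ^ (b : ℕ)) * (w z : ℂ) :=
    ⟨fun b a => (c : ℂ) * ∫ z : ℂ, z ^ (a : ℕ) * (starRingEnd ℂ) (z ^ (b : ℕ)) * (w z : ℂ), fun _ _ => rfl⟩
  obtain ⟨P, hP⟩ : ∃ P : (Fin d → ℂ) → ℂ[X], ∀ u, P u = ∑ a : Fin d, C (u a) * X ^ (a : ℕ) := ⟨_, fun _ => rfl⟩
  have hPe : ∀ u z, (P u).eval z = ∑ a : Fin d, u a * z ^ (a : ℕ) := by
    intro u z
    rw [hP, eval_finsetSum]
    exact Finset.sum_congr rfl fun a _ => by simp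
  have hform : ∀ u v : Fin d → ℂ, (c : ℂ) * ∫ z : ℂ, (P u).eval z * (starRingEnd ℂ) ((P v).eval z) * (w z : ℂ) =
      ∑ b, ∑ a, (starRingEnd ℂ) (v b) * H b a * u a := by
    intro u v
    have h1 : ∀ z : ℂ, (P u).eval z * (starRingEnd ℂ) ((P v).eval z) * (w z : ℂ) =
        ∑ b, ∑ a, ((starRingEnd ℂ) (v b) * u a) * (z ^ (a : ℕ) * (starRingEnd ℂ) (z ^ (b : ℕ)) * (w z : ℂ)) := by
      intro z
      rw [hPe, hPe, map_sum, Finset.sum_mul_sum, Finset.sum_comm, Finset.sum_mul]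
      refine Finset.sum_congr rfl fun b _ => ?_
      rw [Finset.sum_mul]
      refine Finset.sum_congr rfl fun a _ => ?_
      rw [map_mul]
      ring
    simp_rw [h1]
    rw [integral_finsetSum _ fun b _ => integrable_finsetSum _ fun a _ => (hI a b).const_mul _, Finset.mul_sum]
    refine Finset.sum_congr rfl fun b _ => ?_
    rw [integral_finsetSum _ fun a _ => (hI a b).const_mul _, Finset.mul_sum]
    refine Finset.sum_congr rfl fun a _ => ?_
    rw [integral_const_mul, hHdef]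
    ring
  have hHerm : H.IsHermitian := by
    ext b a
    rw [Matrix.conjTranspose_apply, hHdef, hHdef, star_mul', RCLike.star_def, Complex.conj_ofReal, ← integral_conj]
    congr 1
    refine integral_congr_ae (Filter.Eventually.of_forall fun z => ?_)
    simp only [map_mul, Complex.conj_conj, Complex.conj_ofReal]
    ring
  have hpd : H.PosDef := by
    refine Matrix.PosDef.of_dotProduct_mulVec_pos hHerm fun x hx => ?_
    have h1 : star x ⬝ᵥ (H.mulVec x) = (c : ℂ) * ∫ z : ℂ, (P x).eval z * (starRingEnd ℂ) ((P x).eval z) * (w z : ℂ) := by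
      rw [hform]
      unfold dotProduct Matrix.mulVec dotProduct
      refine Finset.sum_congr rfl fun b _ => ?_
      rw [Finset.mul_sum]
      refine Finset.sum_congr rfl fun a _ => ?_
      rw [Pi.star_apply, RCLike.star_def]
      ring
    have h2 : ∫ z : ℂ, (P x).eval z * (starRingEnd ℂ) ((P x).eval z) * (w z : ℂ) =
        ((∫ z : ℂ, ‖(P x).eval z‖ ^ 2 * w z : ℝ) : ℂ) := by
      rw [← integral_complex_ofReal]
      refine integral_congr_ae (Filter.Eventually.of_forall fun z => ?_)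
      simp only
      rw [Complex.mul_conj, Complex.normSq_eq_norm_sq]
      push_cast
      ring
    rw [h1, h2, ← Complex.ofReal_mul]
    have h3 : 0 < c * ∫ z : ℂ, ‖(P x).eval z‖ ^ 2 * w z := by
      refine mul_pos hc ?_
      have hne : P x ≠ 0 := by
        intro h0
        apply hx
        funext a
        have h4 := congrArg (fun p => Polynomial.coeff p (a : ℕ)) h0
        simp only [hP, finsetSum_coeff, coeff_C_mul, coeff_X_pow, coeff_zero] at h4
        rw [Finset.sum_eq_single a] at h4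
        · simpa using h4
        · intro b _ hb
          rw [if_neg, mul_zero]
          intro h5
          exact hb (Fin.ext h5.symm)
        · intro h5
          exact absurd (Finset.mem_univ a) h5
      have hInt : Integrable fun z : ℂ => ‖(P x).eval z‖ ^ 2 * w z := by
        have h5 : Integrable fun z : ℂ => (P x).eval z * (starRingEnd ℂ) ((P x).eval z) * (w z : ℂ) := by
          have h6 : ∀ z : ℂ, (P x).eval z * (starRingEnd ℂ) ((P x).eval z) * (w z : ℂ) =
              ∑ b, ∑ a, ((starRingEnd ℂ) (x b) * x a) * (z ^ (a : ℕ) * (starRingEnd ℂ) (z ^ (b : ℕ)) * (w z : ℂ)) := by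
            intro z
            rw [hPe, map_sum, Finset.sum_mul_sum, Finset.sum_comm, Finset.sum_mul]
            refine Finset.sum_congr rfl fun b _ => ?_
            rw [Finset.sum_mul]
            refine Finset.sum_congr rfl fun a _ => ?_
            rw [map_mul]
            ring
          simp_rw [h6]
          exact integrable_finsetSum _ fun b _ => integrable_finsetSum _ fun a _ => (hI a b).const_mul _
        refine h5.norm.congr (Filter.Eventually.of_forall fun z => ?_)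
        simp only
        rw [norm_mul, norm_mul, RCLike.norm_conj, Complex.norm_real, Real.norm_of_nonneg (hw z)]
        ring
      rw [integral_pos_iff_support_of_nonneg (fun z => mul_nonneg (by positivity) (hw z)) hInt]
      have hfin : ((T : Set ℂ) ∪ ((P x).roots.toFinset : Set ℂ)).Finite :=
        (Finset.finite_toSet _).union (Finset.finite_toSet _)
      have hsub : ((T : Set ℂ) ∪ ((P x).roots.toFinset : Set ℂ))ᶜ ⊆
          Function.support fun z : ℂ => ‖(P x).eval z‖ ^ 2 * w z := by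
        intro z hz
        simp only [Set.mem_compl_iff, Set.mem_union, Finset.mem_coe, Multiset.mem_toFinset, not_or] at hz
        rw [Function.mem_support]
        have h5 := hwT z hz.1
        have h6 : (P x).eval z ≠ 0 := by
          intro h7
          exact hz.2 ((mem_roots hne).2 h7)
        have h7 : 0 < ‖(P x).eval z‖ := norm_pos_iff.2 h6
        positivity
      refine lt_of_lt_of_le ?_ (measure_mono hsub)
      have h5 : volume ((T : Set ℂ) ∪ ((P x).roots.toFinset : Set ℂ)) = 0 := hfin.measure_zero _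
      have h6 := measure_univ_le_add_compl (μ := (volume : Measure ℂ))
        ((T : Set ℂ) ∪ ((P x).roots.toFinset : Set ℂ))
      rw [h5, zero_add] at h6
      exact lt_of_lt_of_le (Measure.measure_univ_pos.2 (NeZero.ne _)) h6
    exact_mod_cast h3
  obtain ⟨A, hA⟩ := onb_gram H hHerm fun i => hpd.eigenvalues_pos i
  refine ⟨fun k => P (A k), fun k => ?_, fun k l => ?_⟩
  · change (P (A k)).degree < _
    rw [hP]
    refine (degree_sum_le _ _).trans_lt ?_
    rw [Finset.sup_lt_iff (by exact WithBot.bot_lt_coe _)]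
    intro a _
    refine (degree_C_mul_X_pow_le _ _).trans_lt ?_
    exact_mod_cast a.2
  · rw [hform, hA]

theorem exists_onb (m : ℕ) (hm : 2 ≤ m) (f : ℤ[X]) (hf : f.Monic) (hd : f.discr ≠ 0)
    (hmn : m.Coprime f.natDegree) : ∃ e, IsONB m f e := by
  classical
  obtain ⟨S, hS, hev⟩ := onb_roots f hf hd
  have hmr : (0 : ℝ) < m := by exact_mod_cast (by omega : 0 < m)
  have key : ∀ j ∈ Finset.Ico 1 m, ∃ e : Fin (f.natDegree * j / m) → ℂ[X],
      (∀ k, (e k).degree < (f.natDegree * j / m : ℕ)) ∧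
      ∀ k l, ((m : ℝ) : ℂ) * ∫ z : ℂ, (e k).eval z * (starRingEnd ℂ) ((e l).eval z) * (wt m f j z : ℂ) =
        if k = l then 1 else 0 := by
    intro j hj
    refine onb_one _ (m : ℝ) hmr (wt m f j) (fun z => ?_) ?_ S (fun z hz => ?_) fun i hi => ?_
    · unfold wt
      positivity
    · unfold wt
      exact ((cpx f).continuous.norm.measurable).pow_const _
    · unfold wt
      refine Real.rpow_pos_of_pos (norm_pos_iff.2 ?_) _
      rw [hev z]
      refine Finset.prod_ne_zero_iff.2 fun α hα => ?_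
      rw [sub_ne_zero]
      rintro rfl
      exact hz hα
    · exact integrable_wt m hm f hf hd hmn j hj i hi
  refine ⟨fun j => if h : j ∈ Finset.Ico 1 m then (key j h).choose else 0, fun j hj => ?_⟩
  simp only [hj, dif_pos]
  have h1 := (key j hj).choose_spec
  refine ⟨h1.1, fun k l => ?_⟩
  have h2 := h1.2 k l
  push_cast at h2
  exact h2

end SzSP
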