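import Pool.Agent.SzSP.Crt
import Pool.Agent.SzSP.Disc

/-!
Square sieve: discriminants of the form k y^2.
-/

open Polynomial
open scoped Classical

namespace SzSP

theorem Sieve_aux (r : ℝ) (i c : ℕ) :
    (r / 2) ^ c * r ^ i = r ^ (i + c) * ((1 / 2 : ℝ) ^ (i + c) * 2 ^ i) := by
  have e2 : ((1 : ℝ) / 2) ^ i * 2 ^ i = 1 := by rw [← mul_pow]; norm_num
  have e3 : r / 2 = r * (1 / 2) := by ring
  rw [e3, mul_pow, pow_add, pow_add]
  linear_combination (-(r ^ i * r ^ c * (1 / 2 : ℝ) ^ c)) * e2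

theorem Sieve_root_le (n : ℕ) (hn : 2 ≤ n) (T : ℕ) (hT : 1 ≤ T) (a : Fin (n - 1) → ℤ)
    (ha : a ∈ box n T) (x : ℂ) (hx : ((poly n a).map (Int.castRingHom ℂ)).eval x = 0) :
    ‖x‖ ≤ 2 * T := by
  by_contra hcon
  push Not at hcon
  have hT0 : (0 : ℝ) < T := by exact_mod_cast hT
  have hr : 0 < ‖x‖ := by linarith
  have h1 : x ^ n = - ∑ i : Fin (n - 1), (a i : ℂ) * x ^ (i : ℕ) := by
    have : x ^ n + ∑ i : Fin (n - 1), (a i : ℂ) * x ^ (i : ℕ) = 0 := by
      rw [← hx]
      simp [poly, eval_finsetSum, Polynomial.map_sum]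
    linear_combination this
  have hbox : ∀ i, |((a i : ℤ) : ℝ)| ≤ (T : ℝ) ^ (n - (i : ℕ)) := by
    intro i
    have := (Fintype.mem_piFinset.mp ha) i
    rw [Finset.mem_Icc] at this
    rw [abs_le]
    constructor
    · have h := this.1
      have h' : ((-((T : ℤ) ^ (n - (i : ℕ))) : ℤ) : ℝ) ≤ ((a i : ℤ) : ℝ) := by exact_mod_cast h
      push_cast at h'
      exact h'
    · have h := this.2
      have h' : ((a i : ℤ) : ℝ) ≤ (((T : ℤ) ^ (n - (i : ℕ)) : ℤ) : ℝ) := by exact_mod_cast h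
      push_cast at h'
      exact h'
  have h2 : ‖x‖ ^ n ≤ ∑ i : Fin (n - 1), ‖x‖ ^ n * ((1 / 2 : ℝ) ^ n * 2 ^ (i : ℕ)) := by
    have h3 : ‖x‖ ^ n = ‖∑ i : Fin (n - 1), (a i : ℂ) * x ^ (i : ℕ)‖ := by
      rw [← norm_pow, h1, norm_neg]
    rw [h3.trans (rfl)]
    rw [← h3]
    rw [h3]
    refine (norm_sum_le _ _).trans (Finset.sum_le_sum fun i _ => ?_)
    rw [norm_mul, norm_pow, ← h3]
    have hi : (i : ℕ) ≤ n := by have := i.2; omega
    have hai : ‖(a i : ℂ)‖ = |((a i : ℤ) : ℝ)| := by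
      rw [← Complex.ofReal_intCast, Complex.norm_real, Real.norm_eq_abs]
    rw [hai]
    have e1 : |((a i : ℤ) : ℝ)| ≤ (‖x‖ / 2) ^ (n - (i : ℕ)) :=
      (hbox i).trans (pow_le_pow_left₀ hT0.le (by linarith) _)
    calc |((a i : ℤ) : ℝ)| * ‖x‖ ^ (i : ℕ) ≤ (‖x‖ / 2) ^ (n - (i : ℕ)) * ‖x‖ ^ (i : ℕ) := by
          gcongr
      _ = ‖x‖ ^ n * ((1 / 2 : ℝ) ^ n * 2 ^ (i : ℕ)) := by
          have key := Sieve_aux ‖x‖ (i : ℕ) (n - (i : ℕ))
          rwa [Nat.add_sub_cancel' hi] at key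
  rw [← Finset.mul_sum, ← Finset.mul_sum] at h2
  have h4 : ∑ i : Fin (n - 1), (2 : ℝ) ^ (i : ℕ) = 2 ^ (n - 1) - 1 := by
    rw [Fin.sum_univ_eq_sum_range (fun i => (2 : ℝ) ^ i) (n - 1), geom_sum_eq (by norm_num)]
    norm_num
  rw [h4] at h2
  have h5 : (1 / 2 : ℝ) ^ n * (2 ^ (n - 1) - 1) < 1 := by
    obtain ⟨m, rfl⟩ := Nat.exists_eq_add_of_le' (show 1 ≤ n by omega)
    rw [Nat.add_sub_cancel]
    have e2 : ((1:ℝ)/2)^m * 2^m = 1 := by rw [← mul_pow]; norm_num
    have e4 : (0 : ℝ) < (1 / 2) ^ m := by positivity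
    rw [pow_succ]
    nlinarith
  have h6 : 0 < ‖x‖ ^ n := by positivity
  nlinarith

/-- crude bound of the discriminant on the box -/
theorem discr_le (n : ℕ) (hn : 2 ≤ n) (T : ℕ) (hT : 1 ≤ T) (a : Fin (n - 1) → ℤ)
    (ha : a ∈ box n T) : (((poly n a).discr.natAbs : ℕ) : ℝ) ≤ (4 * (T : ℝ)) ^ (n * n) := by
  have hT0 : (1 : ℝ) ≤ T := by exact_mod_cast hT
  have hm : (poly n a).Monic := poly_mon n (by omega) a
  have hdeg : (poly n a).natDegree = n := poly_natDegree n (by omega) a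
  set F := (poly n a).map (Int.castRingHom ℂ) with hF
  have hFm : F.Monic := hm.map _
  have hFd : F.natDegree = n := by rw [hF, hm.natDegree_map, hdeg]
  have hsp : F.Splits := IsAlgClosed.splits F
  have hcard : F.roots.card = n := by
    rw [← hFd]; exact hsp.natDegree_eq_card_roots.symm
  obtain ⟨l, hl⟩ := Quot.exists_rep F.roots
  have hl' : (l : Multiset ℂ) = F.roots := hl
  have hlen : l.length = n := by rw [← hcard, ← hl', Multiset.coe_card]
  have hprod : F = ∏ i : Fin n, (X - C (l.get (i.cast hlen.symm))) := by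
    have h1 := hsp.eq_prod_roots_of_monic hFm
    rw [h1, ← hl', Multiset.map_coe, Multiset.prod_coe]
    subst hlen
    rw [← List.prod_ofFn]
    congr 1
    apply List.ext_get
    · simp
    · intro m h2 h3
      simp
  have hroot : ∀ i : Fin n, ‖l.get (i.cast hlen.symm)‖ ≤ 2 * T := by
    intro i
    apply Sieve_root_le n hn T hT a ha
    rw [← hF, hprod, eval_prod]
    exact Finset.prod_eq_zero (Finset.mem_univ i) (by simp)
  have hD : (((poly n a).discr : ℤ) : ℂ) = (Matrix.vandermonde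
      (fun i : Fin n => l.get (i.cast hlen.symm))).det ^ 2 := by
    rw [← discr_eq_prod, ← hprod, hF, discr_map _ hm]
    simp
  have h1 : (((poly n a).discr.natAbs : ℕ) : ℝ) = ‖(((poly n a).discr : ℤ) : ℂ)‖ := by
    rw [← Complex.ofReal_intCast, Complex.norm_real, Real.norm_eq_abs, Nat.cast_natAbs]
    simp
  rw [h1, hD, norm_pow, Matrix.det_vandermonde, norm_prod]
  have h2 : ∀ i : Fin n, ‖∏ j ∈ Finset.Ioi i, (l.get (j.cast hlen.symm) -
      l.get (i.cast hlen.symm))‖ ≤ (4 * (T : ℝ)) ^ (n - 1 - (i : ℕ)) := by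
    intro i
    rw [norm_prod]
    calc ∏ j ∈ Finset.Ioi i, ‖l.get (j.cast hlen.symm) - l.get (i.cast hlen.symm)‖
        ≤ ∏ j ∈ Finset.Ioi i, (4 * (T : ℝ)) := by
          apply Finset.prod_le_prod
          · intro j _; positivity
          · intro j _
            have := norm_sub_le (l.get (j.cast hlen.symm)) (l.get (i.cast hlen.symm))
            have h3 := hroot i
            have h4 := hroot j
            linarith
      _ = _ := by rw [Finset.prod_const, Fin.card_Ioi]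
  have h3 : ∏ i : Fin n, ‖∏ j ∈ Finset.Ioi i, (l.get (j.cast hlen.symm) -
      l.get (i.cast hlen.symm))‖ ≤ ∏ i : Fin n, (4 * (T : ℝ)) ^ (n - 1 - (i : ℕ)) :=
    Finset.prod_le_prod (fun i _ => norm_nonneg _) (fun i _ => h2 i)
  have h4 : ∏ i : Fin n, (4 * (T : ℝ)) ^ (n - 1 - (i : ℕ)) = (4 * (T : ℝ)) ^ (n * (n - 1) / 2) := by
    rw [Finset.prod_pow_eq_pow_sum, Fin.sum_univ_eq_sum_range (fun i => n - 1 - i) n,
      Finset.sum_range_reflect (fun i => i) n, Finset.sum_range_id]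
  rw [h4] at h3
  calc _ ≤ ((4 * (T : ℝ)) ^ (n * (n - 1) / 2)) ^ 2 := by
        apply pow_le_pow_left₀ _ h3
        exact Finset.prod_nonneg fun i _ => norm_nonneg _
    _ = (4 * (T : ℝ)) ^ (n * (n - 1) / 2 * 2) := by rw [← pow_mul]
    _ ≤ _ := by
        apply pow_le_pow_right₀ (by linarith)
        have : n * (n - 1) / 2 * 2 ≤ n * (n - 1) := Nat.div_mul_le_self _ _
        exact this.trans (Nat.mul_le_mul_left _ (Nat.sub_le _ _))

/-- the quadratic character of `k` modulo `p` -/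
noncomputable def Sieve_kap (k : ℤ) (p : ℕ) : ℝ :=
  if h : p.Prime then
    haveI : Fact p.Prime := ⟨h⟩
    ((quadraticChar (ZMod p) (k : ZMod p) : ℤ) : ℝ)
  else 0

theorem Sieve_abs_qc (p : ℕ) [Fact p.Prime] (x : ZMod p) :
    |((quadraticChar (ZMod p) x : ℤ) : ℝ)| ≤ 1 := by
  by_cases hx : x = 0
  · subst hx; simp
  · rcases quadraticChar_dichotomy hx with h | h <;> simp [h]

theorem Sieve_abs_kap (k : ℤ) (p : ℕ) : |Sieve_kap k p| ≤ 1 := by
  unfold Sieve_kap
  split_ifs with h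
  · have : Fact p.Prime := ⟨h⟩
    exact Sieve_abs_qc p _
  · simp

theorem Sieve_abs_chr (p n : ℕ) (a : Fin (n - 1) → ℤ) : |chr p n a| ≤ 1 := by
  unfold chr
  split_ifs with h
  · have : Fact p.Prime := ⟨h⟩
    exact Sieve_abs_qc p _
  · simp

theorem Sieve_term (p n : ℕ) (hp : p.Prime) (a : Fin (n - 1) → ℤ) (k y : ℤ)
    (h : (poly n a).discr = k * y ^ 2) :
    (if p ∣ (poly n a).discr.natAbs then (0 : ℝ) else 1) ≤ Sieve_kap k p * chr p n a := by
  have : Fact p.Prime := ⟨hp⟩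
  have e1 : Sieve_kap k p * chr p n a =
      ((quadraticChar (ZMod p) ((k * y : ℤ) : ZMod p) : ℤ) : ℝ) ^ 2 := by
    unfold Sieve_kap chr
    rw [dif_pos hp, dif_pos hp]
    rw [← Int.cast_mul, ← map_mul, h]
    rw [← Int.cast_pow, ← map_pow]
    congr 3
    push_cast
    ring
  rw [e1]
  split_ifs with hd
  · positivity
  · have h0 : ((k * y : ℤ) : ZMod p) ≠ 0 := by
      intro h1
      apply hd
      rw [ZMod.intCast_zmod_eq_zero_iff_dvd] at h1
      rw [← Int.natCast_dvd, h]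
      have : k * y ^ 2 = (k * y) * y := by ring
      rw [this]
      exact Dvd.dvd.mul_right h1 y
    rcases quadraticChar_dichotomy h0 with h | h
    · rw [h]; norm_num
    · rw [h]; norm_num

/-- the sieving primes -/
noncomputable def Sieve_P (n z : ℕ) : Finset ℕ :=
  (Finset.range (z + 1)).filter (fun p => p.Prime ∧ p ≠ 2 ∧ ¬ p ∣ n)

theorem Sieve_card_P (n z : ℕ) (hn : n ≠ 0) :
    (Nat.primeCounting z : ℝ) ≤ (Sieve_P n z).card + (1 + n) := by
  have h1 : ((Finset.range (z + 1)).filter Nat.Prime) ⊆ Sieve_P n z ∪ ({2} ∪ Finset.Icc 1 n) := by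
    intro p hp
    rw [Finset.mem_filter] at hp
    rw [Finset.mem_union, Finset.mem_union, Finset.mem_singleton, Sieve_P, Finset.mem_filter,
      Finset.mem_Icc]
    by_cases h2 : p = 2
    · right; left; exact h2
    · by_cases h3 : p ∣ n
      · right; right
        exact ⟨hp.2.one_lt.le, Nat.le_of_dvd (Nat.pos_of_ne_zero hn) h3⟩
      · left
        exact ⟨hp.1, hp.2, h2, h3⟩
  have h2 := Finset.card_le_card h1
  have h3 := (h2.trans (Finset.card_union_le _ _)).trans
    (Nat.add_le_add_left (Finset.card_union_le _ _) _)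
  rw [Finset.card_singleton, Nat.card_Icc, Nat.add_sub_cancel] at h3
  have h4 : Nat.primeCounting z = ((Finset.range (z + 1)).filter Nat.Prime).card := by
    rw [Nat.primeCounting, Nat.primeCounting', Nat.count_eq_card_filter_range]
  rw [h4]
  exact_mod_cast h3

theorem Sieve_bad (D : ℕ) (hD : D ≠ 0) (P : Finset ℕ) (hP : ∀ p ∈ P, p.Prime) :
    ((P.filter (fun p => p ∣ D)).card : ℝ) * Real.log 2 ≤ Real.log D := by
  have h1 : P.filter (fun p => p ∣ D) ⊆ D.primeFactors := by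
    intro p hp
    rw [Finset.mem_filter] at hp
    exact Nat.mem_primeFactors.mpr ⟨hP p hp.1, hp.2, hD⟩
  have h2 : 2 ^ D.primeFactors.card ≤ D := by
    calc 2 ^ D.primeFactors.card = ∏ p ∈ D.primeFactors, 2 := by rw [Finset.prod_const]
      _ ≤ ∏ p ∈ D.primeFactors, p := Finset.prod_le_prod' fun p hp =>
          (Nat.prime_of_mem_primeFactors hp).two_le
      _ ≤ D := Nat.le_of_dvd (Nat.pos_of_ne_zero hD) (Nat.prod_primeFactors_dvd D)
  have h3 : 2 ^ (P.filter (fun p => p ∣ D)).card ≤ D :=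
    (Nat.pow_le_pow_right (by norm_num) (Finset.card_le_card h1)).trans h2
  have h4 : ((2 : ℝ)) ^ (P.filter (fun p => p ∣ D)).card ≤ D := by exact_mod_cast h3
  rw [← Real.log_pow]
  exact Real.log_le_log (by positivity) h4

theorem Sieve_lower (n : ℕ) (P : Finset ℕ) (hP : ∀ p ∈ P, p.Prime) (a : Fin (n - 1) → ℤ)
    (k y : ℤ) (hk : k ≠ 0) (hy : y ≠ 0) (h : (poly n a).discr = k * y ^ 2) (w : ℝ)
    (hw : Real.log ((poly n a).discr.natAbs : ℕ) ≤ w * Real.log 2) :
    (P.card : ℝ) - w ≤ ∑ p ∈ P, Sieve_kap k p * chr p n a := by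
  have h0 : (poly n a).discr.natAbs ≠ 0 := by
    rw [Int.natAbs_ne_zero, h]
    exact mul_ne_zero hk (pow_ne_zero _ hy)
  have h1 := Sieve_bad _ h0 P hP
  have hl2 : 0 < Real.log 2 := Real.log_pos (by norm_num)
  have h2 : ((P.filter (fun p => p ∣ (poly n a).discr.natAbs)).card : ℝ) ≤ w := by
    by_contra hcon
    push Not at hcon
    nlinarith
  calc (P.card : ℝ) - w ≤ (P.card : ℝ) -
        ((P.filter (fun p => p ∣ (poly n a).discr.natAbs)).card : ℝ) := by linarith
    _ = ∑ p ∈ P, (if p ∣ (poly n a).discr.natAbs then (0 : ℝ) else 1) := by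
        rw [Finset.sum_ite]
        simp only [Finset.sum_const_zero, zero_add, Finset.sum_const, nsmul_eq_mul, mul_one]
        have := Finset.card_filter_add_card_filter_not (s := P)
          (fun p => p ∣ (poly n a).discr.natAbs)
        have h3 : (P.card : ℝ) = (P.filter (fun p => p ∣ (poly n a).discr.natAbs)).card +
          (P.filter (fun p => ¬ p ∣ (poly n a).discr.natAbs)).card := by
          rw [← this]; push_cast; ring
        rw [h3]; ring
    _ ≤ _ := Finset.sum_le_sum fun p hp => Sieve_term p n (hP p hp) a k y h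

theorem Sieve_upper (n : ℕ) (hn : 2 ≤ n) (T z : ℕ) (hT : 1 ≤ T) (k : ℤ) :
    ∑ a ∈ box n T, (∑ p ∈ Sieve_P n z, Sieve_kap k p * chr p n a) ^ 2 ≤
      ((Sieve_P n z).card + ((Sieve_P n z).card : ℝ) ^ 2 * (n * (z : ℝ) ^ 2 / T ^ 2)) *
        (box n T).card := by
  have hT0 : (0 : ℝ) < T := by exact_mod_cast hT
  have e1 : ∀ a, (∑ p ∈ Sieve_P n z, Sieve_kap k p * chr p n a) ^ 2 =
      ∑ p ∈ Sieve_P n z, ∑ q ∈ Sieve_P n z,
        (Sieve_kap k p * Sieve_kap k q) * (chr p n a * chr q n a) := by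
    intro a
    rw [sq, Finset.sum_mul_sum]
    refine Finset.sum_congr rfl fun p _ => Finset.sum_congr rfl fun q _ => by ring
  simp only [e1]
  rw [Finset.sum_comm]
  have e2 : ∀ p ∈ Sieve_P n z, ∑ a ∈ box n T, ∑ q ∈ Sieve_P n z,
      (Sieve_kap k p * Sieve_kap k q) * (chr p n a * chr q n a) ≤
      (1 + (Sieve_P n z).card * (n * (z : ℝ) ^ 2 / T ^ 2)) * (box n T).card := by
    intro p hp
    rw [Finset.sum_comm]
    have hp' := (Finset.mem_filter.mp hp).2
    have hpz : (p : ℝ) ≤ z := by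
      have := Finset.mem_range.mp (Finset.mem_filter.mp hp).1
      exact_mod_cast Nat.lt_succ_iff.mp this
    have e3 : ∀ q ∈ Sieve_P n z, ∑ a ∈ box n T,
        (Sieve_kap k p * Sieve_kap k q) * (chr p n a * chr q n a) ≤
        ((if q = p then (1 : ℝ) else 0) + (n * (z : ℝ) ^ 2 / T ^ 2)) * (box n T).card := by
      intro q hq
      have hq' := (Finset.mem_filter.mp hq).2
      have hqz : (q : ℝ) ≤ z := by
        have := Finset.mem_range.mp (Finset.mem_filter.mp hq).1
        exact_mod_cast Nat.lt_succ_iff.mp this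
      have hkk : |Sieve_kap k p * Sieve_kap k q| ≤ 1 := by
        rw [abs_mul]
        exact mul_le_one₀ (Sieve_abs_kap k p) (abs_nonneg _) (Sieve_abs_kap k q)
      rw [← Finset.mul_sum]
      refine (le_abs_self _).trans ?_
      rw [abs_mul]
      refine (mul_le_of_le_one_left (abs_nonneg _) hkk).trans ?_
      by_cases hqp : q = p
      · rw [if_pos hqp]
        calc |∑ a ∈ box n T, chr p n a * chr q n a| ≤ ∑ a ∈ box n T, |chr p n a * chr q n a| :=
              Finset.abs_sum_le_sum_abs _ _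
          _ ≤ ∑ a ∈ box n T, 1 := by
              refine Finset.sum_le_sum fun a _ => ?_
              rw [abs_mul]
              exact mul_le_one₀ (Sieve_abs_chr p n a) (abs_nonneg _) (Sieve_abs_chr q n a)
          _ = (box n T).card := by simp
          _ ≤ _ := by
              have : (0 : ℝ) ≤ (n * (z : ℝ) ^ 2 / T ^ 2) := by positivity
              have h3 : (0 : ℝ) ≤ (box n T).card := by positivity
              nlinarith
      · rw [if_neg hqp, zero_add]
        refine (pair_sum n hn p q hp'.1 hq'.1 (fun h => hqp h.symm) hp'.2.1 hp'.2.2 T hT).trans ?_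
        gcongr
        rw [sq]
        gcongr
    refine (Finset.sum_le_sum e3).trans ?_
    rw [← Finset.sum_mul, Finset.sum_add_distrib, Finset.sum_ite_eq' _ p, if_pos hp,
      Finset.sum_const, nsmul_eq_mul]
  refine (Finset.sum_le_sum e2).trans ?_
  rw [Finset.sum_const, nsmul_eq_mul]
  apply le_of_eq
  ring

theorem sieve (n : ℕ) (hn : 2 ≤ n) : ∃ A : ℝ, ∀ T : ℕ, 2 ≤ T → ∀ k : ℤ, k ≠ 0 → |k| ≤ T →
    (((box n T).filter (fun a => ∃ y : ℤ, y ≠ 0 ∧ (poly n a).discr = k * y ^ 2)).card : ℝ)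
      ≤ A * (T : ℝ) ^ (-(2 / 3 : ℝ)) * Real.log T * (box n T).card := by
  set s0 : ℝ := 1440 * ((n : ℝ) + 1) ^ 2 with hs0
  have hl2 : 0 < Real.log 2 := Real.log_pos (by norm_num)
  have hl2' : 0.6931471803 < Real.log 2 := Real.log_two_gt_d9
  have hs01 : 1440 ≤ s0 := by
    rw [hs0]; nlinarith [(Nat.cast_nonneg n : (0 : ℝ) ≤ n)]
  refine ⟨s0 ^ 4 / Real.log 2 + (16 + 4 * n / Real.log 2), fun T hT k hk _ => ?_⟩
  have hT2 : (2 : ℝ) ≤ T := by exact_mod_cast hT
  have hT0 : (0 : ℝ) < T := by linarith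
  have hlT : Real.log 2 ≤ Real.log T := Real.log_le_log (by norm_num) hT2
  have hlT0 : 0 < Real.log T := by linarith
  set s : ℝ := (T : ℝ) ^ (1 / 6 : ℝ) with hs
  have hspos : 0 < s := Real.rpow_pos_of_pos hT0 _
  have hs4 : s ^ 4 = (T : ℝ) ^ (2 / 3 : ℝ) := by
    rw [hs, ← Real.rpow_natCast, ← Real.rpow_mul hT0.le]; norm_num
  have hs6 : s ^ 6 = (T : ℝ) := by
    rw [hs, ← Real.rpow_natCast, ← Real.rpow_mul hT0.le]; norm_num
  have hinv : (T : ℝ) ^ (-(2 / 3 : ℝ)) = (s ^ 4)⁻¹ := by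
    rw [Real.rpow_neg hT0.le, hs4]
  have hlogs : Real.log T ≤ 6 * s := by
    have := Real.log_le_rpow_div hT0.le (show (0 : ℝ) < 1 / 6 by norm_num)
    rw [← hs] at this
    linarith
  have hN1 : (((box n T).filter (fun a => ∃ y : ℤ, y ≠ 0 ∧
      (poly n a).discr = k * y ^ 2)).card : ℝ) ≤ (box n T).card := by
    exact_mod_cast Finset.card_filter_le _ _
  have hb0 : (0 : ℝ) ≤ (box n T).card := by positivity
  rw [hinv]
  rcases le_or_gt s s0 with hss | hss
  · refine hN1.trans ?_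
    have h1 : 1 ≤ (s0 ^ 4 / Real.log 2 + (16 + 4 * n / Real.log 2)) * (s ^ 4)⁻¹ * Real.log T := by
      have h2 : s0 ^ 4 / Real.log 2 ≤ s0 ^ 4 / Real.log 2 + (16 + 4 * n / Real.log 2) := by
        have : 0 ≤ 16 + 4 * n / Real.log 2 := by positivity
        linarith
      have h3 : s ^ 4 ≤ s0 ^ 4 := pow_le_pow_left₀ hspos.le hss 4
      calc (1 : ℝ) = s ^ 4 / Real.log 2 * (s ^ 4)⁻¹ * Real.log 2 := by
            field_simp
        _ ≤ s0 ^ 4 / Real.log 2 * (s ^ 4)⁻¹ * Real.log T := by gcongr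
        _ ≤ _ := by gcongr
    nlinarith
  · set z : ℕ := ⌊(T : ℝ) ^ (2 / 3 : ℝ)⌋₊ with hz
    have hz1 : (z : ℝ) ≤ s ^ 4 := by
      rw [hs4]; exact Nat.floor_le (by positivity)
    have hz2 : s ^ 4 - 1 ≤ z := by
      rw [hs4]
      have := Nat.lt_floor_add_one ((T : ℝ) ^ (2 / 3 : ℝ))
      rw [← hz] at this
      linarith
    have hs1 : 1440 ≤ s := by linarith
    have hs2 : s ≤ s ^ 2 := by nlinarith
    have hs3 : s ≤ s ^ 3 := by nlinarith [sq_nonneg s]
    have hs4' : 1440 ≤ s ^ 4 := by nlinarith [sq_nonneg s, sq_nonneg (s ^ 2)]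
    have hzbig : (1439 : ℝ) ≤ z := by linarith
    have hz0 : (0 : ℝ) < z := by linarith
    have hzT : (z : ℝ) ≤ T := by
      refine hz1.trans ?_
      rw [← hs6]
      exact pow_le_pow_right₀ (by linarith) (by norm_num)
    have hlz : 0 < Real.log z := Real.log_pos (by linarith)
    have hlzT : Real.log z ≤ Real.log T := Real.log_le_log hz0 hzT
    set c : ℝ := ((Sieve_P n z).card : ℝ) with hc
    -- number of primes
    have hpi : s ^ 4 / (3 * Real.log T) ≤ (Nat.primeCounting z : ℝ) := by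
      have h1 := Chebyshev.pi_ge z
      refine le_trans ?_ h1
      have h2 : Real.log (z + 1) ≤ 0.1 * z := by
        have h3 : Real.log ((z : ℝ) + 1) ≤ ((z : ℝ) + 1) ^ (1 / 2 : ℝ) / (1 / 2) :=
          Real.log_le_rpow_div (by linarith) (by norm_num)
        rw [← Real.sqrt_eq_rpow] at h3
        have h4 : Real.sqrt ((z : ℝ) + 1) ≤ 0.05 * z := by
          rw [Real.sqrt_le_left (by positivity)]
          nlinarith
        linarith
      have h3 : 1 / 2 * (z : ℝ) ≤ z * Real.log 2 - Real.log (z + 1) := by nlinarith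
      calc s ^ 4 / (3 * Real.log T) ≤ (1 / 2 * (z : ℝ)) / Real.log T := by
            rw [div_le_div_iff₀ (by positivity) hlT0]
            nlinarith
        _ ≤ (1 / 2 * (z : ℝ)) / Real.log z := by gcongr
        _ ≤ _ := by gcongr
    have hcP := Sieve_card_P n z (by omega)
    rw [← hc] at hcP
    have hn0 : (0 : ℝ) ≤ n := Nat.cast_nonneg n
    have hc1 : s ^ 4 / (4 * Real.log T) ≤ c := by
      have h1 : 1 + (n : ℝ) ≤ s ^ 4 / (12 * Real.log T) := by
        rw [le_div_iff₀ (by positivity)]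
        have h2 : 72 * (1 + (n : ℝ)) ≤ s ^ 3 := by
          have : 72 * (1 + (n : ℝ)) ≤ s0 := by rw [hs0]; nlinarith
          linarith
        calc (1 + (n : ℝ)) * (12 * Real.log T) ≤ (1 + (n : ℝ)) * (12 * (6 * s)) := by gcongr
          _ = (72 * (1 + (n : ℝ))) * s := by ring
          _ ≤ s ^ 3 * s := by gcongr
          _ = s ^ 4 := by ring
      have h3 : s ^ 4 / (4 * Real.log T) = s ^ 4 / (3 * Real.log T) - s ^ 4 / (12 * Real.log T) := by
        field_simp
        norm_num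
      rw [h3]
      linarith
    have hcpos : 0 < c := lt_of_lt_of_le (by positivity) hc1
    set w : ℝ := 5 * n ^ 2 * Real.log T with hw
    have hwc : w ≤ c / 2 := by
      have h1 : w ≤ s ^ 4 / (4 * Real.log T) / 2 := by
        rw [div_div, le_div_iff₀ (by positivity), hw]
        have h2 : 1440 * (n : ℝ) ^ 2 ≤ s ^ 2 := by
          have : 1440 * (n : ℝ) ^ 2 ≤ s0 := by rw [hs0]; nlinarith
          linarith
        calc 5 * (n : ℝ) ^ 2 * Real.log T * (4 * Real.log T * 2)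
            = 40 * (n : ℝ) ^ 2 * Real.log T ^ 2 := by ring
          _ ≤ 40 * (n : ℝ) ^ 2 * (6 * s) ^ 2 := by gcongr
          _ = (1440 * (n : ℝ) ^ 2) * s ^ 2 := by ring
          _ ≤ s ^ 2 * s ^ 2 := by gcongr
          _ = s ^ 4 := by ring
      linarith
    have hPp : ∀ p ∈ Sieve_P n z, p.Prime := fun p hp => (Finset.mem_filter.mp hp).2.1
    -- lower bound for each element
    have hlow : ∀ a ∈ (box n T).filter (fun a => ∃ y : ℤ, y ≠ 0 ∧
        (poly n a).discr = k * y ^ 2),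
        (c / 2) ^ 2 ≤ (∑ p ∈ Sieve_P n z, Sieve_kap k p * chr p n a) ^ 2 := by
      intro a ha
      rw [Finset.mem_filter] at ha
      obtain ⟨hab, y, hy, hD⟩ := ha
      have h0 : (poly n a).discr.natAbs ≠ 0 := by
        rw [Int.natAbs_ne_zero, hD]
        exact mul_ne_zero hk (pow_ne_zero _ hy)
      have h1 : Real.log ((poly n a).discr.natAbs : ℕ) ≤ w * Real.log 2 := by
        have h2 := discr_le n hn T (by omega) a hab
        have h3 := Real.log_le_log (by exact_mod_cast Nat.pos_of_ne_zero h0) h2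
        rw [Real.log_pow, Real.log_mul (by norm_num) hT0.ne'] at h3
        have h4 : Real.log 4 = 2 * Real.log 2 := by
          rw [show (4 : ℝ) = 2 ^ 2 by norm_num, Real.log_pow]; norm_num
        rw [h4] at h3
        refine h3.trans ?_
        rw [hw]
        push_cast
        have h5 : 2 * Real.log 2 + Real.log T ≤ 3 * Real.log T := by linarith
        have h6 : 3 * Real.log T ≤ 5 * Real.log T * Real.log 2 := by nlinarith
        calc (n : ℝ) * n * (2 * Real.log 2 + Real.log T) ≤ n * n * (5 * Real.log T * Real.log 2) := by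
              gcongr; linarith
          _ = _ := by ring
      have h2 := Sieve_lower n (Sieve_P n z) hPp a k y hk hy hD w h1
      rw [← hc] at h2
      apply pow_le_pow_left₀ (by positivity)
      linarith
    have hup := Sieve_upper n hn T z (by omega) k
    have hsum : (((box n T).filter (fun a => ∃ y : ℤ, y ≠ 0 ∧
        (poly n a).discr = k * y ^ 2)).card : ℝ) * (c / 2) ^ 2 ≤
        (c + c ^ 2 * (n * (z : ℝ) ^ 2 / T ^ 2)) * (box n T).card := by
      refine le_trans ?_ hup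
      rw [← nsmul_eq_mul, ← Finset.sum_const]
      refine (Finset.sum_le_sum hlow).trans ?_
      exact Finset.sum_le_sum_of_subset_of_nonneg (Finset.filter_subset _ _)
        fun _ _ _ => sq_nonneg _
    have hfin : (((box n T).filter (fun a => ∃ y : ℤ, y ≠ 0 ∧
        (poly n a).discr = k * y ^ 2)).card : ℝ) ≤
        4 * (1 / c + (n * (z : ℝ) ^ 2 / T ^ 2)) * (box n T).card := by
      have h1 : (0 : ℝ) < (c / 2) ^ 2 := by positivity
      rw [← le_div_iff₀ h1] at hsum
      refine hsum.trans (le_of_eq ?_)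
      field_simp
      ring
    refine hfin.trans (mul_le_mul_of_nonneg_right ?_ hb0)
    have h1 : 1 / c ≤ 4 * Real.log T / s ^ 4 := by
      rw [div_le_div_iff₀ hcpos (by positivity)]
      rw [div_le_iff₀ (by positivity)] at hc1
      linarith
    have h2 : n * (z : ℝ) ^ 2 / T ^ 2 ≤ n * (s ^ 4)⁻¹ := by
      rw [mul_div_assoc]
      gcongr
      rw [div_le_iff₀ (by positivity), ← hs6]
      calc (z : ℝ) ^ 2 ≤ (s ^ 4) ^ 2 := by gcongr
        _ = (s ^ 4)⁻¹ * (s ^ 6) ^ 2 := by field_simp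
    have h3 : (n : ℝ) * (s ^ 4)⁻¹ ≤ n / Real.log 2 * (s ^ 4)⁻¹ * Real.log T := by
      have : (n : ℝ) * (s ^ 4)⁻¹ = n / Real.log 2 * (s ^ 4)⁻¹ * Real.log 2 := by field_simp
      rw [this]
      gcongr
    calc 4 * (1 / c + n * (z : ℝ) ^ 2 / T ^ 2)
        ≤ 4 * (4 * Real.log T / s ^ 4 + n / Real.log 2 * (s ^ 4)⁻¹ * Real.log T) := by linarith
      _ = (0 + (16 + 4 * n / Real.log 2)) * (s ^ 4)⁻¹ * Real.log T := by
          rw [div_eq_mul_inv (4 * Real.log T)]; ring
      _ ≤ _ := by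
          gcongr
          positivity

end SzSP
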