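import Pool.Agent.SzSP.Mass
import Pool.Agent.SzSP.Tail

/-!
Bound of the archimedean term.
-/

open Polynomial MeasureTheory

namespace SzSP

theorem arch_one (a : ℝ) (ha : 0 < a) :
    IntegrableOn (fun t : ℝ => Real.log t * t ^ (-(1 + a))) (Set.Ioi 1) ∧
    ∫ t in Set.Ioi (1 : ℝ), Real.log t * t ^ (-(1 + a)) = 1 / a ^ 2 := by
  set Φ : ℝ → ℝ := fun t => -(t ^ (-a) * (Real.log t / a + 1 / a ^ 2)) with hΦ
  have hder : ∀ x ∈ Set.Ici (1 : ℝ), HasDerivAt Φ (Real.log x * x ^ (-(1 + a))) x := by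
    intro x hx
    have hx0 : 0 < x := lt_of_lt_of_le one_pos hx
    have h1 : HasDerivAt (fun t : ℝ => t ^ (-a)) (-a * x ^ (-a - 1)) x :=
      Real.hasDerivAt_rpow_const (Or.inl hx0.ne')
    have h2 : HasDerivAt (fun t : ℝ => Real.log t / a + 1 / a ^ 2) (x⁻¹ / a) x :=
      ((Real.hasDerivAt_log hx0.ne').div_const a).add_const _
    have h3 := (h1.mul h2).neg
    have e1 : x ^ (-(1 + a)) = x ^ (-a - 1) := by congr 1; ring
    have e2 : x ^ (-a) * (x⁻¹ / a) = x ^ (-a - 1) / a := by
      rw [Real.rpow_sub hx0, Real.rpow_one]; ring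
    refine HasDerivAt.congr_deriv h3 ?_
    rw [e1, e2]
    field_simp
    ring
  have hpos : ∀ x ∈ Set.Ioi (1 : ℝ), 0 ≤ Real.log x * x ^ (-(1 + a)) := by
    intro x hx
    have hx' : (1 : ℝ) < x := hx
    exact mul_nonneg (Real.log_nonneg hx'.le) (Real.rpow_nonneg (zero_le_one.trans hx'.le) _)
  have hlim : Filter.Tendsto Φ Filter.atTop (nhds 0) := by
    have h1 : Filter.Tendsto (fun t : ℝ => t ^ (-a)) Filter.atTop (nhds 0) :=
      tendsto_rpow_neg_atTop ha
    have h2 : Filter.Tendsto (fun t : ℝ => Real.log t / t ^ a) Filter.atTop (nhds 0) :=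
      (isLittleO_log_rpow_atTop ha).tendsto_div_nhds_zero
    have h3 := ((h2.div_const a).add (h1.div_const (a ^ 2))).neg
    simp only [zero_div, add_zero, neg_zero] at h3
    refine h3.congr' ?_
    filter_upwards [Filter.eventually_gt_atTop 0] with t ht
    simp only [hΦ]
    rw [Real.rpow_neg ht.le]
    ring
  have h1 := integral_Ioi_of_hasDerivAt_of_nonneg' hder hpos hlim
  have h2 := integrableOn_Ioi_deriv_of_nonneg' hder hpos hlim
  refine ⟨h2, ?_⟩
  rw [h1]
  simp [hΦ]

/-- the radial majorant -/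
noncomputable def rad (a R r : ℝ) : ℝ :=
  if R < r then Real.log (r / R) * (r / R) ^ (-(2 + a)) else 0

theorem rad_nonneg (a R r : ℝ) (hR : 0 < R) : 0 ≤ rad a R r := by
  unfold rad
  split_ifs with h
  · have : 1 < r / R := by rwa [one_lt_div hR]
    exact mul_nonneg (Real.log_nonneg this.le) (Real.rpow_nonneg (zero_le_one.trans this.le) _)
  · exact le_rfl

theorem rad_eq (a R y : ℝ) (ha : 0 < a) (hR : 0 < R) :
    y ^ (Module.finrank ℝ ℂ - 1) • rad a R y = (Set.Ioi R).indicator
      (fun y => R * (Real.log (R⁻¹ * y) * (R⁻¹ * y) ^ (-(1 + a)))) y := by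
  rw [Complex.finrank_real_complex]
  unfold rad
  by_cases h : R < y
  · rw [if_pos h, Set.indicator_of_mem (show y ∈ Set.Ioi R from h)]
    have hy : 0 < y / R := div_pos (hR.trans h) hR
    have e0 : R⁻¹ * y = y / R := by ring
    have e1 : (y / R) ^ (-(1 + a)) = (y / R) * (y / R) ^ (-(2 + a)) := by
      rw [← Real.rpow_one_add' hy.le (by
        intro h0
        linarith)]
      congr 1; ring
    rw [e0, e1]
    simp only [smul_eq_mul]
    field_simp
    norm_num
  · rw [if_neg h, Set.indicator_of_notMem (show y ∉ Set.Ioi R from h)]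
    simp

theorem rad_int (a R : ℝ) (ha : 0 < a) (hR : 0 < R) :
    Integrable (fun z : ℂ => rad a R ‖z‖) ∧
      ∫ z : ℂ, rad a R ‖z‖ = 2 * Real.pi * R ^ 2 / a ^ 2 := by
  obtain ⟨h1, h2⟩ := arch_one a ha
  have hRi : 0 < R⁻¹ := inv_pos.2 hR
  set G : ℝ → ℝ := fun t => Real.log t * t ^ (-(1 + a)) with hG
  have h3 : IntegrableOn (fun y => G (R⁻¹ * y)) (Set.Ioi R) := by
    have h := (integrableOn_Ioi_comp_mul_left_iff G R hRi).2
    apply h
    rw [inv_mul_cancel₀ hR.ne']
    exact h1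
  have h4 : ∫ y in Set.Ioi R, G (R⁻¹ * y) = R / a ^ 2 := by
    rw [integral_comp_mul_left_Ioi G R hRi, inv_mul_cancel₀ hR.ne', h2, inv_inv, smul_eq_mul]
    ring
  have hinter : Set.Ioi (0 : ℝ) ∩ Set.Ioi R = Set.Ioi R := by
    ext y
    simp only [Set.mem_inter_iff, Set.mem_Ioi]
    exact ⟨fun h => h.2, fun h => ⟨hR.trans h, h⟩⟩
  have hfun : (fun y : ℝ => y ^ (Module.finrank ℝ ℂ - 1) • rad a R y) =
      (Set.Ioi R).indicator (fun y => R * (Real.log (R⁻¹ * y) * (R⁻¹ * y) ^ (-(1 + a)))) := by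
    funext y
    exact rad_eq a R y ha hR
  constructor
  · rw [integrable_fun_norm_addHaar volume, hfun, integrableOn_indicator_iff measurableSet_Ioi,
      Set.inter_comm, hinter]
    exact h3.const_mul R
  · rw [integral_fun_norm_addHaar volume, hfun, setIntegral_indicator measurableSet_Ioi, hinter,
      integral_const_mul, Complex.finrank_real_complex]
    have h5 : ∫ y in Set.Ioi R, Real.log (R⁻¹ * y) * (R⁻¹ * y) ^ (-(1 + a)) = R / a ^ 2 := h4
    rw [h5]
    have hb : (volume : Measure ℂ).real (Metric.ball 0 1) = Real.pi := by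
      rw [Measure.real, Complex.volume_ball]
      simp
    rw [hb]
    simp only [smul_eq_mul, nsmul_eq_mul]
    push_cast
    ring

/-- `log⁺ (‖s‖ / R)` -/
noncomputable def lp (R : ℝ) (s : ℂ) : ℝ := max 0 (Real.log (‖s‖ / R))

theorem lp_nonneg (R : ℝ) (s : ℂ) : 0 ≤ lp R s := le_max_left _ _

theorem lp_meas (R : ℝ) : Measurable (lp R) := by
  unfold lp
  exact measurable_const.max (Real.measurable_log.comp (measurable_norm.div_const R))

theorem log_sub_le (R : ℝ) (hR : 1 / 2 ≤ R) (x s : ℂ) :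
    Real.log ‖x - s‖ ≤ Real.log (2 * R) + lp R x + lp R s := by
  have hR0 : 0 < R := by linarith
  have hl : 0 ≤ Real.log (2 * R) := Real.log_nonneg (by linarith)
  have hx := lp_nonneg R x
  have hs := lp_nonneg R s
  by_cases h0 : ‖x - s‖ = 0
  · rw [h0, Real.log_zero]; positivity
  have hpos : 0 < ‖x - s‖ := lt_of_le_of_ne (norm_nonneg _) (Ne.symm h0)
  have hexp : ∀ z : ℂ, ‖z‖ / R ≤ Real.exp (lp R z) ∧ 1 ≤ Real.exp (lp R z) := by
    intro z
    refine ⟨?_, Real.one_le_exp (lp_nonneg R z)⟩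
    by_cases hz : ‖z‖ = 0
    · rw [hz, zero_div]; positivity
    · have : 0 < ‖z‖ / R := div_pos (lt_of_le_of_ne (norm_nonneg _) (Ne.symm hz)) hR0
      calc ‖z‖ / R = Real.exp (Real.log (‖z‖ / R)) := (Real.exp_log this).symm
        _ ≤ _ := Real.exp_le_exp.2 (le_max_right _ _)
  obtain ⟨hx1, hx2⟩ := hexp x
  obtain ⟨hs1, hs2⟩ := hexp s
  rw [div_le_iff₀ hR0] at hx1 hs1
  have h1 : ‖x - s‖ ≤ 2 * R * Real.exp (lp R x) * Real.exp (lp R s) := by
    have := norm_sub_le x s
    nlinarith [mul_nonneg (mul_nonneg hR0.le (Real.exp_pos (lp R x)).le) (sub_nonneg.2 hs2),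
      mul_nonneg (mul_nonneg hR0.le (Real.exp_pos (lp R s)).le) (sub_nonneg.2 hx2)]
  have h2 := Real.log_le_log hpos h1
  rw [Real.log_mul (by positivity) (by positivity), Real.log_mul (by positivity) (by positivity),
    Real.log_exp, Real.log_exp] at h2
  exact h2

theorem arch_le (m : ℕ) (hm : 2 ≤ m) (f : ℤ[X]) (hf : f.Monic) (hn : 1 ≤ f.natDegree)
    (hmn : m.Coprime f.natDegree) (hg : 1 ≤ genus m f.natDegree)
    (e : (j : ℕ) → Fin (f.natDegree * j / m) → ℂ[X]) (he : IsONB m f e) (R : ℝ) (hR : 1 / 2 ≤ R)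
    (hroots : ∀ α ∈ (cpx f).roots, ‖α‖ ≤ R) :
    archTerm m f e ≤ Real.log R / m + 3 * Real.log 2 / m +
      m ^ 2 * (f.natDegree : ℝ) ^ 4 * 16 ^ f.natDegree / genus m f.natDegree := by
  have hR0 : 0 < R := by linarith
  have hm0 : (0 : ℝ) < m := by exact_mod_cast (by omega : 0 < m)
  have hg0 : (0 : ℝ) < genus m f.natDegree := by exact_mod_cast hg
  obtain ⟨hint, hmass⟩ := rho_mass m hm f hmn hg e he
  have hnn := rho_nonneg m f e
  set ρ : ℂ → ℝ := rho m f e with hρ
  set a : ℝ := 2 / m with ha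
  have ha0 : 0 < a := by positivity
  obtain ⟨hr1, hr2⟩ := rad_int a R ha0 hR0
  set K : ℝ := m * (f.natDegree : ℝ) ^ 4 * 16 ^ f.natDegree /
      (genus m f.natDegree * Real.pi * R ^ 2) with hK
  have hK0 : 0 ≤ K := by positivity
  set L0 : ℝ := Real.log 2 + m ^ 3 * (f.natDegree : ℝ) ^ 4 * 16 ^ f.natDegree /
      (2 * genus m f.natDegree) with hL0
  have hlog2 : 0 ≤ Real.log 2 := Real.log_nonneg (by norm_num)
  have hL00 : 0 ≤ L0 := by positivity
  -- the majorant
  have hmaj : ∀ s, lp R s * ρ s ≤ Real.log 2 * ρ s + K * rad a R ‖s‖ := by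
    intro s
    rcases le_total ‖s‖ (2 * R) with h | h
    · have h1 : lp R s ≤ Real.log 2 := by
        unfold lp
        refine max_le hlog2 ?_
        by_cases hz : ‖s‖ = 0
        · rw [hz]; simpa using hlog2
        · have hz' : 0 < ‖s‖ := lt_of_le_of_ne (norm_nonneg _) (Ne.symm hz)
          refine Real.log_le_log (div_pos hz' hR0) ?_
          rw [div_le_iff₀ hR0]
          exact h
      have h2 := mul_le_mul_of_nonneg_right h1 (hnn s)
      have h3 := mul_nonneg hK0 (rad_nonneg a R ‖s‖ hR0)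
      linarith
    · have h1 := rho_tail m hm f hf hn hmn e he R hR0 hroots s h
      have h2 : R < ‖s‖ := by linarith
      have h3 : 1 < ‖s‖ / R := by rwa [one_lt_div hR0]
      have h4 : lp R s = Real.log (‖s‖ / R) := by
        unfold lp
        exact max_eq_right (Real.log_nonneg h3.le)
      have h5 : 0 ≤ Real.log 2 * ρ s := mul_nonneg hlog2 (hnn s)
      have h6 : lp R s * ρ s ≤ K * rad a R ‖s‖ := by
        unfold rad
        rw [if_pos h2, h4]
        have := mul_le_mul_of_nonneg_left h1 (Real.log_nonneg h3.le)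
        calc Real.log (‖s‖ / R) * ρ s ≤ Real.log (‖s‖ / R) * (K * (‖s‖ / R) ^ (-(2 + 2 / (m : ℝ)))) :=
              this
          _ = _ := by rw [ha]; ring
      linarith
  have hFi : Integrable (fun s => Real.log 2 * ρ s + K * rad a R ‖s‖) :=
    (hint.const_mul _).add (hr1.const_mul K)
  have hhi : Integrable (fun s => lp R s * ρ s) := by
    refine hFi.mono' ?_ ?_
    · exact (lp_meas R).aestronglyMeasurable.mul hint.aestronglyMeasurable
    · refine Filter.Eventually.of_forall fun s => ?_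
      rw [Real.norm_of_nonneg (mul_nonneg (lp_nonneg R s) (hnn s))]
      exact hmaj s
  have hhL : ∫ s, lp R s * ρ s ≤ L0 := by
    refine (integral_mono hhi hFi hmaj).trans ?_
    rw [integral_add (hint.const_mul _) (hr1.const_mul K), integral_const_mul, integral_const_mul,
      hmass, hr2, hL0, hK, ha]
    apply le_of_eq
    field_simp
  have hlR : 0 ≤ Real.log (2 * R) := Real.log_nonneg (by linarith)
  -- the inner integral
  have hinner : ∀ x : ℂ, ∫ s : ℂ, Real.log ‖x - s‖ * ρ s ≤ Real.log (2 * R) + lp R x + L0 := by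
    intro x
    have hx := lp_nonneg R x
    by_cases hi : Integrable (fun s : ℂ => Real.log ‖x - s‖ * ρ s)
    · have h1 : Integrable (fun s => (Real.log (2 * R) + lp R x) * ρ s + lp R s * ρ s) :=
        (hint.const_mul _).add hhi
      have h2 : ∫ s : ℂ, Real.log ‖x - s‖ * ρ s ≤
          ∫ s, ((Real.log (2 * R) + lp R x) * ρ s + lp R s * ρ s) := by
        refine integral_mono hi h1 fun s => ?_
        have := mul_le_mul_of_nonneg_right (log_sub_le R hR x s) (hnn s)
        simp only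
        linarith
      rw [integral_add (hint.const_mul _) hhi, integral_const_mul, hmass] at h2
      linarith
    · rw [integral_undef hi]
      positivity
  have houter : ∫ x : ℂ, (∫ s : ℂ, Real.log ‖x - s‖ * ρ s) * ρ x ≤
      Real.log (2 * R) + 2 * L0 := by
    by_cases hi : Integrable (fun x : ℂ => (∫ s : ℂ, Real.log ‖x - s‖ * ρ s) * ρ x)
    · have h1 : Integrable (fun x => (Real.log (2 * R) + L0) * ρ x + lp R x * ρ x) :=
        (hint.const_mul _).add hhi
      have h2 : ∫ x : ℂ, (∫ s : ℂ, Real.log ‖x - s‖ * ρ s) * ρ x ≤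
          ∫ x, ((Real.log (2 * R) + L0) * ρ x + lp R x * ρ x) := by
        refine integral_mono hi h1 fun x => ?_
        have := mul_le_mul_of_nonneg_right (hinner x) (hnn x)
        simp only
        linarith
      rw [integral_add (hint.const_mul _) hhi, integral_const_mul, hmass] at h2
      linarith
    · rw [integral_undef hi]
      positivity
  have hfin : archTerm m f e = (1 / (m : ℝ)) *
      ∫ x : ℂ, (∫ s : ℂ, Real.log ‖x - s‖ * ρ s) * ρ x := rfl
  rw [hfin]
  have h1 := mul_le_mul_of_nonneg_left houter (by positivity : 0 ≤ 1 / (m : ℝ))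
  refine h1.trans (le_of_eq ?_)
  rw [Real.log_mul (by norm_num) hR0.ne', hL0]
  field_simp
  ring

end SzSP
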