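import Pool.Agent.SzSP.Defs

/-!
The integral parametrisation of the residue class of infinity.
-/

open Polynomial

namespace SzSP

/-- With `b n = a m + 1`: a power series `v = 1 + O(t)` with integral coefficients such that
`x = v^b t^(-m)`, `y = v^a t^(-n)` satisfy `y^m = f(x)`. -/
theorem exists_series (f : ℤ[X]) (hf : f.Monic) (m a b : ℕ) (hm : 1 ≤ m)
    (hn : 1 ≤ f.natDegree) (hab : b * f.natDegree = a * m + 1) :
    ∃ v : PowerSeries ℤ, PowerSeries.constantCoeff v = 1 ∧
      v ^ (a * m) = ∑ i ∈ Finset.range (f.natDegree + 1),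
        PowerSeries.C (f.coeff i) * v ^ (b * i) * PowerSeries.X ^ (m * (f.natDegree - i)) := by
  classical
  have hb : 1 ≤ b := by
    rcases Nat.eq_zero_or_pos b with h | h
    · subst h; simp at hab
    · exact h
  have hXmem : ∀ k : ℕ, 1 ≤ k → (PowerSeries.X ^ k : PowerSeries ℤ) ∈
      Ideal.span {(PowerSeries.X : PowerSeries ℤ)} := by
    intro k hk
    exact Ideal.pow_mem_of_mem _ (Ideal.mem_span_singleton_self _) k hk
  have hsm : ∀ i ∈ Finset.range f.natDegree, ∀ w : PowerSeries ℤ,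
      (PowerSeries.C (f.coeff i) * PowerSeries.X ^ (m * (f.natDegree - i)) : PowerSeries ℤ) * w ∈
      Ideal.span {(PowerSeries.X : PowerSeries ℤ)} := by
    intro i hi w
    have hi' := Finset.mem_range.mp hi
    have h1 : 1 ≤ m * (f.natDegree - i) := Nat.mul_pos hm (by omega)
    exact Ideal.mul_mem_right _ _ (Ideal.mul_mem_left _ _ (hXmem _ h1))
  set r : (PowerSeries ℤ)[X] := -X ^ (a * m) + ∑ i ∈ Finset.range f.natDegree,
    C (PowerSeries.C (f.coeff i) * PowerSeries.X ^ (m * (f.natDegree - i)) : PowerSeries ℤ) *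
      X ^ (b * i) with hr
  have hrdeg : r.degree < ((a * m + 1 : ℕ) : WithBot ℕ) := by
    rw [← Polynomial.mem_degreeLT]
    refine Submodule.add_mem _ (Submodule.neg_mem _ ?_) (Submodule.sum_mem _ fun i hi => ?_)
    · rw [Polynomial.mem_degreeLT]
      refine lt_of_le_of_lt (Polynomial.degree_X_pow_le _) ?_
      exact_mod_cast Nat.lt_succ_self _
    · rw [Polynomial.mem_degreeLT]
      refine lt_of_le_of_lt (Polynomial.degree_C_mul_X_pow_le _ _) ?_
      have hi' := Finset.mem_range.mp hi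
      have : b * i < a * m + 1 := by
        rw [← hab]
        exact Nat.mul_lt_mul_of_pos_left hi' hb
      exact_mod_cast this
  have hmonic : (X ^ (a * m + 1) + r).Monic := Polynomial.monic_X_pow_add hrdeg
  have heval : ∀ v : PowerSeries ℤ, (X ^ (a * m + 1) + r).eval v =
      v ^ (a * m + 1) - v ^ (a * m) + ∑ i ∈ Finset.range f.natDegree,
        (PowerSeries.C (f.coeff i) * PowerSeries.X ^ (m * (f.natDegree - i))) * v ^ (b * i) := by
    intro v
    simp only [hr, Polynomial.eval_add, Polynomial.eval_pow, Polynomial.eval_X,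
      Polynomial.eval_neg, Polynomial.eval_finsetSum, Polynomial.eval_mul, Polynomial.eval_C]
    ring
  have h0 : (X ^ (a * m + 1) + r).eval 1 ∈ Ideal.span {(PowerSeries.X : PowerSeries ℤ)} := by
    rw [heval]
    simp only [one_pow, sub_self, zero_add]
    exact Ideal.sum_mem _ fun i hi => hsm i hi 1
  have h1 : (X ^ (a * m + 1) + r).derivative.eval 1 - 1 ∈
      Ideal.span {(PowerSeries.X : PowerSeries ℤ)} := by
    have : (X ^ (a * m + 1) + r).derivative.eval 1 - 1 = ∑ i ∈ Finset.range f.natDegree,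
        (PowerSeries.C (f.coeff i) * PowerSeries.X ^ (m * (f.natDegree - i))) *
          ((b * i : ℕ) : PowerSeries ℤ) := by
      simp only [hr, Polynomial.derivative_add, Polynomial.derivative_neg,
        Polynomial.derivative_X_pow, Polynomial.derivative_sum, Polynomial.derivative_C_mul,
        Polynomial.eval_add, Polynomial.eval_neg, Polynomial.eval_finsetSum,
        Polynomial.eval_mul, Polynomial.eval_C, Polynomial.eval_pow, Polynomial.eval_X, one_pow,
        mul_one]
      push_cast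
      ring
    rw [this]
    exact Ideal.sum_mem _ fun i hi => hsm i hi _
  have hunit : IsUnit (Ideal.Quotient.mk (Ideal.span {(PowerSeries.X : PowerSeries ℤ)})
      ((X ^ (a * m + 1) + r).derivative.eval 1)) := by
    have : Ideal.Quotient.mk (Ideal.span {(PowerSeries.X : PowerSeries ℤ)})
      ((X ^ (a * m + 1) + r).derivative.eval 1) = Ideal.Quotient.mk _ 1 := by
      rw [Ideal.Quotient.eq]
      exact h1
    rw [this, map_one]
    exact isUnit_one
  obtain ⟨v, hv, hv1⟩ := HenselianRing.is_henselian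
    (I := Ideal.span {(PowerSeries.X : PowerSeries ℤ)}) _ hmonic 1 h0 hunit
  refine ⟨v, ?_, ?_⟩
  · rw [Ideal.mem_span_singleton, PowerSeries.X_dvd_iff] at hv1
    rw [map_sub, map_one, sub_eq_zero] at hv1
    exact hv1
  · have h2 : (X ^ (a * m + 1) + r).eval v = 0 := hv
    rw [heval] at h2
    rw [Finset.sum_range_succ]
    have hlead : f.coeff f.natDegree = 1 := hf
    rw [hlead, hab, Nat.sub_self, mul_zero, pow_zero, mul_one, map_one, one_mul]
    have h3 : ∑ i ∈ Finset.range f.natDegree,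
        PowerSeries.C (f.coeff i) * v ^ (b * i) * PowerSeries.X ^ (m * (f.natDegree - i)) =
        ∑ i ∈ Finset.range f.natDegree,
        (PowerSeries.C (f.coeff i) * PowerSeries.X ^ (m * (f.natDegree - i))) * v ^ (b * i) :=
      Finset.sum_congr rfl fun i _ => by ring
    rw [h3]
    linear_combination -h2

theorem Hens_order_aux {K : Type*} [Field K] (k : ℕ) (u : PowerSeries K)
    (hu : PowerSeries.constantCoeff u = 1) :
    (PowerSeries.X ^ k : PowerSeries K).order <
      (PowerSeries.C (1 : K) * PowerSeries.X ^ k * u - PowerSeries.X ^ k).order := by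
  rw [PowerSeries.order_X_pow]
  have h1 : PowerSeries.C (1 : K) * PowerSeries.X ^ k * u - PowerSeries.X ^ k =
      PowerSeries.X ^ k * (u - 1) := by
    rw [map_one]; ring
  have h2 : (PowerSeries.X : PowerSeries K) ∣ u - 1 := by
    rw [PowerSeries.X_dvd_iff, map_sub, map_one, hu, sub_self]
  obtain ⟨w, hw⟩ := h2
  rw [h1, hw]
  have h3 : (PowerSeries.X : PowerSeries K) ^ (k + 1) ∣
      PowerSeries.X ^ k * (PowerSeries.X * w) := ⟨w, by ring⟩
  have h4 : ((k + 1 : ℕ) : ℕ∞) ≤ (PowerSeries.X ^ k * (PowerSeries.X * w)).order :=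
    PowerSeries.nat_le_order _ _ (PowerSeries.X_pow_dvd_iff.mp h3)
  refine lt_of_lt_of_le ?_ h4
  exact_mod_cast Nat.lt_succ_self k

theorem Hens_isDisc (p : ℕ) [Fact p.Prime] (m : ℕ) (hm : 1 ≤ m) (f : ℤ[X]) (hf : f.Monic)
    (hn : 1 ≤ f.natDegree) (hmn : m.Coprime f.natDegree) : IsDisc m f (1 : ℂ_[p]) := by
  obtain ⟨a, b, hab⟩ : ∃ a b : ℕ, b * f.natDegree = a * m + 1 := by
    rcases Nat.lt_or_ge 1 m with h | h
    · obtain ⟨b, _, hb⟩ := Nat.exists_mul_mod_eq_one_of_coprime hmn.symm h
      refine ⟨(f.natDegree * b) / m, b, ?_⟩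
      have := Nat.div_add_mod (f.natDegree * b) m
      rw [hb] at this
      rw [mul_comm b, mul_comm _ m]
      exact this.symm
    · have : m = 1 := by omega
      subst this
      exact ⟨f.natDegree - 1, 1, by omega⟩
  obtain ⟨v, hv0, hv⟩ := exists_series f hf m a b hm hn hab
  have hnorm : ∀ (w : PowerSeries ℤ) (k : ℕ),
      ‖(PowerSeries.map (Int.castRingHom ℂ_[p]) w).coeff k‖ ≤ 1 := by
    intro w k
    rw [PowerSeries.coeff_map]
    exact IsUltrametricDist.norm_intCast_le_one _ _
  have hXn : ∀ (j k : ℕ), ‖(PowerSeries.X ^ j : PowerSeries ℂ_[p]).coeff k‖ ≤ 1 := by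
    intro j k
    rw [PowerSeries.coeff_X_pow]
    split_ifs
    · simp
    · simp
  refine ⟨one_ne_zero, PowerSeries.map (Int.castRingHom ℂ_[p]) (v ^ b), PowerSeries.X ^ m,
    PowerSeries.map (Int.castRingHom ℂ_[p]) (v ^ a), PowerSeries.X ^ f.natDegree,
    hnorm _, hXn _, hnorm _, hXn _, ?_, ?_, ?_⟩
  · unfold homog
    have h := congrArg (PowerSeries.map (Int.castRingHom ℂ_[p])) hv
    have h2 : (PowerSeries.map (Int.castRingHom ℂ_[p]) (v ^ a)) ^ m =
        PowerSeries.map (Int.castRingHom ℂ_[p]) (v ^ (a * m)) := by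
      rw [← map_pow, ← pow_mul]
    rw [h2, h, map_sum, Finset.sum_mul, Finset.mul_sum]
    refine Finset.sum_congr rfl fun i _ => ?_
    rw [map_mul, map_mul, PowerSeries.map_C, map_pow, map_pow, map_pow, PowerSeries.map_X]
    simp only [eq_intCast]
    ring
  · unfold Pole
    rw [one_pow]
    refine Hens_order_aux m _ ?_
    rw [← PowerSeries.coeff_zero_eq_constantCoeff_apply, PowerSeries.coeff_map,
      PowerSeries.coeff_zero_eq_constantCoeff_apply, map_pow, hv0]
    simp
  · unfold Pole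
    rw [one_pow]
    refine Hens_order_aux f.natDegree _ ?_
    rw [← PowerSeries.coeff_zero_eq_constantCoeff_apply, PowerSeries.coeff_map,
      PowerSeries.coeff_zero_eq_constantCoeff_apply, map_pow, hv0]
    simp

theorem logRadius_nonneg (p : Nat.Primes) (m : ℕ) (hm : 1 ≤ m) (f : ℤ[X]) (hf : f.Monic)
    (hn : 1 ≤ f.natDegree) (hmn : m.Coprime f.natDegree) : 0 ≤ logRadius p m f := by
  have : Fact (p : ℕ).Prime := ⟨p.2⟩
  have h := Hens_isDisc (p : ℕ) m hm f hf hn hmn
  have h2 : ((Real.log ‖(1 : ℂ_[(p : ℕ)])‖ : ℝ) : EReal) ≤ logRadius p m f := by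
    unfold logRadius
    exact le_iSup₂ (f := fun (c : ℂ_[(p : ℕ)]) (_ : c ∈ {c : ℂ_[(p : ℕ)] | IsDisc m f c}) =>
      ((Real.log ‖c‖ : ℝ) : EReal)) (1 : ℂ_[(p : ℕ)]) h
  simpa using h2

end SzSP
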