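import Pool.Agent.SzSP.Defs

/-!
The image of the canonical measure is a probability measure.
-/

open Polynomial MeasureTheory

namespace SzSP

theorem sum_floor (m n : ℕ) (hm : 1 ≤ m) (hn : 1 ≤ n) (hmn : m.Coprime n) :
    ∑ j ∈ Finset.Ico 1 m, n * j / m = genus m n := by
  have key : ∀ j ∈ Finset.Ico 1 m, n * j / m + n * (m - j) / m = n - 1 := by
    intro j hj
    rw [Finset.mem_Ico] at hj
    have hnd : ¬ m ∣ n * j := by
      intro h
      have h2 : m ∣ j := hmn.dvd_of_dvd_mul_left h
      have h3 := Nat.le_of_dvd (by omega) h2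
      omega
    have hmod : 0 < n * j % m := by
      rcases Nat.eq_zero_or_pos (n * j % m) with h | h
      · exact absurd (Nat.dvd_of_mod_eq_zero h) hnd
      · exact h
    have hlt : n * j % m < m := Nat.mod_lt _ (by omega)
    have hdm := Nat.div_add_mod (n * j) m
    have hle : n * j ≤ n * m := Nat.mul_le_mul_left n (by omega)
    have e1 : n * (m - j) = n * m - n * j := Nat.mul_sub n m j
    set q := n * j / m with hq
    set r := n * j % m with hr
    -- `n * (m - j) = m * (n - 1 - q) + (m - r)`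
    have hq1 : q < n := by
      rw [hq]
      apply Nat.div_lt_of_lt_mul
      rw [Nat.mul_comm m n]
      exact Nat.mul_lt_mul_of_pos_left (by omega) (by omega)
    obtain ⟨d, hd⟩ : ∃ d, n = q + 1 + d := ⟨n - (q + 1), by omega⟩
    have e2 : n * (m - j) = m * d + (m - r) := by
      rw [e1]
      have h4 : n * m = m * q + m + m * d := by
        conv_lhs => rw [hd]
        ring
      omega
    have e3 : n * (m - j) / m = d := by
      rw [e2, Nat.mul_add_div (by omega)]
      rw [Nat.div_eq_of_lt (by omega)]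
      rfl
    rw [e3]
    omega
  have h2 : 2 * ∑ j ∈ Finset.Ico 1 m, n * j / m = (m - 1) * (n - 1) := by
    have hrefl : ∑ j ∈ Finset.Ico 1 m, n * (m - j) / m = ∑ j ∈ Finset.Ico 1 m, n * j / m := by
      apply Finset.sum_nbij' (fun j => m - j) (fun j => m - j)
      · intro j hj
        rw [Finset.mem_Ico] at hj ⊢
        omega
      · intro j hj
        rw [Finset.mem_Ico] at hj ⊢
        omega
      · intro j hj
        rw [Finset.mem_Ico] at hj
        show m - (m - j) = j
        omega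
      · intro j hj
        rw [Finset.mem_Ico] at hj
        show m - (m - j) = j
        omega
      · intro j hj
        rfl
    calc 2 * ∑ j ∈ Finset.Ico 1 m, n * j / m
        = ∑ j ∈ Finset.Ico 1 m, n * j / m + ∑ j ∈ Finset.Ico 1 m, n * (m - j) / m := by
          rw [hrefl]; ring
      _ = ∑ j ∈ Finset.Ico 1 m, (n * j / m + n * (m - j) / m) := by
          rw [Finset.sum_add_distrib]
      _ = ∑ j ∈ Finset.Ico 1 m, (n - 1) := Finset.sum_congr rfl key
      _ = (m - 1) * (n - 1) := by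
          rw [Finset.sum_const, Nat.card_Ico, smul_eq_mul]
  unfold genus
  omega

theorem rho_nonneg (m : ℕ) (f : ℤ[X]) (e : (j : ℕ) → Fin (f.natDegree * j / m) → ℂ[X]) (z : ℂ) :
    0 ≤ rho m f e z := by
  unfold rho wt
  apply mul_nonneg
  · positivity
  · apply Finset.sum_nonneg
    intro j _
    apply Finset.sum_nonneg
    intro k _
    positivity

theorem rho_mass (m : ℕ) (hm : 2 ≤ m) (f : ℤ[X]) (hmn : m.Coprime f.natDegree)
    (hg : 1 ≤ genus m f.natDegree) (e : (j : ℕ) → Fin (f.natDegree * j / m) → ℂ[X])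
    (he : IsONB m f e) : Integrable (rho m f e) ∧ ∫ z, rho m f e z = 1 := by
  have hn1 : 1 ≤ f.natDegree := by
    rcases Nat.eq_zero_or_pos f.natDegree with h | h
    · rw [h] at hg
      simp [genus] at hg
    · exact h
  have hm0 : (m : ℝ) ≠ 0 := by
    have : (0 : ℝ) < m := by exact_mod_cast (by omega : 0 < m)
    exact this.ne'
  have key : ∀ j ∈ Finset.Ico 1 m, ∀ k, Integrable (fun z : ℂ => ‖(e j k).eval z‖ ^ 2 * wt m f j z)
      ∧ ∫ z : ℂ, ‖(e j k).eval z‖ ^ 2 * wt m f j z = 1 / (m : ℝ) := by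
    intro j hj k
    have h1 := (he j hj).2 k k
    rw [if_pos rfl] at h1
    have hfun : (fun z : ℂ => (e j k).eval z * (starRingEnd ℂ) ((e j k).eval z) * (wt m f j z : ℂ))
        = fun z : ℂ => ((‖(e j k).eval z‖ ^ 2 * wt m f j z : ℝ) : ℂ) := by
      funext z
      rw [Complex.mul_conj, Complex.normSq_eq_norm_sq]
      push_cast
      ring
    rw [hfun] at h1
    have h0 : ∫ z : ℂ, ((‖(e j k).eval z‖ ^ 2 * wt m f j z : ℝ) : ℂ)
        = ((∫ z : ℂ, ‖(e j k).eval z‖ ^ 2 * wt m f j z : ℝ) : ℂ) := integral_ofReal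
    rw [h0] at h1
    have h2 : (m : ℝ) * ∫ z : ℂ, ‖(e j k).eval z‖ ^ 2 * wt m f j z = 1 := by
      exact_mod_cast h1
    refine ⟨?_, ?_⟩
    · by_contra hni
      rw [integral_undef hni] at h2
      simp at h2
    · field_simp
      linarith
  have hint : ∀ j ∈ Finset.Ico 1 m, Integrable
      (fun z : ℂ => ∑ k, ‖(e j k).eval z‖ ^ 2 * wt m f j z) := by
    intro j hj
    exact integrable_finsetSum _ (fun k _ => (key j hj k).1)
  have hint2 : Integrable
      (fun z : ℂ => ∑ j ∈ Finset.Ico 1 m, ∑ k, ‖(e j k).eval z‖ ^ 2 * wt m f j z) :=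
    integrable_finsetSum _ hint
  refine ⟨hint2.const_mul _, ?_⟩
  have hg0 : ((genus m f.natDegree : ℕ) : ℝ) ≠ 0 := by
    have : (0 : ℝ) < (genus m f.natDegree : ℕ) := by exact_mod_cast (by omega)
    exact this.ne'
  have h3 : ∫ z, rho m f e z = ((m : ℝ) / genus m f.natDegree) *
      ∫ z : ℂ, ∑ j ∈ Finset.Ico 1 m, ∑ k, ‖(e j k).eval z‖ ^ 2 * wt m f j z := by
    rw [← integral_const_mul]
    rfl
  rw [h3, integral_finsetSum _ hint]
  have h4 : ∀ j ∈ Finset.Ico 1 m,
      ∫ z : ℂ, ∑ k, ‖(e j k).eval z‖ ^ 2 * wt m f j z = ((f.natDegree * j / m : ℕ) : ℝ) / m := by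
    intro j hj
    rw [integral_finsetSum _ (fun k _ => (key j hj k).1)]
    rw [Finset.sum_congr rfl (fun k _ => (key j hj k).2)]
    rw [Finset.sum_const, Finset.card_univ, Fintype.card_fin, nsmul_eq_mul]
    ring
  rw [Finset.sum_congr rfl h4, ← Finset.sum_div, ← Nat.cast_sum,
    sum_floor m f.natDegree (by omega) hn1 hmn]
  field_simp

end SzSP
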