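import Pool.Agent.SzSP.Odd
import Pool.Agent.SzSP.Sieve

/-!
For almost all polynomials the odd part of the discriminant is large.
-/

open Polynomial
open scoped Classical

namespace SzSP

private theorem Cnt_fiber (k : ℕ) (b : Fin k → ℤ) (s : Finset (Fin (k + 1) → ℤ))
    (hs : ∀ a ∈ s, (poly (k + 2) a).discr = 0 ∧ Fin.tail a = b) : s.card ≤ k + 1 := by
  set g : ℂ[X] := (poly (k + 2) (Fin.cons 0 b : Fin (k + 1) → ℤ)).map (Int.castRingHom ℂ) with hg
  have hpoly : ∀ a ∈ s, (poly (k + 2) a).map (Int.castRingHom ℂ) = g + C ((a 0 : ℤ) : ℂ) := by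
    intro a ha
    have hb := (hs a ha).2
    have h1 : a = Fin.cons (a 0) b := by
      rw [← hb, Fin.cons_self_tail]
    have h2 : poly (k + 2) a = poly (k + 2) (Fin.cons 0 b : Fin (k + 1) → ℤ) + C (a 0) := by
      conv_lhs => rw [h1]
      unfold poly
      change X ^ (k + 2) + ∑ i : Fin (k + 1), C ((Fin.cons (a 0) b : Fin (k + 1) → ℤ) i) * X ^ (i : ℕ) =
        X ^ (k + 2) + ∑ i : Fin (k + 1), C ((Fin.cons 0 b : Fin (k + 1) → ℤ) i) * X ^ (i : ℕ) + C (a 0)
      rw [Fin.sum_univ_succ, Fin.sum_univ_succ]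
      simp only [Fin.cons_zero, Fin.cons_succ, Fin.val_zero, pow_zero, mul_one, map_zero, zero_add]
      ring
    rw [h2, Polynomial.map_add, map_C]
    rfl
  have hmon0 : (poly (k + 2) (Fin.cons 0 b : Fin (k + 1) → ℤ)).Monic := poly_mon (k + 2) (by omega) _
  have hdeg : g.natDegree = k + 2 := by
    rw [hg, hmon0.natDegree_map]
    exact poly_natDegree (k + 2) (by omega) _
  have hd0 : derivative g ≠ 0 := by
    intro h
    have := derivative_eq_zero.mp h
    omega
  have hinj : ∀ a ∈ s, ∀ a' ∈ s, a 0 = a' 0 → a = a' := by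
    intro a ha a' ha' h
    rw [← Fin.cons_self_tail a, ← Fin.cons_self_tail a', (hs a ha).2, (hs a' ha').2, h]
  have h1 : (s.image fun a => ((a 0 : ℤ) : ℂ)) ⊆ (derivative g).roots.toFinset.image fun r => - g.eval r := by
    intro z hz
    rw [Finset.mem_image] at hz
    obtain ⟨a, ha, rfl⟩ := hz
    have hm : (poly (k + 2) a).Monic := poly_mon (k + 2) (by omega) _
    have h2 : ¬ ((poly (k + 2) a).map (Int.castRingHom ℂ)).Separable := by
      rw [← discr_ne_zero_iff (hm.map _), not_not, discr_map _ hm, (hs a ha).1, map_zero]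
    rw [Polynomial.Separable] at h2
    have h3 : ∃ r : ℂ, ((poly (k + 2) a).map (Int.castRingHom ℂ)).eval r = 0 ∧
        (derivative ((poly (k + 2) a).map (Int.castRingHom ℂ))).eval r = 0 := by
      by_contra hcon
      push Not at hcon
      apply h2
      apply IsCoprime.symm
      rw [isCoprime_iff_aeval_ne_zero_of_isAlgClosed ℂ ℂ]
      intro r
      by_cases h4 : ((poly (k + 2) a).map (Int.castRingHom ℂ)).eval r = 0
      · left
        rw [coe_aeval_eq_eval]
        exact hcon r h4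
      · right
        rw [coe_aeval_eq_eval]
        exact h4
    obtain ⟨r, hr1, hr2⟩ := h3
    rw [hpoly a ha] at hr1 hr2
    rw [Finset.mem_image]
    refine ⟨r, ?_, ?_⟩
    · rw [Multiset.mem_toFinset, mem_roots hd0, IsRoot]
      simpa using hr2
    · rw [eval_add, eval_C] at hr1
      linear_combination -hr1
  have h2 : (s.image fun a => ((a 0 : ℤ) : ℂ)).card = s.card := by
    refine Finset.card_image_of_injOn ?_
    intro a ha a' ha' h
    have h' : ((a 0 : ℤ) : ℂ) = ((a' 0 : ℤ) : ℂ) := h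
    exact hinj a ha a' ha' (by exact_mod_cast h')
  rw [← h2]
  calc (s.image fun a => ((a 0 : ℤ) : ℂ)).card
      ≤ ((derivative g).roots.toFinset.image fun r => - g.eval r).card := Finset.card_le_card h1
    _ ≤ (derivative g).roots.toFinset.card := Finset.card_image_le
    _ ≤ Multiset.card (derivative g).roots := Multiset.toFinset_card_le _
    _ ≤ (derivative g).natDegree := card_roots' _
    _ ≤ g.natDegree - 1 := natDegree_derivative_le g
    _ = k + 1 := by rw [hdeg]; rfl

theorem zero_count (n : ℕ) (hn : 2 ≤ n) (T : ℕ) (hT : 1 ≤ T) :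
    (((box n T).filter (fun a => (poly n a).discr = 0)).card : ℝ) ≤ (n / (T : ℝ)) * (box n T).card := by
  obtain ⟨k, rfl⟩ : ∃ k, n = k + 2 := ⟨n - 2, by omega⟩
  have hT0 : (0 : ℝ) < T := by exact_mod_cast hT
  set t : Finset (Fin k → ℤ) := Fintype.piFinset fun i =>
    Finset.Icc (-((T : ℤ) ^ (k + 2 - (i.succ : Fin (k + 1)).val))) ((T : ℤ) ^ (k + 2 - (i.succ : Fin (k + 1)).val)) with ht
  have hmaps : ∀ a ∈ (box (k + 2) T).filter (fun a => (poly (k + 2) a).discr = 0),
      (Fin.tail (n := k) (α := fun _ => ℤ) a) ∈ t := by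
    intro a ha
    rw [Finset.mem_filter, box, Fintype.mem_piFinset] at ha
    rw [ht, Fintype.mem_piFinset]
    intro i
    exact ha.1 i.succ
  have h1 := Finset.card_le_mul_card_image_of_maps_to hmaps (k + 1) (fun b _ => by
    refine Cnt_fiber k b _ ?_
    intro a ha
    rw [Finset.mem_filter, Finset.mem_filter] at ha
    exact ⟨ha.1.2, ha.2⟩)
  have hbox : (box (k + 2) T).card = (2 * T ^ (k + 2) + 1) * t.card := by
    rw [box, ht, Fintype.card_piFinset, Fintype.card_piFinset]
    change ∏ i : Fin (k + 1), _ = _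
    rw [Fin.prod_univ_succ]
    congr 1
    rw [Int.card_Icc]
    simp only [Fin.val_zero, Nat.sub_zero]
    have : ((T : ℤ) ^ (k + 2) + 1 - -((T : ℤ) ^ (k + 2))) = ((2 * T ^ (k + 2) + 1 : ℕ) : ℤ) := by
      push_cast; ring
    rw [this, Int.toNat_natCast]
  have hbox' : ((box (k + 2) T).card : ℝ) = (2 * (T : ℝ) ^ (k + 2) + 1) * t.card := by
    rw [hbox]; push_cast; ring
  have h1' : ((((box (k + 2) T).filter (fun a => (poly (k + 2) a).discr = 0)).card : ℕ) : ℝ) ≤ (k + 1) * t.card := by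
    exact_mod_cast h1
  refine h1'.trans ?_
  rw [hbox']
  have h2 : (T : ℝ) ≤ 2 * (T : ℝ) ^ (k + 2) + 1 := by
    have h3 : (T : ℝ) ≤ (T : ℝ) ^ (k + 2) := by
      have : (1 : ℝ) ≤ T := by exact_mod_cast hT
      exact le_self_pow₀ this (by omega)
    have : (0 : ℝ) ≤ (T : ℝ) ^ (k + 2) := by positivity
    linarith
  have h4 : (0 : ℝ) ≤ t.card := by positivity
  have h5 : (1 : ℝ) ≤ (2 * (T : ℝ) ^ (k + 2) + 1) / T := by
    rw [le_div_iff₀ hT0]; linarith
  calc ((k : ℝ) + 1) * t.card ≤ ((k : ℝ) + 2) * ((2 * (T : ℝ) ^ (k + 2) + 1) / T) * t.card := by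
        refine mul_le_mul_of_nonneg_right ?_ h4
        nlinarith [(Nat.cast_nonneg k : (0 : ℝ) ≤ k)]
    _ = _ := by
        push_cast
        field_simp

private theorem Cnt_sq (m : ℕ) (hm : 1 ≤ m) (f : ℤ[X]) (hf : f.discr ≠ 0) :
    ∃ k y : ℤ, k ≠ 0 ∧ y ≠ 0 ∧ f.discr = k * y ^ 2 ∧ k.natAbs ≤ 2 * m * oddPart m f := by
  have hD : 0 < f.discr.natAbs := Int.natAbs_pos.mpr hf
  obtain ⟨a, b, ha, hb, hab, hsq⟩ := Nat.sq_mul_squarefree_of_pos hD
  refine ⟨f.discr.sign * a, b, ?_, by exact_mod_cast hb.ne', ?_, ?_⟩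
  · refine mul_ne_zero ?_ (by exact_mod_cast ha.ne')
    rwa [Ne, Int.sign_eq_zero_iff_zero]
  · have h1 : f.discr = f.discr.sign * (f.discr.natAbs : ℤ) := (Int.sign_mul_natAbs _).symm
    conv_lhs => rw [h1, ← hab]
    push_cast
    ring
  · have h1 : (f.discr.sign * (a : ℤ)).natAbs = a := by
      rw [Int.natAbs_mul, Int.natAbs_sign_of_ne_zero hf, one_mul, Int.natAbs_natCast]
    rw [h1]
    have h2 : a = ∏ p ∈ a.primeFactors, p := (Nat.prod_primeFactors_of_squarefree hsq).symm
    have hodd : ∀ p ∈ a.primeFactors, Odd (f.discr.natAbs.factorization p) := by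
      intro p hp
      have hp' := Nat.prime_of_mem_primeFactors hp
      rw [← hab, Nat.factorization_mul (pow_ne_zero _ hb.ne') ha.ne', Nat.factorization_pow]
      simp only [Finsupp.coe_add, Finsupp.coe_smul, Pi.add_apply, Pi.smul_apply, smul_eq_mul]
      have h3 : a.factorization p = 1 := by
        refine le_antisymm (hsq.natFactorization_le_one p) ?_
        exact (hp'.dvd_iff_one_le_factorization ha.ne').mp (Nat.dvd_of_mem_primeFactors hp)
      rw [h3]
      exact ⟨b.factorization p, rfl⟩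
    have hsub : a.primeFactors ⊆ f.discr.natAbs.primeFactors :=
      Nat.primeFactors_mono ⟨b ^ 2, by rw [← hab]; ring⟩ hD.ne'
    rw [h2, ← Finset.prod_filter_mul_prod_filter_not a.primeFactors (fun p => p ∣ 2 * m)]
    refine Nat.mul_le_mul ?_ ?_
    · calc ∏ p ∈ a.primeFactors with p ∣ 2 * m, p ≤ ∏ p ∈ (2 * m).primeFactors, p := by
            refine Finset.prod_le_prod_of_subset_of_one_le' ?_ ?_
            · intro p hp
              rw [Finset.mem_filter] at hp
              exact Nat.mem_primeFactors.mpr ⟨Nat.prime_of_mem_primeFactors hp.1, hp.2, by omega⟩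
            · intro p hp _
              exact (Nat.prime_of_mem_primeFactors hp).one_lt.le
        _ ≤ 2 * m := Nat.le_of_dvd (by omega) (Nat.prod_primeFactors_dvd _)
    · unfold oddPart
      refine Finset.prod_le_prod_of_subset_of_one_le' ?_ ?_
      · intro p hp
        rw [Finset.mem_filter] at hp ⊢
        exact ⟨hsub hp.1, hodd p hp.1, hp.2⟩
      · intro p hp _
        rw [Finset.mem_filter] at hp
        exact (Nat.prime_of_mem_primeFactors hp.1).one_lt.le

theorem count (m n : ℕ) (hm : 1 ≤ m) (hn : 2 ≤ n) (κ : ℝ) (hκ : 3 / 2 < κ) :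
    ∃ A δ : ℝ, 0 < δ ∧ ∀ T : ℕ, 1 ≤ T →
      (((box n T).filter (fun a => (poly n a).discr = 0 ∨
        κ * Real.log (2 * m * oddPart m (poly n a)) < Real.log T)).card : ℝ)
        ≤ A * (T : ℝ) ^ (-δ) * (box n T).card := by
  obtain ⟨A0, hA0⟩ := sieve n hn
  set A1 : ℝ := max A0 0 with hA1
  have hκ0 : 0 < κ := by linarith
  set δ : ℝ := (2 / 3 - 1 / κ) / 2 with hδ
  have hδ0 : 0 < δ := by
    have : 1 / κ < 2 / 3 := by
      rw [div_lt_iff₀ hκ0]; linarith
    rw [hδ]; linarith
  have hδ1 : δ ≤ 1 := by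
    have : 0 < 1 / κ := by positivity
    rw [hδ]; linarith
  have hA1n : 0 ≤ A1 := le_max_right _ _
  refine ⟨1 + n + 2 * A1 / δ, δ, hδ0, fun T hT => ?_⟩
  have hb0 : (0 : ℝ) ≤ (box n T).card := by positivity
  have hcoef : 0 ≤ 2 * A1 / δ := by positivity
  rcases Nat.lt_or_ge T 2 with hT2 | hT2
  · have hT1 : T = 1 := by omega
    subst hT1
    rw [Nat.cast_one, Real.one_rpow, mul_one]
    have h1 : (((box n 1).filter (fun a => (poly n a).discr = 0 ∨
        κ * Real.log (2 * m * oddPart m (poly n a)) < Real.log 1)).card : ℝ) ≤ (box n 1).card := by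
      exact_mod_cast Finset.card_filter_le _ _
    refine h1.trans (le_mul_of_one_le_left hb0 ?_)
    have : (0 : ℝ) ≤ n := Nat.cast_nonneg n
    linarith
  · have hT2' : (2 : ℝ) ≤ T := by exact_mod_cast hT2
    have hT0 : (0 : ℝ) < T := by linarith
    have hlT : 0 < Real.log T := Real.log_pos (by linarith)
    set K : ℕ := ⌊(T : ℝ) ^ (1 / κ)⌋₊ with hK
    have hKle : (K : ℝ) ≤ (T : ℝ) ^ (1 / κ) := Nat.floor_le (by positivity)
    set ks : Finset ℤ := (Finset.Icc (-(K : ℤ)) K).erase 0 with hks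
    have hsub : (box n T).filter (fun a => (poly n a).discr = 0 ∨
        κ * Real.log (2 * m * oddPart m (poly n a)) < Real.log T) ⊆
        (box n T).filter (fun a => (poly n a).discr = 0) ∪
        ks.biUnion (fun k => (box n T).filter (fun a => ∃ y : ℤ, y ≠ 0 ∧ (poly n a).discr = k * y ^ 2)) := by
      intro a ha
      rw [Finset.mem_filter] at ha
      rw [Finset.mem_union, Finset.mem_filter]
      by_cases h0 : (poly n a).discr = 0
      · left; exact ⟨ha.1, h0⟩
      · right
        have hlog := ha.2.resolve_left h0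
        obtain ⟨k, y, hk, hy, hky, hkle⟩ := Cnt_sq m hm _ h0
        rw [Finset.mem_biUnion]
        refine ⟨k, ?_, Finset.mem_filter.mpr ⟨ha.1, y, hy, hky⟩⟩
        have hk1 : 1 ≤ k.natAbs := Int.natAbs_pos.mpr hk
        have hkle' : ((k.natAbs : ℕ) : ℝ) ≤ 2 * m * oddPart m (poly n a) := by exact_mod_cast hkle
        have hk1' : (1 : ℝ) ≤ ((k.natAbs : ℕ) : ℝ) := by exact_mod_cast hk1
        have h1 : κ * Real.log ((k.natAbs : ℕ) : ℝ) ≤ Real.log T := by
          refine le_trans ?_ hlog.le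
          refine mul_le_mul_of_nonneg_left ?_ hκ0.le
          exact Real.log_le_log (by linarith) hkle'
        have h2 : ((k.natAbs : ℕ) : ℝ) ≤ (T : ℝ) ^ (1 / κ) := by
          rw [← Real.log_le_log_iff (by linarith) (by positivity), Real.log_rpow hT0]
          rw [div_mul_eq_mul_div, one_mul, le_div_iff₀ hκ0]
          linarith
        have h3 : k.natAbs ≤ K := Nat.le_floor h2
        rw [hks, Finset.mem_erase, Finset.mem_Icc]
        refine ⟨hk, ?_, ?_⟩ <;> omega
    have hcard := Finset.card_le_card hsub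
    have hcard' := (hcard.trans (Finset.card_union_le _ _)).trans
      (Nat.add_le_add_left Finset.card_biUnion_le _)
    have hcardR : (((box n T).filter (fun a => (poly n a).discr = 0 ∨
        κ * Real.log (2 * m * oddPart m (poly n a)) < Real.log T)).card : ℝ) ≤
        (((box n T).filter (fun a => (poly n a).discr = 0)).card : ℝ) +
        ∑ k ∈ ks, (((box n T).filter (fun a => ∃ y : ℤ, y ≠ 0 ∧ (poly n a).discr = k * y ^ 2)).card : ℝ) := by
      exact_mod_cast hcard'
    have hKT : (T : ℝ) ^ (1 / κ) ≤ T := by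
      calc (T : ℝ) ^ (1 / κ) ≤ (T : ℝ) ^ (1 : ℝ) := by
            refine Real.rpow_le_rpow_of_exponent_le (by linarith) ?_
            rw [div_le_one hκ0]; linarith
        _ = T := Real.rpow_one _
    have hKT' : K ≤ T := by
      have : (K : ℝ) ≤ T := hKle.trans hKT
      exact_mod_cast this
    have hterm : ∀ k ∈ ks, (((box n T).filter (fun a => ∃ y : ℤ, y ≠ 0 ∧
        (poly n a).discr = k * y ^ 2)).card : ℝ) ≤
        A1 * (T : ℝ) ^ (-(2 / 3 : ℝ)) * Real.log T * (box n T).card := by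
      intro k hk
      rw [hks, Finset.mem_erase, Finset.mem_Icc] at hk
      refine (hA0 T hT2 k hk.1 ?_).trans ?_
      · rw [abs_le]
        constructor <;> omega
      · have : A0 ≤ A1 := le_max_left _ _
        gcongr
    have hks2 : ((ks.card : ℕ) : ℝ) ≤ 2 * (T : ℝ) ^ (1 / κ) := by
      have h1 : ks.card = 2 * K := by
        rw [hks, Finset.card_erase_of_mem (by rw [Finset.mem_Icc]; constructor <;> omega), Int.card_Icc]
        omega
      rw [h1]; push_cast; linarith
    have hzero := zero_count n hn T hT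
    have hTδ : (T : ℝ) ^ (-(1 : ℝ)) ≤ (T : ℝ) ^ (-δ) :=
      Real.rpow_le_rpow_of_exponent_le (by linarith) (by linarith)
    have hlogδ : Real.log T ≤ (T : ℝ) ^ δ / δ := Real.log_le_rpow_div hT0.le hδ0
    have hsum : ∑ k ∈ ks, (((box n T).filter (fun a => ∃ y : ℤ, y ≠ 0 ∧
        (poly n a).discr = k * y ^ 2)).card : ℝ) ≤ 2 * A1 / δ * (T : ℝ) ^ (-δ) * (box n T).card := by
      calc _ ≤ ∑ k ∈ ks, A1 * (T : ℝ) ^ (-(2 / 3 : ℝ)) * Real.log T * (box n T).card :=
            Finset.sum_le_sum hterm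
        _ = (ks.card : ℝ) * (A1 * (T : ℝ) ^ (-(2 / 3 : ℝ)) * Real.log T * (box n T).card) := by
            rw [Finset.sum_const, nsmul_eq_mul]
        _ ≤ (2 * (T : ℝ) ^ (1 / κ)) * (A1 * (T : ℝ) ^ (-(2 / 3 : ℝ)) * ((T : ℝ) ^ δ / δ) * (box n T).card) := by
            gcongr
        _ = 2 * A1 / δ * ((T : ℝ) ^ (1 / κ) * (T : ℝ) ^ (-(2 / 3 : ℝ)) * (T : ℝ) ^ δ) * (box n T).card := by
            ring
        _ = 2 * A1 / δ * (T : ℝ) ^ (-δ) * (box n T).card := by
            rw [← Real.rpow_add hT0, ← Real.rpow_add hT0]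
            have : 1 / κ + -(2 / 3) + δ = -δ := by rw [hδ]; ring
            rw [this]
    refine hcardR.trans ?_
    have hz2 : (n / (T : ℝ)) * (box n T).card ≤ n * (T : ℝ) ^ (-δ) * (box n T).card := by
      rw [div_eq_mul_inv, ← Real.rpow_neg_one]
      gcongr
    have h1 : 0 ≤ (T : ℝ) ^ (-δ) * (box n T).card := by positivity
    calc _ ≤ n * (T : ℝ) ^ (-δ) * (box n T).card + 2 * A1 / δ * (T : ℝ) ^ (-δ) * (box n T).card :=
          add_le_add (hzero.trans hz2) hsum
      _ ≤ _ := by nlinarith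

end SzSP
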