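import Pool.Agent.SzSP.MobF
import Pool.Agent.SzSP.Per

/-!
Incomplete sums of the product of two quadratic characters of the discriminant.
-/

open Polynomial

namespace SzSP

/-- the quadratic character modulo `p` of the discriminant of `poly n a`, as a real number -/
noncomputable def chr (p : ℕ) (n : ℕ) (a : Fin (n - 1) → ℤ) : ℝ :=
  if h : p.Prime then
    haveI : Fact p.Prime := ⟨h⟩
    ((quadraticChar (ZMod p) (((poly n a).discr : ℤ) : ZMod p) : ℤ) : ℝ)
  else 0

private lemma crt_poly_map {R S : Type*} [CommRing R] [CommRing S] (φ : R →+* S) (n : ℕ)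
    (a : Fin (n - 1) → R) : (poly n a).map φ = poly n (fun i => φ (a i)) := by
  unfold poly
  rw [Polynomial.map_add, Polynomial.map_pow, map_X, Polynomial.map_sum]
  congr 1
  refine Finset.sum_congr rfl fun i _ => ?_
  rw [Polynomial.map_mul, map_C, Polynomial.map_pow, map_X]

private lemma crt_chr (p : ℕ) [Fact p.Prime] (n : ℕ) (hn : 2 ≤ n) (a : Fin (n - 1) → ℤ) :
    chr p n a = ((quadraticChar (ZMod p)
      (poly n (fun i => ((a i : ℤ) : ZMod p))).discr : ℤ) : ℝ) := by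
  unfold chr
  rw [dif_pos (Fact.out : p.Prime)]
  have h := discr_map (Int.castRingHom (ZMod p)) (poly_mon n (by omega) a)
  rw [crt_poly_map] at h
  simp only [Int.coe_castRingHom] at h
  rw [h]

private lemma crt_abs (p : ℕ) [Fact p.Prime] (x : ZMod p) :
    |((quadraticChar (ZMod p) x : ℤ) : ℝ)| ≤ 1 := by
  by_cases hx : x = 0
  · rw [hx]; simp
  · rcases quadraticChar_dichotomy hx with h | h <;> rw [h] <;> simp

private lemma crt_sum {ι : Type*} [Fintype ι] [DecidableEq ι] (p q : ℕ) [NeZero p] [NeZero q]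
    (h : p.Coprime q) (F : (ι → ZMod p) → ℝ) (H : (ι → ZMod q) → ℝ) :
    ∑ a ∈ Fintype.piFinset (fun _ : ι => Finset.Ico (0 : ℤ) ((p * q : ℕ) : ℤ)),
      F (fun i => ((a i : ℤ) : ZMod p)) * H (fun i => ((a i : ℤ) : ZMod q))
      = (∑ u, F u) * ∑ v, H v := by
  rw [Finset.sum_mul_sum, ← Finset.sum_product']
  refine Finset.sum_bij
    (fun a _ => ((fun i => ((a i : ℤ) : ZMod p)), (fun i => ((a i : ℤ) : ZMod q)))) ?_ ?_ ?_ ?_
  · intro a _
    simp
  · intro a ha b hb hab
    simp only [Fintype.mem_piFinset, Finset.mem_Ico] at ha hb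
    rw [Prod.mk.injEq] at hab
    funext i
    have h1 := congrFun hab.1 i
    have h2 := congrFun hab.2 i
    rw [ZMod.intCast_eq_intCast_iff] at h1 h2
    have h3 : (a i) ≡ (b i) [ZMOD ((p * q : ℕ) : ℤ)] := by
      push_cast
      exact (Int.modEq_and_modEq_iff_modEq_mul (by simpa using h)).mp ⟨h1, h2⟩
    have h4 := h3
    unfold Int.ModEq at h4
    rwa [Int.emod_eq_of_lt (ha i).1 (ha i).2, Int.emod_eq_of_lt (hb i).1 (hb i).2] at h4
  · rintro ⟨u, v⟩ _
    refine ⟨fun i => ((Nat.chineseRemainder h (u i).val (v i).val : ℕ) : ℤ), ?_, ?_⟩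
    · simp only [Fintype.mem_piFinset, Finset.mem_Ico]
      intro i
      refine ⟨by positivity, ?_⟩
      exact_mod_cast Nat.chineseRemainder_lt_mul h _ _ (NeZero.ne p) (NeZero.ne q)
    · rw [Prod.mk.injEq]
      constructor
      · funext i
        have := (Nat.chineseRemainder h (u i).val (v i).val).2.1
        rw [← ZMod.natCast_eq_natCast_iff] at this
        simp only [Int.cast_natCast]
        rw [this, ZMod.natCast_zmod_val]
      · funext i
        have := (Nat.chineseRemainder h (u i).val (v i).val).2.2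
        rw [← ZMod.natCast_eq_natCast_iff] at this
        simp only [Int.cast_natCast]
        rw [this, ZMod.natCast_zmod_val]
  · intro a _
    rfl

theorem pair_sum (n : ℕ) (hn : 2 ≤ n) (p q : ℕ) (hp : p.Prime) (hq : q.Prime) (hpq : p ≠ q)
    (hp2 : p ≠ 2) (hpn : ¬ p ∣ n) (T : ℕ) (hT : 1 ≤ T) :
    |∑ a ∈ box n T, chr p n a * chr q n a| ≤ (n * (p * q : ℝ) / T ^ 2) * (box n T).card := by
  have := Fact.mk hp
  have := Fact.mk hq
  have hcop : p.Coprime q := (Nat.coprime_primes hp hq).mpr hpq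
  have hpq0 : 0 < p * q := Nat.mul_pos hp.pos hq.pos
  have hbox : box n T = Fintype.piFinset (fun i : Fin (n - 1) =>
      Finset.Icc (-(((T ^ (n - (i : ℕ)) : ℕ) : ℤ))) (((T ^ (n - (i : ℕ)) : ℕ) : ℤ))) := by
    unfold box
    simp only [Nat.cast_pow]
  have hcard : ((box n T).card : ℝ) =
      ∏ i : Fin (n - 1), (2 * ((T ^ (n - (i : ℕ)) : ℕ) : ℝ) + 1) := by
    rw [hbox, Fintype.card_piFinset, Nat.cast_prod]
    refine Finset.prod_congr rfl fun i _ => ?_
    rw [Int.card_Icc]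
    have : ((((T ^ (n - (i : ℕ)) : ℕ) : ℤ) + 1 - -(((T ^ (n - (i : ℕ)) : ℕ) : ℤ))).toNat : ℕ)
        = 2 * T ^ (n - (i : ℕ)) + 1 := by omega
    rw [this]
    push_cast
    ring
  have hG := per_sum (fun i : Fin (n - 1) => T ^ (n - (i : ℕ))) (p * q) hpq0
    (fun a => chr p n a * chr q n a) ?_ ?_ ?_
  · rw [← hbox, ← hcard] at hG
    refine hG.trans ?_
    refine mul_le_mul_of_nonneg_right ?_ (Nat.cast_nonneg _)
    have hT0 : (0 : ℝ) < (T : ℝ) ^ 2 := by positivity
    have hb : ∀ i : Fin (n - 1), 2 * ((p * q : ℕ) : ℝ) / (2 * ((T ^ (n - (i : ℕ)) : ℕ) : ℝ) + 1)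
        ≤ (p * q : ℝ) / T ^ 2 := by
      intro i
      have h2 : 2 ≤ n - (i : ℕ) := by have := i.2; omega
      have h3 : (T : ℝ) ^ 2 ≤ ((T ^ (n - (i : ℕ)) : ℕ) : ℝ) := by
        rw [Nat.cast_pow]
        exact pow_le_pow_right₀ (by exact_mod_cast hT) h2
      rw [div_le_div_iff₀ (by positivity) hT0]
      push_cast at h3 ⊢
      have h4 : (0 : ℝ) ≤ (p : ℝ) * q := by positivity
      nlinarith [mul_le_mul_of_nonneg_left h3 h4]
    calc ∑ i : Fin (n - 1), 2 * ((p * q : ℕ) : ℝ) / (2 * ((T ^ (n - (i : ℕ)) : ℕ) : ℝ) + 1)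
        ≤ ∑ _i : Fin (n - 1), (p * q : ℝ) / T ^ 2 := Finset.sum_le_sum fun i _ => hb i
      _ = ((n - 1 : ℕ) : ℝ) * ((p * q : ℝ) / T ^ 2) := by
          rw [Finset.sum_const, Finset.card_univ, Fintype.card_fin, nsmul_eq_mul]
      _ ≤ n * ((p * q : ℝ) / T ^ 2) := by
          refine mul_le_mul_of_nonneg_right ?_ (by positivity)
          exact_mod_cast Nat.sub_le n 1
      _ = n * (p * q : ℝ) / T ^ 2 := by ring
  · intro a
    rw [abs_mul, crt_chr p n hn, crt_chr q n hn]
    exact mul_le_one₀ (crt_abs p _) (abs_nonneg _) (crt_abs q _)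
  · intro a b hab
    rw [crt_chr p n hn, crt_chr q n hn, crt_chr p n hn, crt_chr q n hn]
    have h1 : (fun i => ((a i : ℤ) : ZMod p)) = (fun i => ((b i : ℤ) : ZMod p)) := by
      funext i
      rw [← sub_eq_zero, ← Int.cast_sub, ZMod.intCast_zmod_eq_zero_iff_dvd]
      refine dvd_trans ?_ (hab i)
      push_cast
      exact dvd_mul_right _ _
    have h2 : (fun i => ((a i : ℤ) : ZMod q)) = (fun i => ((b i : ℤ) : ZMod q)) := by
      funext i
      rw [← sub_eq_zero, ← Int.cast_sub, ZMod.intCast_zmod_eq_zero_iff_dvd]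
      refine dvd_trans ?_ (hab i)
      push_cast
      exact dvd_mul_left _ _
    rw [h1, h2]
  · simp only [crt_chr p n hn, crt_chr q n hn]
    rw [crt_sum p q hcop (fun u => ((quadraticChar (ZMod p) (poly n u).discr : ℤ) : ℝ))
      (fun v => ((quadraticChar (ZMod q) (poly n v).discr : ℤ) : ℝ))]
    have h0 := sum_poly p hp2 n hn hpn
    have h1 : ∑ u : Fin (n - 1) → ZMod p, ((quadraticChar (ZMod p) (poly n u).discr : ℤ) : ℝ)
        = 0 := by
      rw [← Int.cast_sum, h0, Int.cast_zero]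
    rw [h1, zero_mul]

end SzSP
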