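import Mathlib

/-!
Small points on the cyclic covers X : y^m = f(x) of the line, f monic separable of degree n prime
to m, over the rational numbers: definitions.

X is the smooth projective curve of genus g = (m-1)(n-1)/2, it has one point at infinity, rational
and totally ramified. Take integers a, b with b n - a m = 1; the function w = x^a / y^b is a
uniformiser at infinity.

The stable Arakelov height of the point at infinity is the degree of the restriction of the
relative dualizing sheaf, that is h = - log |dw|_Ar - sum_p log |dw|_p.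
- Archimedean term. The canonical form is mu = (1/g) sum (i/2) omega_k wedge conj omega_k over an
  orthonormal basis. An orthonormal basis is given by P dx / y^j, 1 <= j <= m-1, where P runs
  through an orthonormal basis of the polynomials of degree less than floor(n j / m) for
  m * integral P conj(Q) |f|^(-2j/m); so the image of mu in the x-plane has the density rho below.
  Infinity is fixed by the automorphisms of the cover, hence
  log G(P,infinity) = (1/m) (I - U(x(P))), U(x) = integral log|x-s| rho(s), I = integral U rho,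
  and - log |dw|_Ar = lim (log G(P,infinity) - log |w(P)|) = I / m.
- Term at p. Over a finite extension with semi-stable reduction the residue class of infinity in
  the minimal regular model is an open disc, w = c t + ... in its parameter t, the term is
  - log |c|, and |c| is the largest absolute value of the first coefficient of w for rigid analytic
  maps of the open unit disc over C_p to X with centre mapped to infinity (g > 0).
-/

open Polynomial MeasureTheory ComplexConjugate

namespace SzSP

/-- The polynomial `x^n + sum_{i < n-1} a_i x^i`. -/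
noncomputable def poly {R : Type*} [CommRing R] (n : ℕ) (a : Fin (n - 1) → R) : R[X] :=
  X ^ n + ∑ i : Fin (n - 1), C (a i) * X ^ (i : ℕ)

/-- The genus of `y^m = f(x)`, `f` separable of degree `n` prime to `m`. -/
def genus (m n : ℕ) : ℕ := (m - 1) * (n - 1) / 2

/-- The complex polynomial of an integral polynomial. -/
noncomputable def cpx (f : ℤ[X]) : ℂ[X] := f.map (Int.castRingHom ℂ)

/-- The weight `|y|^(-2j) = |f(z)|^(-2j/m)`. -/
noncomputable def wt (m : ℕ) (f : ℤ[X]) (j : ℕ) (z : ℂ) : ℝ :=
  ‖(cpx f).eval z‖ ^ (-(2 * (j : ℝ) / m))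

/-- Orthonormal bases `e j` of the spaces of holomorphic differentials `P dx / y^j`
(`P` of degree less than `floor (n j / m)`) of `y^m = f(x)`, for `1 ≤ j ≤ m - 1`. -/
def IsONB (m : ℕ) (f : ℤ[X]) (e : (j : ℕ) → Fin (f.natDegree * j / m) → ℂ[X]) : Prop :=
  ∀ j ∈ Finset.Ico 1 m, (∀ k, (e j k).degree < (f.natDegree * j / m : ℕ)) ∧
    ∀ k l, (m : ℂ) * ∫ z : ℂ, (e j k).eval z * conj ((e j l).eval z) * (wt m f j z : ℂ)
      = if k = l then 1 else 0

/-- The density of the image of the canonical (Arakelov) measure of `y^m = f(x)` in the `x`-plane. -/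
noncomputable def rho (m : ℕ) (f : ℤ[X]) (e : (j : ℕ) → Fin (f.natDegree * j / m) → ℂ[X])
    (z : ℂ) : ℝ :=
  ((m : ℝ) / genus m f.natDegree) *
    ∑ j ∈ Finset.Ico 1 m, ∑ k, ‖(e j k).eval z‖ ^ 2 * wt m f j z

/-- The archimedean term: `(1/m)` times the logarithmic energy of the image of the canonical
measure. -/
noncomputable def archTerm (m : ℕ) (f : ℤ[X]) (e : (j : ℕ) → Fin (f.natDegree * j / m) → ℂ[X]) :
    ℝ :=
  (1 / (m : ℝ)) * ∫ x : ℂ, (∫ s : ℂ, Real.log ‖x - s‖ * rho m f e s) * rho m f e x

section disc

variable {L : Type*} [NormedField L]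

/-- The coefficients of the power series `U` are at most `1` in absolute value. -/
def Bdd (U : PowerSeries L) : Prop := ∀ k, ‖U.coeff k‖ ≤ 1

/-- `V ^ n * f (U / V)`, where `n` is the degree of `f`. -/
noncomputable def homog (f : ℤ[X]) (U V : PowerSeries L) : PowerSeries L :=
  ∑ i ∈ Finset.range (f.natDegree + 1),
    PowerSeries.C ((f.coeff i : ℤ) : L) * U ^ i * V ^ (f.natDegree - i)

/-- `U / V = (c t) ^ (-k) (1 + ...)`. -/
def Pole (c : L) (k : ℕ) (U V : PowerSeries L) : Prop :=
  V.order < (PowerSeries.C (c ^ k) * PowerSeries.X ^ k * U - V).order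

/-- There is a rigid analytic map from the open unit disc over `L = ℂ_[p]` to `y^m = f(x)`, centre
mapped to infinity, given by `x = U/V = (c t)^(-m) (1 + ...)`, `y = W/Z = (c t)^(-n) (1 + ...)`
with bounded power series `U, V, W, Z`; in other words `w = c t + ...`. -/
def IsDisc (m : ℕ) (f : ℤ[X]) (c : L) : Prop :=
  c ≠ 0 ∧ ∃ U V W Z : PowerSeries L, Bdd U ∧ Bdd V ∧ Bdd W ∧ Bdd Z ∧
    W ^ m * V ^ f.natDegree = Z ^ m * homog f U V ∧ Pole c m U V ∧ Pole c f.natDegree W Z

end disc

/-- The supremum of `log |c|` over these maps. -/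
noncomputable def logRadius (p : Nat.Primes) (m : ℕ) (f : ℤ[X]) : EReal :=
  haveI : Fact (p : ℕ).Prime := ⟨p.2⟩
  ⨆ c ∈ {c : ℂ_[p] | IsDisc m f c}, ((Real.log ‖c‖ : ℝ) : EReal)

/-- The stable Arakelov height of the point at infinity of `y^m = f(x)`. -/
noncomputable def height (m : ℕ) (f : ℤ[X]) (e : (j : ℕ) → Fin (f.natDegree * j / m) → ℂ[X]) :
    EReal :=
  (archTerm m f e : EReal) - ((∑' p : Nat.Primes, (logRadius p m f).toENNReal : ENNReal) : EReal)

/-- The product of the primes `p` not dividing `m` whose exponent in the discriminant of `f` is not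
a multiple of `n (n - 1)`, `n` the degree of `f`. -/
noncomputable def badPart (m : ℕ) (f : ℤ[X]) : ℕ :=
  ∏ p ∈ f.discr.natAbs.primeFactors with
    (¬ p ∣ m ∧ ¬ (f.natDegree * (f.natDegree - 1)) ∣ f.discr.natAbs.factorization p), p

/-- The integer vectors with `|a_i| ≤ T^(n-i)`. -/
noncomputable def box (n T : ℕ) : Finset (Fin (n - 1) → ℤ) :=
  Fintype.piFinset fun i => Finset.Icc (-((T : ℤ) ^ (n - i))) ((T : ℤ) ^ (n - i))

/-- `y^m = f(x)` is a curve of genus `(m-1)(n-1)/2` whose point at infinity has stable height at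
most `B`. -/
def SmallPoint (m : ℕ) (f : ℤ[X]) (B : ℝ) : Prop :=
  f.discr ≠ 0 ∧ (∀ p : Nat.Primes, 0 ≤ logRadius p m f) ∧ (∃ e, IsONB m f e) ∧
    ∀ e, IsONB m f e → height m f e ≤ (B : EReal)

end SzSP
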