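import Pool.Agent.SzSP.Odd
import Pool.Agent.SzSP.Cnt
import Pool.Agent.SzSP.Hens
import Pool.Agent.SzSP.Onb
import Pool.Agent.SzSP.Arch

/-!
Assembly.
-/

open Polynomial MeasureTheory
open scoped Classical

namespace SzSP

theorem geom_lt (n : ℕ) (T x : ℝ) (hT : 0 < T) (hx : 2 * T < x) :
    ∑ i ∈ Finset.range n, T ^ (n - i) * x ^ i < x ^ n := by
  have h1 := geom_sum₂_mul x T n
  have h2 : ∑ i ∈ Finset.range n, T ^ (n - i) * x ^ i =
      T * ∑ i ∈ Finset.range n, x ^ i * T ^ (n - 1 - i) := by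
    rw [Finset.mul_sum]
    refine Finset.sum_congr rfl fun i hi => ?_
    rw [Finset.mem_range] at hi
    have : n - i = n - 1 - i + 1 := by omega
    rw [this, pow_succ]
    ring
  rw [h2]
  set S := ∑ i ∈ Finset.range n, x ^ i * T ^ (n - 1 - i) with hS
  have hx0 : 0 < x := by linarith
  have hS0 : 0 ≤ S := Finset.sum_nonneg fun i _ => by positivity
  have hTn : 0 < T ^ n := by positivity
  have h3 : T * S ≤ S * (x - T) := by
    rw [mul_comm]
    exact mul_le_mul_of_nonneg_left (by linarith) hS0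
  linarith

theorem roots_le (n : ℕ) (hn : 1 ≤ n) (T : ℕ) (hT : 1 ≤ T) (a : Fin (n - 1) → ℤ)
    (ha : a ∈ box n T) : ∀ α ∈ (cpx (poly n a)).roots, ‖α‖ ≤ 2 * T := by
  intro α hα
  by_contra hlt
  rw [not_le] at hlt
  have hT0 : (0 : ℝ) < T := by exact_mod_cast hT
  have hroot : (cpx (poly n a)).eval α = 0 := by
    rw [mem_roots'] at hα
    exact hα.2
  unfold cpx poly at hroot
  simp only [Polynomial.map_add, Polynomial.map_pow, map_X, Polynomial.map_sum,
    Polynomial.map_mul, map_C, eval_add, eval_pow, eval_X, eval_finsetSum, eval_mul,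
    eval_C] at hroot
  simp only [eq_intCast] at hroot
  have h1 : α ^ n = - ∑ i : Fin (n - 1), (a i : ℂ) * α ^ (i : ℕ) := eq_neg_of_add_eq_zero_left hroot
  have h2 : ‖α‖ ^ n ≤ ∑ i : Fin (n - 1), (T : ℝ) ^ (n - i) * ‖α‖ ^ (i : ℕ) := by
    rw [← norm_pow, h1, norm_neg]
    refine (norm_sum_le _ _).trans (Finset.sum_le_sum fun i _ => ?_)
    rw [norm_mul, norm_pow]
    refine mul_le_mul_of_nonneg_right ?_ (by positivity)
    unfold box at ha
    rw [Fintype.mem_piFinset] at ha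
    have h3 := ha i
    rw [Finset.mem_Icc] at h3
    have h4 : |a i| ≤ (T : ℤ) ^ (n - (i : ℕ)) := abs_le.mpr h3
    have h5 : ((|a i| : ℤ) : ℝ) ≤ (T : ℝ) ^ (n - (i : ℕ)) := by exact_mod_cast h4
    rw [Complex.norm_intCast]
    rw [Int.cast_abs] at h5
    exact h5
  have h3 : ∑ i : Fin (n - 1), (T : ℝ) ^ (n - i) * ‖α‖ ^ (i : ℕ) ≤
      ∑ i ∈ Finset.range n, (T : ℝ) ^ (n - i) * ‖α‖ ^ i := by
    rw [Fin.sum_univ_eq_sum_range (fun i => (T : ℝ) ^ (n - i) * ‖α‖ ^ i) (n - 1)]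
    apply Finset.sum_le_sum_of_subset_of_nonneg
    · intro i hi
      rw [Finset.mem_range] at hi ⊢
      omega
    · intro i _ _
      positivity
  have h4 := geom_lt n T ‖α‖ hT0 hlt
  linarith

theorem oddPart_pos (m : ℕ) (f : ℤ[X]) : 1 ≤ oddPart m f := by
  unfold oddPart
  refine Nat.one_le_iff_ne_zero.mpr (Finset.prod_ne_zero_iff.mpr fun p hp => ?_)
  rw [Finset.mem_filter] at hp
  exact (Nat.prime_of_mem_primeFactors hp.1).ne_zero

theorem genus_two {m n : ℕ} (hg : 2 ≤ genus m n) : 2 ≤ m ∧ 2 ≤ n := by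
  unfold genus at hg
  constructor
  · by_contra h
    have : m - 1 = 0 := by omega
    rw [this] at hg
    simp at hg
  · by_contra h
    have : n - 1 = 0 := by omega
    rw [this] at hg
    simp at hg

theorem main (m n : ℕ) (hmn : m.Coprime n) (hg : 2 ≤ genus m n) (κ : ℝ) (hκ : 3 / 2 < κ) :
    ∃ A δ : ℝ, 0 < δ ∧ ∀ T : ℕ, 1 ≤ T →
      (((box n T).filter (fun a => ¬ SmallPoint m (poly n a)
        (κ / m * Real.log (oddPart m (poly n a)) + κ + m ^ 2 * n ^ 4 * 16 ^ n))).card : ℝ)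
        ≤ A * (T : ℝ) ^ (-δ) * (box n T).card := by
  obtain ⟨hm, hn⟩ := genus_two hg
  obtain ⟨A, δ, hδ, hc⟩ := count m n (by omega) hn κ hκ
  refine ⟨A, δ, hδ, fun T hT => le_trans ?_ (hc T hT)⟩
  rw [Nat.cast_le]
  apply Finset.card_le_card
  intro a ha
  rw [Finset.mem_filter] at ha ⊢
  refine ⟨ha.1, ?_⟩
  by_contra hcon
  rw [not_or, not_lt] at hcon
  obtain ⟨hd, hlog⟩ := hcon
  apply ha.2
  have hmon : (poly n a).Monic := poly_mon n (by omega) a
  have hdeg : (poly n a).natDegree = n := poly_natDegree n (by omega) a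
  have hT0 : (1 : ℝ) ≤ T := by exact_mod_cast hT
  refine ⟨hd, fun p => logRadius_nonneg p m (by omega) _ hmon (by omega) (by rw [hdeg]; exact hmn),
    exists_onb m hm _ hmon hd (by rw [hdeg]; exact hmn), fun e he => ?_⟩
  have harch := arch_le m hm (poly n a) hmon (by omega) (by rw [hdeg]; exact hmn)
    (by rw [hdeg]; omega) e he (2 * T) (by linarith) (roots_le n (by omega) T hT a ha.1)
  rw [hdeg] at harch
  have hm0 : (2 : ℝ) ≤ m := by exact_mod_cast hm
  have hn0 : (2 : ℝ) ≤ n := by exact_mod_cast hn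
  have hg0 : (2 : ℝ) ≤ genus m n := by exact_mod_cast hg
  have hN : (1 : ℝ) ≤ oddPart m (poly n a) := by exact_mod_cast oddPart_pos m (poly n a)
  set N : ℝ := (oddPart m (poly n a) : ℝ) with hNdef
  have hX : (4 : ℝ) ≤ (m : ℝ) ^ 2 * (n : ℝ) ^ 4 * 16 ^ n := by
    have h1 : (4 : ℝ) ≤ (m : ℝ) ^ 2 := by nlinarith
    have h2 : (1 : ℝ) ≤ (n : ℝ) ^ 4 := one_le_pow₀ (by linarith)
    have h3 : (1 : ℝ) ≤ (16 : ℝ) ^ n := one_le_pow₀ (by norm_num)
    calc (4 : ℝ) = 4 * 1 * 1 := by ring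
      _ ≤ (m : ℝ) ^ 2 * (n : ℝ) ^ 4 * 16 ^ n := by gcongr
  set Xc : ℝ := (m : ℝ) ^ 2 * (n : ℝ) ^ 4 * 16 ^ n with hXc
  have hfin : archTerm m (poly n a) e ≤ κ / m * Real.log N + κ + Xc := by
    have h1 : Real.log (2 * (T : ℝ)) = Real.log 2 + Real.log T :=
      Real.log_mul (by norm_num) (by positivity)
    have h2 : Real.log (2 * m * N) = Real.log 2 + Real.log m + Real.log N := by
      rw [Real.log_mul (by positivity) (by positivity), Real.log_mul (by norm_num) (by positivity)]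
    have h3 : Real.log 2 ≤ 0.7 := by linarith [Real.log_two_lt_d9]
    have h4 : Real.log m ≤ m - 1 := Real.log_le_sub_one_of_pos (by positivity)
    have h5 : 0 ≤ Real.log N := Real.log_nonneg hN
    have hκ0 : 0 < κ := by linarith
    have h6 : Real.log T ≤ κ * (m + Real.log N) := by
      refine hlog.trans (mul_le_mul_of_nonneg_left ?_ hκ0.le)
      rw [h2]
      linarith
    have h7 : Xc / genus m n ≤ Xc / 2 :=
      div_le_div_of_nonneg_left (by linarith) (by norm_num) hg0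
    have h8 : Real.log (2 * (T : ℝ)) / m + 3 * Real.log 2 / m ≤ κ / m * Real.log N + κ + 1.4 := by
      rw [h1, ← add_div, div_le_iff₀ (by linarith)]
      have : (κ / m * Real.log N + κ + 1.4) * m = κ * Real.log N + κ * m + 1.4 * m := by
        field_simp
      rw [this]
      nlinarith
    have h9 : (m : ℝ) ^ 2 * (n : ℝ) ^ 4 * 16 ^ n / genus m n = Xc / genus m n := rfl
    linarith
  unfold height
  refine le_trans ?_ (EReal.coe_le_coe_iff.mpr hfin)
  have h0 : (0 : EReal) ≤ ((∑' p : Nat.Primes, (logRadius p m (poly n a)).toENNReal : ENNReal) :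
      EReal) := EReal.coe_ennreal_nonneg _
  calc (archTerm m (poly n a) e : EReal) - _ ≤ (archTerm m (poly n a) e : EReal) - 0 :=
        EReal.sub_le_sub le_rfl h0
    _ = _ := by rw [sub_zero]

end SzSP
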