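import Pool.Agent.SzSP.Main
import Pool.Agent.SzC2.Final

/-!
Assembly, with the strong count.
-/

open Polynomial MeasureTheory
open scoped Classical

namespace SzSP

theorem badPart_pos (m : ℕ) (f : ℤ[X]) : 1 ≤ badPart m f := by
  unfold badPart
  refine Nat.one_le_iff_ne_zero.mpr (Finset.prod_ne_zero_iff.mpr fun p hp => ?_)
  rw [Finset.mem_filter] at hp
  exact (Nat.prime_of_mem_primeFactors hp.1).ne_zero

theorem badPart_eq (m : ℕ) (f : ℤ[X]) : SzC2.badPart m f = badPart m f := by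
  unfold badPart SzC2.badPart
  congr 1

/-- the deterministic part -/
theorem det (m n : ℕ) (hmn : m.Coprime n) (hn : 2 ≤ n) (hg : 2 ≤ genus m n) (T : ℕ) (hT : 1 ≤ T)
    (a : Fin (n - 1) → ℤ) (ha : a ∈ box n T) (hd : (poly n a).discr ≠ 0) (B : ℝ)
    (hB : Real.log T / m + 2 + (m : ℝ) ^ 2 * (n : ℝ) ^ 4 * 16 ^ n / 2 ≤ B) :
    SmallPoint m (poly n a) B := by
  obtain ⟨hm, -⟩ := genus_two hg
  have hmon : (poly n a).Monic := poly_mon n (by omega) a
  have hdeg : (poly n a).natDegree = n := poly_natDegree n (by omega) a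
  have hT0 : (1 : ℝ) ≤ T := by exact_mod_cast hT
  refine ⟨hd, fun p => logRadius_nonneg p m (by omega) _ hmon (by omega) (by rw [hdeg]; exact hmn),
    exists_onb m hm _ hmon hd (by rw [hdeg]; exact hmn), fun e he => ?_⟩
  have harch := arch_le m hm (poly n a) hmon (by omega) (by rw [hdeg]; exact hmn)
    (by rw [hdeg]; omega) e he (2 * T) (by linarith) (roots_le n (by omega) T hT a ha)
  rw [hdeg] at harch
  have hm0 : (2 : ℝ) ≤ m := by exact_mod_cast hm
  have hn0 : (2 : ℝ) ≤ n := by exact_mod_cast hn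
  have hg0 : (2 : ℝ) ≤ genus m n := by exact_mod_cast hg
  have hX : (0 : ℝ) ≤ (m : ℝ) ^ 2 * (n : ℝ) ^ 4 * 16 ^ n := by positivity
  set Xc : ℝ := (m : ℝ) ^ 2 * (n : ℝ) ^ 4 * 16 ^ n with hXc
  have hfin : archTerm m (poly n a) e ≤ B := by
    have h1 : Real.log (2 * (T : ℝ)) = Real.log 2 + Real.log T :=
      Real.log_mul (by norm_num) (by positivity)
    have h3 : Real.log 2 ≤ 0.7 := by linarith [Real.log_two_lt_d9]
    have h7 : Xc / genus m n ≤ Xc / 2 :=
      div_le_div_of_nonneg_left hX (by norm_num) hg0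
    have h8 : Real.log (2 * (T : ℝ)) / m + 3 * Real.log 2 / m ≤ Real.log T / m + 2 := by
      rw [h1, ← add_div, div_le_iff₀ (by linarith)]
      have : (Real.log T / m + 2) * m = Real.log T + 2 * m := by
        field_simp
      rw [this]
      nlinarith
    have h9 : (m : ℝ) ^ 2 * (n : ℝ) ^ 4 * 16 ^ n / genus m n = Xc / genus m n := rfl
    linarith
  unfold height
  refine le_trans ?_ (EReal.coe_le_coe_iff.mpr hfin)
  have h0 : (0 : EReal) ≤ ((∑' p : Nat.Primes, (logRadius p m (poly n a)).toENNReal : ENNReal) :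
      EReal) := EReal.coe_ennreal_nonneg _
  calc (archTerm m (poly n a) e : EReal) - _ ≤ (archTerm m (poly n a) e : EReal) - 0 :=
        EReal.sub_le_sub le_rfl h0
    _ = _ := by rw [sub_zero]

theorem const_big (m n : ℕ) (hm : 2 ≤ m) (hn : 2 ≤ n) :
    (6 : ℝ) ≤ (m : ℝ) ^ 2 * (n : ℝ) ^ 4 * 16 ^ n := by
  have hm0 : (2 : ℝ) ≤ m := by exact_mod_cast hm
  have hn0 : (2 : ℝ) ≤ n := by exact_mod_cast hn
  have h1 : (4 : ℝ) ≤ (m : ℝ) ^ 2 := by nlinarith
  have h2 : (1 : ℝ) ≤ (n : ℝ) ^ 4 := one_le_pow₀ (by linarith)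
  have h3 : (16 : ℝ) ≤ (16 : ℝ) ^ n := by
    calc (16 : ℝ) = 16 ^ 1 := by norm_num
      _ ≤ 16 ^ n := pow_le_pow_right₀ (by norm_num) (by omega)
  calc (6 : ℝ) ≤ 4 * 1 * 16 := by norm_num
    _ ≤ (m : ℝ) ^ 2 * (n : ℝ) ^ 4 * 16 ^ n := by gcongr

theorem main2_aux (m n : ℕ) (hmn : m.Coprime n) (hn : 3 ≤ n) (hg : 2 ≤ genus m n) (κ : ℝ)
    (hκ : 1 / (n : ℝ) < κ) (hκ1 : κ ≤ 1) :
    ∃ A δ : ℝ, 0 < δ ∧ ∀ T : ℕ, 1 ≤ T →
      (((box n T).filter (fun a => ¬ SmallPoint m (poly n a)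
        (κ / m * Real.log (badPart m (poly n a)) + m ^ 2 * n ^ 4 * 16 ^ n))).card : ℝ)
        ≤ A * (T : ℝ) ^ (-δ) * (box n T).card := by
  obtain ⟨hm, -⟩ := genus_two hg
  obtain ⟨A, δ, hδ, hc⟩ := SzC2.count2 m n (by omega) hn κ hκ
  refine ⟨A, δ, hδ, fun T hT => le_trans ?_ (hc T hT)⟩
  rw [Nat.cast_le]
  apply Finset.card_le_card
  intro a ha
  rw [Finset.mem_filter] at ha ⊢
  refine ⟨ha.1, ?_⟩
  by_contra hcon
  rw [not_or, not_lt, badPart_eq] at hcon
  obtain ⟨hd, hlog⟩ := hcon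
  apply ha.2
  refine det m n hmn (by omega) hg T hT a ha.1 hd _ ?_
  have hm0 : (2 : ℝ) ≤ m := by exact_mod_cast hm
  have hN : (1 : ℝ) ≤ badPart m (poly n a) := by exact_mod_cast badPart_pos m (poly n a)
  have hbig := const_big m n hm (by omega)
  have hκ0 : 0 < κ := lt_trans (by positivity) hκ
  set N : ℝ := (badPart m (poly n a) : ℝ) with hNdef
  set Xc : ℝ := (m : ℝ) ^ 2 * (n : ℝ) ^ 4 * 16 ^ n with hXc
  rw [Real.log_mul (by positivity) (by positivity)] at hlog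
  have h4 : Real.log m ≤ m - 1 := Real.log_le_sub_one_of_pos (by positivity)
  have h4' : 0 ≤ Real.log m := Real.log_nonneg (by linarith)
  have h5 : κ * Real.log m ≤ m := by nlinarith
  have h8 : Real.log T / m ≤ κ / m * Real.log N + 1 := by
    rw [div_le_iff₀ (by linarith)]
    have : (κ / m * Real.log N + 1) * m = κ * Real.log N + m := by
      field_simp
    rw [this]
    linarith
  linarith

theorem main2 (m n : ℕ) (hmn : m.Coprime n) (hn : 3 ≤ n) (hg : 2 ≤ genus m n) (κ : ℝ)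
    (hκ : 1 / (n : ℝ) < κ) :
    ∃ A δ : ℝ, 0 < δ ∧ ∀ T : ℕ, 1 ≤ T →
      (((box n T).filter (fun a => ¬ SmallPoint m (poly n a)
        (κ / m * Real.log (badPart m (poly n a)) + m ^ 2 * n ^ 4 * 16 ^ n))).card : ℝ)
        ≤ A * (T : ℝ) ^ (-δ) * (box n T).card := by
  rcases le_total κ 1 with h | h
  · exact main2_aux m n hmn hn hg κ hκ h
  · have hn3 : (3 : ℝ) ≤ n := by exact_mod_cast hn
    obtain ⟨A, δ, hδ, hc⟩ := main2_aux m n hmn hn hg 1 (by
      rw [div_lt_one (by linarith)]; linarith) le_rfl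
    refine ⟨A, δ, hδ, fun T hT => le_trans ?_ (hc T hT)⟩
    rw [Nat.cast_le]
    apply Finset.card_le_card
    intro a ha
    rw [Finset.mem_filter] at ha ⊢
    refine ⟨ha.1, fun hs => ha.2 ?_⟩
    obtain ⟨h1, h2, h3, h4⟩ := hs
    refine ⟨h1, h2, h3, fun e he => (h4 e he).trans (EReal.coe_le_coe_iff.mpr ?_)⟩
    have hN : (1 : ℝ) ≤ badPart m (poly n a) := by exact_mod_cast badPart_pos m (poly n a)
    have hl := Real.log_nonneg hN
    have hm0 : (0 : ℝ) ≤ m := by positivity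
    have : 1 / (m : ℝ) * Real.log (badPart m (poly n a)) ≤
        κ / m * Real.log (badPart m (poly n a)) :=
      mul_le_mul_of_nonneg_right (div_le_div_of_nonneg_right h hm0) hl
    linarith

end SzSP
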