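import Pool.Agent.SzSP.Defs

/-!
The odd part of the discriminant.
-/

open Polynomial

namespace SzSP

/-- The product of the primes `p` not dividing `2 m` which divide the discriminant of `f` to an odd
power. -/
noncomputable def oddPart (m : ℕ) (f : ℤ[X]) : ℕ :=
  ∏ p ∈ f.discr.natAbs.primeFactors with
    (Odd (f.discr.natAbs.factorization p) ∧ ¬ p ∣ 2 * m), p

end SzSP
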